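import Pool.Agent.BS79.Base

set_option autoImplicit false
set_option linter.unusedSectionVars false

/-!
# BS79/ArcC: the ridge measure is constant on arcs without pairs, and the next facet

`arc_const`: `g t = gv P (ww t) (ww' t)`.  On `Ioo a b` it is locally constant: exactly the argument of
`circle_all` (PT74/Circ); at `a` it is right continuous: `gv_rot` for `(ww a, ww' a)`.
`half_const`: the open half plane `0 < ⟪rot w₀, c⟫`, with `w₀ = ww a`, consists of the `ww t`, `t ∈ Ioo a (a + π)`.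
`next_facet`: `exists_other` (PT56/FacC) with `u := w₀`, `v := rot u v w₀` (`rot_norm`).
-/

namespace Pool.BS79

open Set Filter Topology MeasureTheory
open scoped RealInnerProductSpace ENNReal
open Pool.PT56

variable {E : Type} [NormedAddCommGroup E] [InnerProductSpace ℝ E] [FiniteDimensional ℝ E]
  [MeasurableSpace E] [BorelSpace E]

private theorem arc_right {P : Set E} (hP : Polytope P) {u v : E} (t : ℝ) :
    ∃ δ : ℝ, 0 < δ ∧ ∀ y, t < y → y < t + δ →
      gv P (ww u v y) (ww' u v y) = gv P (ww u v t) (ww' u v t) := by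
  have hr := gv_rot hP (ww u v t) (ww' u v t)
  obtain ⟨δ1, hδ1, h1⟩ := mem_nhdsGT_iff_exists_Ioo_subset.mp hr
  have hδ1' : (0:ℝ) < δ1 := hδ1
  refine ⟨δ1, hδ1', fun y hy1 hy2 => ?_⟩
  have hmem : y - t ∈ Ioo (0:ℝ) δ1 := ⟨by linarith, by linarith⟩
  have h3 := h1 hmem
  have h3' : gv P (Real.cos (y - t) • ww u v t + Real.sin (y - t) • (ww' u v t))
    (-Real.sin (y - t) • ww u v t + Real.cos (y - t) • (ww' u v t)) =
    gv P (ww u v t) (ww' u v t) := h3
  have h4 : y = t + (y - t) := by ring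
  have h6 : ww u v y = Real.cos (y - t) • ww u v t + Real.sin (y - t) • (ww' u v t) := by
    conv_lhs => rw [h4]
    exact ww_add u v t (y - t)
  have h7 : ww' u v y = (-Real.sin (y - t) • ww u v t + Real.cos (y - t) • (ww' u v t)) := by
    conv_lhs => rw [h4]
    exact ww'_add u v t (y - t)
  rw [h6, h7, h3']

private theorem arc_left {P : Set E} (hP : Polytope P) {u v : E} (t : ℝ) :
    ∃ δ : ℝ, 0 < δ ∧ ∀ y, y < t → t - δ < y →
      gv P (ww u v y) (-ww' u v y) = gv P (ww u v t) (-ww' u v t) := by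
  have hl := gv_rot hP (ww u v t) (-ww' u v t)
  obtain ⟨δ2, hδ2, h2⟩ := mem_nhdsGT_iff_exists_Ioo_subset.mp hl
  have hδ2' : (0:ℝ) < δ2 := hδ2
  refine ⟨δ2, hδ2', fun y hy1 hy2 => ?_⟩
  have hmem : t - y ∈ Ioo (0:ℝ) δ2 := ⟨by linarith, by linarith⟩
  have h3 := h2 hmem
  have h3' : gv P (Real.cos (t - y) • ww u v t + Real.sin (t - y) • (-ww' u v t))
    (-Real.sin (t - y) • ww u v t + Real.cos (t - y) • (-ww' u v t)) =
    gv P (ww u v t) (-ww' u v t) := h3
  have h4 : y = t - (t - y) := by ring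
  have h6 : ww u v y = Real.cos (t - y) • ww u v t + Real.sin (t - y) • (-ww' u v t) := by
    conv_lhs => rw [h4]
    exact ww_sub u v t (t - y)
  have h7 : -ww' u v y = (-Real.sin (t - y) • ww u v t + Real.cos (t - y) • (-ww' u v t)) := by
    conv_lhs => rw [h4]
    rw [ww'_sub u v t (t - y), neg_neg]
  rw [h6, h7, h3']

theorem arc_const {P : Set E} (hP : Polytope P) (hT : Tiles P) {u v : E} (h : ON u v) {a b : ℝ}
    (hno : ∀ t ∈ Ioo a b, ¬ (Facet P (ww u v t) ∧ Facet P (-ww u v t))) {t : ℝ} (ht : t ∈ Ico a b) :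
    gv P (ww u v t) (ww' u v t) = gv P (ww u v a) (ww' u v a) := by
  have hc := hP.compact
  have hsymm : ∀ t ∈ Ioo a b, gv P (ww u v t) (-ww' u v t) = gv P (ww u v t) (ww' u v t) := by
    intro t ht
    have h1 := norm_ww h.nu h.nv h.uv t
    have h2 := norm_ww' h.nu h.nv h.uv t
    have h3 := inner_ww h.nu h.nv h.uv t
    by_cases h6 : Facet P (-ww u v t)
    · have h4 : ¬ Facet P (ww u v t) := fun h5 => hno t ht ⟨h5, h6⟩
      exact (gv_symm_of_not_facet hc hP.conv h1 h2 h3 h4).symm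
    · exact (gv_symm_of_single hc hP.conv hP.2 hT h1 h2 h3 h6).symm
  have hloc : IsLocallyConstant (fun s : Ioo a b => gv P (ww u v s) (ww' u v s)) := by
    rw [IsLocallyConstant.iff_eventually_eq]
    rintro ⟨s, hs⟩
    obtain ⟨δ1, hδ1, h1⟩ := arc_right hP (u := u) (v := v) s
    obtain ⟨δ2, hδ2, h2⟩ := arc_left hP (u := u) (v := v) s
    rw [Metric.eventually_nhds_iff]
    refine ⟨min δ1 δ2, lt_min hδ1 hδ2, ?_⟩
    rintro ⟨y, hy0⟩ hy
    have hy' : |y - s| < min δ1 δ2 := by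
      have : dist y s < min δ1 δ2 := hy
      rwa [Real.dist_eq] at this
    show gv P (ww u v y) (ww' u v y) = gv P (ww u v s) (ww' u v s)
    rcases lt_trichotomy y s with hys | hys | hys
    · rw [abs_of_neg (by linarith)] at hy'
      rw [← hsymm y hy0, ← hsymm s hs]
      exact h2 y hys (by linarith [min_le_right δ1 δ2])
    · rw [hys]
    · rw [abs_of_pos (by linarith)] at hy'
      exact h1 y hys (by linarith [min_le_left δ1 δ2])
  rcases eq_or_lt_of_le ht.1 with hta | hta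
  · rw [← hta]
  · have hta' : t ∈ Ioo a b := ⟨hta, ht.2⟩
    have hpre : PreconnectedSpace (Ioo a b) := Subtype.preconnectedSpace isPreconnected_Ioo
    obtain ⟨δ, hδ, hr⟩ := arc_right hP (u := u) (v := v) a
    have hm : 0 < min (t - a) δ := lt_min (by linarith) hδ
    have h1 := min_le_left (t - a) δ
    have h2 := min_le_right (t - a) δ
    have hy : a + min (t - a) δ / 2 ∈ Ioo a b := ⟨by linarith, by linarith [ht.2]⟩
    have h3 := hloc.apply_eq_of_preconnectedSpace (⟨t, hta'⟩ : Ioo a b) ⟨_, hy⟩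
    have h4 : gv P (ww u v t) (ww' u v t) =
        gv P (ww u v (a + min (t - a) δ / 2)) (ww' u v (a + min (t - a) δ / 2)) := h3
    rw [h4]
    exact hr _ (by linarith) (by linarith)

theorem half_const {P : Set E} (hP : Polytope P) (hT : Tiles P) {u v : E} (h : ON u v) {w₀ : E}
    (hw₀ : ‖w₀‖ = 1) (hs : w₀ ∈ Submodule.span ℝ {u, v})
    (hno : ∀ w ∈ BW P u v, 0 < ⟪rot u v w₀, w⟫ → -w ∉ BW P u v) {c : E} (hc : ‖c‖ = 1)
    (hcs : c ∈ Submodule.span ℝ {u, v}) (hc0 : 0 < ⟪rot u v w₀, c⟫) : gp P u v c = gp P u v w₀ := by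
  obtain ⟨a, -, rfl⟩ := exists_angle h hw₀ hs 0
  obtain ⟨t, ht, rfl⟩ := exists_angle h hc hcs a
  rw [rot_ww h, inner_ww'_ww h] at hc0
  have hpi := Real.pi_pos
  have ht1 : t < a + Real.pi := by
    by_contra hcon
    push Not at hcon
    have h1 : Real.sin (t - a) ≤ 0 := by
      have h2 : 0 ≤ Real.sin (t - a - Real.pi) :=
        Real.sin_nonneg_of_nonneg_of_le_pi (by linarith) (by linarith [ht.2])
      rw [Real.sin_sub_pi] at h2
      linarith
    linarith
  unfold gp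
  rw [rot_ww h, rot_ww h]
  refine arc_const hP hT h (b := a + Real.pi) ?_ ⟨ht.1, ht1⟩
  rintro s ⟨hs1, hs2⟩ ⟨hf1, hf2⟩
  refine hno (ww u v s) ⟨hf1, ww_mem s⟩ ?_ ⟨hf2, Submodule.neg_mem _ (ww_mem s)⟩
  rw [rot_ww h, inner_ww'_ww h]
  exact Real.sin_pos_of_pos_of_lt_pi (by linarith) (by linarith)

theorem next_facet {P : Set E} (hP : Polytope P) {u v : E} (h : ON u v) {w₀ : E}
    (hw₀ : w₀ ∈ BW P u v) (hg : gp P u v w₀ ≠ 0) : ∃ w ∈ BW P u v, 0 < ⟪rot u v w₀, w⟫ := by
  obtain ⟨hn, hi, hm⟩ := rot_norm h hw₀.1.1 hw₀.2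
  obtain ⟨w, hw, ⟨α, β, hβ, hwe⟩, -⟩ := exists_other hP hw₀.1 hn hi hg
  refine ⟨w, ⟨hw, ?_⟩, ?_⟩
  · rw [hwe]
    exact Submodule.add_mem _ (Submodule.smul_mem _ _ hw₀.2) (Submodule.smul_mem _ _ hm)
  · rw [hwe, inner_add_right, inner_smul_right, inner_smul_right, real_inner_comm, hi,
      real_inner_self_eq_norm_sq, hn]
    linarith

end Pool.BS79
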