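import Pool.Agent.BS79.Base

set_option autoImplicit false
set_option linter.unusedSectionVars false

/-!
# BS79/LConst: the invariant of the belt

`lconst_t`: copy the proof of `circle_all` (PT74/Circ) for the function
`f t = gv P (ww t) (ww' t) + gv P (-ww t) (-ww' t)`: by `gv_law` (PT56/FacA) in the frame `ww t, ww' t` one has
`f t = gv P (ww t) (-ww' t) + gv P (-ww t) (ww' t)`.  To the right of `t`: `gv_rot` for the pairs
`(ww t, ww' t)` and `(-ww t, -ww' t)`; to the left of `t`: `gv_rot` for `(ww t, -ww' t)` and `(-ww t, ww' t)` and the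
second form of `f` at both points.  So `f` is locally constant on `ℝ`.
`lconst`: the same for a unit vector of the plane (`exists_angle`, `rot_ww`, `rot_neg`).
`single_gm`: `gv_symm_of_single` (single facet: `gp = gm`).
-/

namespace Pool.BS79

open Set Filter Topology MeasureTheory
open scoped RealInnerProductSpace ENNReal
open Pool.PT56

variable {E : Type} [NormedAddCommGroup E] [InnerProductSpace ℝ E] [FiniteDimensional ℝ E]
  [MeasurableSpace E] [BorelSpace E]

private theorem lconst_neg (a b : E) (e : ℝ) :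
    Real.cos e • (-a) + Real.sin e • (-b) = -(Real.cos e • a + Real.sin e • b) := by module

private theorem lconst_neg' (a b : E) (e : ℝ) :
    -Real.sin e • (-a) + Real.cos e • (-b) = -(-Real.sin e • a + Real.cos e • b) := by module

theorem lconst_t {P : Set E} (hP : Polytope P) (hT : Tiles P) {u v : E} (h : ON u v) (t : ℝ) :
    gv P (ww u v t) (ww' u v t) + gv P (-ww u v t) (-ww' u v t) = LL P u v := by
  have hc := hP.compact
  have hlaw : ∀ t, gv P (ww u v t) (ww' u v t) + gv P (-ww u v t) (-ww' u v t) =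
      gv P (ww u v t) (-ww' u v t) + gv P (-ww u v t) (ww' u v t) := fun t =>
    gv_law hc hP.conv hP.2 hT (norm_ww h.nu h.nv h.uv t) (norm_ww' h.nu h.nv h.uv t)
      (inner_ww h.nu h.nv h.uv t)
  have hloc : IsLocallyConstant
      (fun t : ℝ => gv P (ww u v t) (ww' u v t) + gv P (-ww u v t) (-ww' u v t)) := by
    rw [IsLocallyConstant.iff_eventually_eq]
    intro t
    have hr := gv_rot hP (ww u v t) (ww' u v t)
    have hr2 := gv_rot hP (-ww u v t) (-ww' u v t)
    have hl := gv_rot hP (ww u v t) (-ww' u v t)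
    have hl2 := gv_rot hP (-ww u v t) (ww' u v t)
    obtain ⟨δ1, hδ1, h1⟩ := mem_nhdsGT_iff_exists_Ioo_subset.mp (hr.and hr2)
    obtain ⟨δ2, hδ2, h2⟩ := mem_nhdsGT_iff_exists_Ioo_subset.mp (hl.and hl2)
    have hδ1' : (0:ℝ) < δ1 := hδ1
    have hδ2' : (0:ℝ) < δ2 := hδ2
    rw [Metric.eventually_nhds_iff]
    refine ⟨min δ1 δ2, lt_min hδ1' hδ2', fun y hy => ?_⟩
    rw [Real.dist_eq] at hy
    show gv P (ww u v y) (ww' u v y) + gv P (-ww u v y) (-ww' u v y) =
      gv P (ww u v t) (ww' u v t) + gv P (-ww u v t) (-ww' u v t)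
    rcases lt_trichotomy y t with hyt | hyt | hyt
    · have hmem : t - y ∈ Ioo (0:ℝ) δ2 := by
        refine ⟨by linarith, ?_⟩
        rw [abs_of_neg (by linarith)] at hy
        linarith [min_le_right δ1 δ2]
      obtain ⟨h3, h4⟩ := h2 hmem
      have h5 : y = t - (t - y) := by ring
      have h6 : ww u v y = Real.cos (t - y) • ww u v t + Real.sin (t - y) • (-ww' u v t) := by
        conv_lhs => rw [h5]
        exact ww_sub u v t (t - y)
      have h7 : -ww' u v y = (-Real.sin (t - y) • ww u v t + Real.cos (t - y) • (-ww' u v t)) := by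
        conv_lhs => rw [h5]
        rw [ww'_sub u v t (t - y), neg_neg]
      have h8 : -ww u v y = Real.cos (t - y) • (-ww u v t) + Real.sin (t - y) • (ww' u v t) := by
        rw [h6]; module
      have h9 : ww' u v y = (-Real.sin (t - y) • (-ww u v t) + Real.cos (t - y) • (ww' u v t)) := by
        rw [← neg_neg (ww' u v y), h7]; module
      rw [hlaw y, hlaw t]
      have e1 : gv P (ww u v y) (-ww' u v y) = gv P (ww u v t) (-ww' u v t) := by
        rw [h6, h7]; exact h3
      have e2 : gv P (-ww u v y) (ww' u v y) = gv P (-ww u v t) (ww' u v t) := by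
        rw [h8, h9]; exact h4
      rw [e1, e2]
    · rw [hyt]
    · have hmem : y - t ∈ Ioo (0:ℝ) δ1 := by
        refine ⟨by linarith, ?_⟩
        rw [abs_of_pos (by linarith)] at hy
        linarith [min_le_left δ1 δ2]
      obtain ⟨h3, h4⟩ := h1 hmem
      have h5 : y = t + (y - t) := by ring
      have h6 : ww u v y = Real.cos (y - t) • ww u v t + Real.sin (y - t) • (ww' u v t) := by
        conv_lhs => rw [h5]
        exact ww_add u v t (y - t)
      have h7 : ww' u v y = (-Real.sin (y - t) • ww u v t + Real.cos (y - t) • (ww' u v t)) := by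
        conv_lhs => rw [h5]
        exact ww'_add u v t (y - t)
      have h8 : -ww u v y = Real.cos (y - t) • (-ww u v t) + Real.sin (y - t) • (-ww' u v t) := by
        rw [h6]; module
      have h9 : -ww' u v y = (-Real.sin (y - t) • (-ww u v t) + Real.cos (y - t) • (-ww' u v t)) := by
        rw [h7]; module
      have e1 : gv P (ww u v y) (ww' u v y) = gv P (ww u v t) (ww' u v t) := by
        rw [h6, h7]; exact h3
      have e2 : gv P (-ww u v y) (-ww' u v y) = gv P (-ww u v t) (-ww' u v t) := by
        rw [h8, h9]; exact h4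
      rw [e1, e2]
  have hfin := hloc.apply_eq_of_preconnectedSpace t 0
  simp only [ww_zero, ww'_zero] at hfin
  exact hfin

theorem lconst {P : Set E} (hP : Polytope P) (hT : Tiles P) {u v : E} (h : ON u v) {w : E} (hw : ‖w‖ = 1)
    (hs : w ∈ Submodule.span ℝ {u, v}) : gp P u v w + gp P u v (-w) = LL P u v := by
  obtain ⟨t, -, rfl⟩ := exists_angle h hw hs 0
  unfold gp
  rw [rot_neg, rot_ww h]
  exact lconst_t hP hT h t

theorem single_gm {P : Set E} (hP : Polytope P) (hT : Tiles P) {u v : E} (h : ON u v) {w : E}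
    (hw : w ∈ BW P u v) (hw' : -w ∉ BW P u v) : gm P u v w = gp P u v w := by
  have hr := rot_norm h hw.1.1 hw.2
  have hn : ¬ Facet P (-w) := fun hf => hw' ⟨hf, (Submodule.span ℝ {u, v}).neg_mem hw.2⟩
  exact (gv_symm_of_single hP.compact hP.conv hP.2 hT hw.1.1 hr.1 hr.2.1 hn).symm

end Pool.BS79
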