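import Pool.Agent.BS79.ArcC
import Pool.Agent.BS79.LConst

set_option autoImplicit false
set_option linter.unusedSectionVars false

/-!
# BS79/ArcD: arcs between a facet normal and a single facet normal

`arcp`: `w₀ = ww a`, `c = ww s` with `s ∈ Ioo a (a + π)` (`exists_angle`, `inner_ww'_ww`, sign of `sin`).  A direction `ww t`,
`t ∈ Ioo a s`, satisfies `0 < ⟪rot w₀, ww t⟫` and `0 < ⟪rot (ww t), c⟫`; so by `hno` not both `ww t` and `-ww t` are facet
normals.  `arc_const` on `Ico a s` and `gv_rot` (PT56/FacC) for the pair `(ww s, -ww' s)` (to the left of `s` the value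
`gv P (ww t) (-ww' t)` is `gv P (ww s) (-ww' s) = gm c`; and `gv P (ww t) (-ww' t) = gv P (ww t) (ww' t)` for `t ∈ Ioo a s` as
there) give `gm c = gp w₀`, and `gm c = gp c` as `c` is single (`single_gm`).
`arcm`: `c = ww s`, `w₀ = ww a`, `s < a < s + π`: in the same way `gm w₀ = gp c`.
-/

namespace Pool.BS79

open Set Filter Topology MeasureTheory
open scoped RealInnerProductSpace ENNReal
open Pool.PT56

variable {E : Type} [NormedAddCommGroup E] [InnerProductSpace ℝ E] [FiniteDimensional ℝ E]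
  [MeasurableSpace E] [BorelSpace E]

/-- the ridge measure on the negative side at the end of an arc without pairs -/
theorem gm_left {P : Set E} (hP : Polytope P) (hT : Tiles P) {u v : E} (h : ON u v) {a s : ℝ} (has : a < s)
    (hno : ∀ t ∈ Ioo a s, ¬ (Facet P (ww u v t) ∧ Facet P (-ww u v t))) :
    gv P (ww u v s) (-ww' u v s) = gv P (ww u v a) (ww' u v a) := by
  have hl := gv_rot hP (ww u v s) (-ww' u v s)
  obtain ⟨δ, hδ, h2⟩ := mem_nhdsGT_iff_exists_Ioo_subset.mp hl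
  have hδ' : (0:ℝ) < δ := hδ
  have hm : 0 < min (s - a) δ := lt_min (by linarith) hδ'
  have hm1 := min_le_left (s - a) δ
  have hm2 := min_le_right (s - a) δ
  set y := s - min (s - a) δ / 2 with hy
  have hys : y < s := by linarith
  have hya : a < y := by linarith
  have hyI : y ∈ Ioo a s := ⟨hya, hys⟩
  have hmem : s - y ∈ Ioo (0:ℝ) δ := ⟨by linarith, by linarith⟩
  have h3' : gv P (Real.cos (s - y) • ww u v s + Real.sin (s - y) • (-ww' u v s))
    (-Real.sin (s - y) • ww u v s + Real.cos (s - y) • (-ww' u v s)) =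
    gv P (ww u v s) (-ww' u v s) := h2 hmem
  have h4 : y = s - (s - y) := by ring
  have h6 : ww u v y = Real.cos (s - y) • ww u v s + Real.sin (s - y) • (-ww' u v s) := by
    conv_lhs => rw [h4]
    exact ww_sub u v s (s - y)
  have h7 : -ww' u v y = (-Real.sin (s - y) • ww u v s + Real.cos (s - y) • (-ww' u v s)) := by
    conv_lhs => rw [h4]
    rw [ww'_sub u v s (s - y), neg_neg]
  have hsymm : gv P (ww u v y) (-ww' u v y) = gv P (ww u v y) (ww' u v y) := by
    have g1 := norm_ww h.nu h.nv h.uv y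
    have g2 := norm_ww' h.nu h.nv h.uv y
    have g3 := inner_ww h.nu h.nv h.uv y
    by_cases g6 : Facet P (-ww u v y)
    · have g4 : ¬ Facet P (ww u v y) := fun g5 => hno y hyI ⟨g5, g6⟩
      exact (gv_symm_of_not_facet hP.compact hP.conv g1 g2 g3 g4).symm
    · exact (gv_symm_of_single hP.compact hP.conv hP.2 hT g1 g2 g3 g6).symm
  rw [← h3', ← h6, ← h7, hsymm]
  exact arc_const hP hT h hno ⟨hya.le, hys⟩

theorem arcp {P : Set E} (hP : Polytope P) (hT : Tiles P) {u v : E} (h : ON u v) {w₀ c : E}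
    (hw₀ : w₀ ∈ BW P u v) (hc : c ∈ BW P u v) (hc' : -c ∉ BW P u v) (h0 : 0 < ⟪rot u v w₀, c⟫)
    (hno : ∀ z ∈ BW P u v, -z ∈ BW P u v → 0 < ⟪rot u v w₀, z⟫ → ¬ 0 < ⟪rot u v z, c⟫) :
    gp P u v c = gp P u v w₀ := by
  rw [← single_gm hP hT h hc hc']
  obtain ⟨a, -, rfl⟩ := exists_angle h hw₀.1.1 hw₀.2 0
  obtain ⟨s, hs, rfl⟩ := exists_angle h hc.1.1 hc.2 a
  rw [rot_ww h, inner_ww'_ww h] at h0
  have hpi := Real.pi_pos
  have hs1 : a < s := by
    rcases eq_or_lt_of_le hs.1 with h1 | h1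
    · rw [h1, sub_self, Real.sin_zero] at h0
      exact absurd h0 (lt_irrefl 0)
    · exact h1
  have hs2 : s < a + Real.pi := by
    by_contra hcon
    push Not at hcon
    have h2 : 0 ≤ Real.sin (s - a - Real.pi) :=
      Real.sin_nonneg_of_nonneg_of_le_pi (by linarith) (by linarith [hs.2])
    rw [Real.sin_sub_pi] at h2
    linarith
  unfold gm gp
  rw [rot_ww h, rot_ww h]
  refine gm_left hP hT h hs1 ?_
  rintro t ⟨ht1, ht2⟩ ⟨hf1, hf2⟩
  refine hno (ww u v t) ⟨hf1, ww_mem t⟩ ⟨hf2, Submodule.neg_mem _ (ww_mem t)⟩ ?_ ?_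
  · rw [rot_ww h, inner_ww'_ww h]
    exact Real.sin_pos_of_pos_of_lt_pi (by linarith) (by linarith)
  · rw [rot_ww h, inner_ww'_ww h]
    exact Real.sin_pos_of_pos_of_lt_pi (by linarith) (by linarith)

theorem arcm {P : Set E} (hP : Polytope P) (hT : Tiles P) {u v : E} (h : ON u v) {w₀ c : E}
    (hw₀ : w₀ ∈ BW P u v) (hc : c ∈ BW P u v) (h0 : 0 < ⟪rot u v c, w₀⟫)
    (hno : ∀ z ∈ BW P u v, -z ∈ BW P u v → 0 < ⟪rot u v c, z⟫ → ¬ 0 < ⟪rot u v z, w₀⟫) :
    gp P u v c = gm P u v w₀ := by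
  obtain ⟨a, -, rfl⟩ := exists_angle h hc.1.1 hc.2 0
  obtain ⟨s, hs, rfl⟩ := exists_angle h hw₀.1.1 hw₀.2 a
  rw [rot_ww h, inner_ww'_ww h] at h0
  have hpi := Real.pi_pos
  have hs1 : a < s := by
    rcases eq_or_lt_of_le hs.1 with h1 | h1
    · rw [h1, sub_self, Real.sin_zero] at h0
      exact absurd h0 (lt_irrefl 0)
    · exact h1
  have hs2 : s < a + Real.pi := by
    by_contra hcon
    push Not at hcon
    have h2 : 0 ≤ Real.sin (s - a - Real.pi) :=
      Real.sin_nonneg_of_nonneg_of_le_pi (by linarith) (by linarith [hs.2])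
    rw [Real.sin_sub_pi] at h2
    linarith
  unfold gm gp
  rw [rot_ww h, rot_ww h]
  refine (gm_left hP hT h hs1 ?_).symm
  rintro t ⟨ht1, ht2⟩ ⟨hf1, hf2⟩
  refine hno (ww u v t) ⟨hf1, ww_mem t⟩ ⟨hf2, Submodule.neg_mem _ (ww_mem t)⟩ ?_ ?_
  · rw [rot_ww h, inner_ww'_ww h]
    exact Real.sin_pos_of_pos_of_lt_pi (by linarith) (by linarith)
  · rw [rot_ww h, inner_ww'_ww h]
    exact Real.sin_pos_of_pos_of_lt_pi (by linarith) (by linarith)

end Pool.BS79
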