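import Pool.Agent.PT74.Circ

set_option autoImplicit false
set_option linter.unusedSectionVars false

/-!
# BS79/Base: definitions and rotating frames for the belt theorem

Paper: note 3504 on MP_29fbf2_co.
-/

namespace Pool.BS79

open Set Filter Topology MeasureTheory
open scoped RealInnerProductSpace ENNReal
open Pool.PT56
open Pool.Agent.H14Belt (beltRidges Gen flat mot)

variable {E : Type} [NormedAddCommGroup E] [InnerProductSpace ℝ E] [FiniteDimensional ℝ E]
  [MeasurableSpace E] [BorelSpace E]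

/-- `u`, `v` is an orthonormal pair -/
structure ON (u v : E) : Prop where
  nu : ‖u‖ = 1
  nv : ‖v‖ = 1
  uv : ⟪u, v⟫ = 0

/-- rotation by 90 degrees in the plane of `u`, `v` -/
noncomputable def rot (u v x : E) : E := (-⟪v, x⟫) • u + ⟪u, x⟫ • v

/-- the facet normals of `P` in the plane of `u`, `v` -/
def BW (P : Set E) (u v : E) : Set E := {w | Facet P w ∧ w ∈ Submodule.span ℝ {u, v}}

/-- the measure of the ridge on the positive side of the direction `w` -/
noncomputable def gp (P : Set E) (u v w : E) : ℝ≥0∞ := gv P w (rot u v w)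

/-- the measure of the ridge on the negative side of the direction `w` -/
noncomputable def gm (P : Set E) (u v w : E) : ℝ≥0∞ := gv P w (-rot u v w)

/-- the invariant of the belt -/
noncomputable def LL (P : Set E) (u v : E) : ℝ≥0∞ := gv P u v + gv P (-u) (-v)

/-- the total measure of the belt -/
noncomputable def TT (P : Set E) (u v : E) : ℝ≥0∞ :=
  μHE[Module.finrank ℝ E - 2] (beltRidges P u v)

/-- `c` is a single facet normal of the plane, and some open half plane bounded by the line of a pair of parallel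
facets contains `c` and exactly one other facet normal of the plane -/
def Iso (P : Set E) (u v c : E) : Prop :=
  c ∈ BW P u v ∧ -c ∉ BW P u v ∧ ∃ w₀ ∈ BW P u v, -w₀ ∈ BW P u v ∧ 0 < ⟪rot u v w₀, c⟫ ∧
    {w | w ∈ BW P u v ∧ 0 < ⟪rot u v w₀, w⟫}.ncard = 2

/-- there are three different lines of the plane whose both unit vectors are facet normals -/
def ThreePairs (P : Set E) (u v : E) : Prop :=
  ∃ w : Fin 3 → E, (∀ i, w i ∈ BW P u v ∧ -w i ∈ BW P u v) ∧ ∀ i j, i ≠ j → w i ≠ w j ∧ w i ≠ -w j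

section frames

variable {u v : E}

theorem ON.uu (h : ON u v) : ⟪u, u⟫ = 1 := by rw [real_inner_self_eq_norm_sq, h.nu]; norm_num
theorem ON.vv (h : ON u v) : ⟪v, v⟫ = 1 := by rw [real_inner_self_eq_norm_sq, h.nv]; norm_num
theorem ON.vu (h : ON u v) : ⟪v, u⟫ = 0 := by rw [real_inner_comm]; exact h.uv

theorem inner_u_ww (h : ON u v) (t : ℝ) : ⟪u, ww u v t⟫ = Real.cos t := by
  unfold ww; rw [inner_add_right, inner_smul_right, inner_smul_right, h.uu, h.uv]; ring

theorem inner_v_ww (h : ON u v) (t : ℝ) : ⟪v, ww u v t⟫ = Real.sin t := by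
  unfold ww; rw [inner_add_right, inner_smul_right, inner_smul_right, h.vv, h.vu]; ring

theorem inner_u_ww' (h : ON u v) (t : ℝ) : ⟪u, ww' u v t⟫ = -Real.sin t := by
  unfold ww'; rw [inner_add_right, inner_smul_right, inner_smul_right, h.uu, h.uv]; ring

theorem inner_v_ww' (h : ON u v) (t : ℝ) : ⟪v, ww' u v t⟫ = Real.cos t := by
  unfold ww'; rw [inner_add_right, inner_smul_right, inner_smul_right, h.vv, h.vu]; ring

theorem inner_ww_ww (h : ON u v) (s t : ℝ) : ⟪ww u v s, ww u v t⟫ = Real.cos (t - s) := by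
  conv_lhs => rw [show ww u v s = Real.cos s • u + Real.sin s • v from rfl]
  rw [inner_add_left, inner_smul_left, inner_smul_left, inner_u_ww h, inner_v_ww h, Real.cos_sub]
  simp only [conj_trivial]; ring

theorem inner_ww'_ww (h : ON u v) (s t : ℝ) : ⟪ww' u v s, ww u v t⟫ = Real.sin (t - s) := by
  conv_lhs => rw [show ww' u v s = -Real.sin s • u + Real.cos s • v from rfl]
  rw [inner_add_left, inner_smul_left, inner_smul_left, inner_u_ww h, inner_v_ww h, Real.sin_sub]
  simp only [conj_trivial]; ring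

theorem inner_ww_ww' (h : ON u v) (s t : ℝ) : ⟪ww u v s, ww' u v t⟫ = -Real.sin (t - s) := by
  rw [real_inner_comm, inner_ww'_ww h, ← Real.sin_neg]; congr 1; ring

theorem inner_ww'_ww' (h : ON u v) (s t : ℝ) : ⟪ww' u v s, ww' u v t⟫ = Real.cos (t - s) := by
  conv_lhs => rw [show ww' u v s = -Real.sin s • u + Real.cos s • v from rfl]
  rw [inner_add_left, inner_smul_left, inner_smul_left, inner_u_ww' h, inner_v_ww' h, Real.cos_sub]
  simp only [conj_trivial]; ring

theorem ww_pi (t : ℝ) : ww u v (t + Real.pi) = -ww u v t := by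
  unfold ww; rw [Real.cos_add_pi, Real.sin_add_pi]; module

theorem ww'_pi (t : ℝ) : ww' u v (t + Real.pi) = -ww' u v t := by
  unfold ww'; rw [Real.cos_add_pi, Real.sin_add_pi]; module

theorem ww_int (t : ℝ) (k : ℤ) : ww u v (t + k * (2 * Real.pi)) = ww u v t := by
  unfold ww; rw [Real.cos_add_int_mul_two_pi, Real.sin_add_int_mul_two_pi]

theorem ww'_int (t : ℝ) (k : ℤ) : ww' u v (t + k * (2 * Real.pi)) = ww' u v t := by
  unfold ww'; rw [Real.cos_add_int_mul_two_pi, Real.sin_add_int_mul_two_pi]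

theorem ww_zero : ww u v 0 = u := by unfold ww; simp
theorem ww'_zero : ww' u v 0 = v := by unfold ww'; simp

theorem ww_mem (t : ℝ) : ww u v t ∈ Submodule.span ℝ {u, v} := Submodule.mem_span_pair.mpr ⟨_, _, rfl⟩
theorem ww'_mem (t : ℝ) : ww' u v t ∈ Submodule.span ℝ {u, v} := Submodule.mem_span_pair.mpr ⟨_, _, rfl⟩

theorem rot_ww (h : ON u v) (t : ℝ) : rot u v (ww u v t) = ww' u v t := by
  unfold rot; rw [inner_u_ww h, inner_v_ww h]; rfl

theorem rot_neg (x : E) : rot u v (-x) = -rot u v x := by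
  unfold rot; rw [inner_neg_right, inner_neg_right]; module

/-- the angle of a unit vector of the plane, in a given period -/
theorem exists_angle (h : ON u v) {w : E} (hw : ‖w‖ = 1) (hs : w ∈ Submodule.span ℝ {u, v}) (a : ℝ) :
    ∃ t ∈ Ico a (a + 2 * Real.pi), w = ww u v t := by
  obtain ⟨x, y, hxy⟩ := Submodule.mem_span_pair.mp hs
  have hn : x ^ 2 + y ^ 2 = 1 := by
    have : ⟪w, w⟫ = 1 := by rw [real_inner_self_eq_norm_sq, hw]; norm_num
    rw [← hxy, inner_add_left, inner_add_right, inner_add_right] at this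
    simp only [inner_smul_left, inner_smul_right, h.uu, h.vv, h.uv, h.vu, conj_trivial] at this
    nlinarith
  set z : ℂ := ⟨x, y⟩ with hz
  have hz1 : ‖z‖ = 1 := by
    rw [Complex.norm_def, Complex.normSq_apply]
    have : z.re * z.re + z.im * z.im = 1 := by simp only [hz]; nlinarith
    rw [this, Real.sqrt_one]
  have hz0 : z ≠ 0 := by intro hc; rw [hc] at hz1; simp at hz1
  have hcos : Real.cos z.arg = x := by rw [Complex.cos_arg hz0, hz1]; simp [hz]
  have hsin : Real.sin z.arg = y := by rw [Complex.sin_arg, hz1]; simp [hz]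
  have hww : w = ww u v z.arg := by unfold ww; rw [hcos, hsin, hxy]
  obtain ⟨k, hk⟩ : ∃ k : ℤ, z.arg + k * (2 * Real.pi) ∈ Ico a (a + 2 * Real.pi) := by
    obtain ⟨k, hk, -⟩ := existsUnique_add_zsmul_mem_Ico (Real.two_pi_pos) z.arg a
    exact ⟨k, by simpa [zsmul_eq_mul] using hk⟩
  exact ⟨_, hk, by rw [ww_int]; exact hww⟩

theorem rot_norm (h : ON u v) {w : E} (hw : ‖w‖ = 1) (hs : w ∈ Submodule.span ℝ {u, v}) :
    ‖rot u v w‖ = 1 ∧ ⟪w, rot u v w⟫ = 0 ∧ rot u v w ∈ Submodule.span ℝ {u, v} := by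
  obtain ⟨t, -, rfl⟩ := exists_angle h hw hs 0
  rw [rot_ww h]
  exact ⟨norm_ww' h.nu h.nv h.uv t, inner_ww h.nu h.nv h.uv t, ww'_mem t⟩

theorem ON.ww (h : ON u v) (t : ℝ) : ON (Pool.PT56.ww u v t) (ww' u v t) :=
  ⟨norm_ww h.nu h.nv h.uv t, norm_ww' h.nu h.nv h.uv t, inner_ww h.nu h.nv h.uv t⟩

theorem eq_of_ww_eq (h : ON u v) {s t : ℝ} (hst : ww u v s = ww u v t) (h1 : s < t + 2 * Real.pi)
    (h2 : t < s + 2 * Real.pi) : s = t := by
  have h3 := inner_ww_ww h s t
  rw [hst, real_inner_self_eq_norm_sq, norm_ww h.nu h.nv h.uv] at h3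
  have h4 : Real.cos (t - s) = 1 := by rw [← h3]; norm_num
  have h5 := (Real.cos_eq_one_iff_of_lt_of_lt (x := t - s) (by linarith) (by linarith)).mp h4
  linarith

theorem perp_ww (h : ON u v) (t : ℝ) : perp (ww u v t) (ww' u v t) = perp u v := by
  ext l
  rw [mem_perp, mem_perp]
  have e1 : ⟪ww u v t, l⟫ = Real.cos t * ⟪u, l⟫ + Real.sin t * ⟪v, l⟫ := by
    unfold ww; rw [inner_add_left, real_inner_smul_left, real_inner_smul_left]
  have e2 : ⟪ww' u v t, l⟫ = -Real.sin t * ⟪u, l⟫ + Real.cos t * ⟪v, l⟫ := by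
    unfold ww'; rw [inner_add_left, real_inner_smul_left, real_inner_smul_left]
  have hsc := Real.sin_sq_add_cos_sq t
  rw [e1, e2]
  constructor
  · rintro ⟨h1, h2⟩
    constructor
    · have : ⟪u, l⟫ = Real.cos t * (Real.cos t * ⟪u, l⟫ + Real.sin t * ⟪v, l⟫) -
        Real.sin t * (-Real.sin t * ⟪u, l⟫ + Real.cos t * ⟪v, l⟫) := by
        have : ⟪u, l⟫ = (Real.sin t ^ 2 + Real.cos t ^ 2) * ⟪u, l⟫ := by rw [hsc, one_mul]
        linear_combination this
      rw [this, h1, h2]; ring
    · have : ⟪v, l⟫ = Real.sin t * (Real.cos t * ⟪u, l⟫ + Real.sin t * ⟪v, l⟫) +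
        Real.cos t * (-Real.sin t * ⟪u, l⟫ + Real.cos t * ⟪v, l⟫) := by
        have : ⟪v, l⟫ = (Real.sin t ^ 2 + Real.cos t ^ 2) * ⟪v, l⟫ := by rw [hsc, one_mul]
        linear_combination this
      rw [this, h1, h2]; ring
  · rintro ⟨h1, h2⟩
    rw [h1, h2]
    constructor <;> ring

theorem mem_flat_iff {x y : E} : x ∈ flat u v y ↔ ⟪u, x - y⟫ = 0 ∧ ⟪v, x - y⟫ = 0 := by
  rw [flat, mem_ofPred_eq, mem_perp]

/-- recover the plane coordinates from a rotated frame -/
theorem plane_zero (h : ON u v) (t : ℝ) {z : E} :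
    (⟪ww u v t, z⟫ = 0 ∧ ⟪ww' u v t, z⟫ = 0) ↔ (⟪u, z⟫ = 0 ∧ ⟪v, z⟫ = 0) := by
  rw [← mem_perp, ← mem_perp, perp_ww h]

theorem gen_ww (h : ON u v) (t : ℝ) {T : Set E} {x : E} :
    Gen (ww u v t) (ww' u v t) T x ↔ Gen u v T x := by
  unfold Gen
  rw [perp_ww h]

theorem belt_ww (h : ON u v) (t : ℝ) (T : Set E) :
    beltRidges T (ww u v t) (ww' u v t) = beltRidges T u v := by
  have hsc := Real.sin_sq_add_cos_sq t
  ext x
  simp only [beltRidges, mem_ofPred_eq]
  constructor
  · rintro ⟨hx, p, q, hpq⟩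
    refine ⟨hx, p * Real.cos t - q * Real.sin t, p * Real.sin t + q * Real.cos t, fun y hy => ?_⟩
    have e : (p * Real.cos t - q * Real.sin t) • u + (p * Real.sin t + q * Real.cos t) • v =
        p • ww u v t + q • ww' u v t := by unfold ww ww'; module
    rw [e, ← plane_zero h t]
    exact hpq y hy
  · rintro ⟨hx, p, q, hpq⟩
    refine ⟨hx, p * Real.cos t + q * Real.sin t, -p * Real.sin t + q * Real.cos t, fun y hy => ?_⟩
    have e : (p * Real.cos t + q * Real.sin t) • ww u v t + (-p * Real.sin t + q * Real.cos t) • ww' u v t =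
        p • u + q • v := by
      have : (p * Real.cos t + q * Real.sin t) • ww u v t + (-p * Real.sin t + q * Real.cos t) • ww' u v t =
        (p * (Real.sin t ^ 2 + Real.cos t ^ 2)) • u + (q * (Real.sin t ^ 2 + Real.cos t ^ 2)) • v := by
        unfold ww ww'; module
      rw [this, hsc, mul_one, mul_one]
    rw [e, plane_zero h t]
    exact hpq y hy

theorem gen_mot {P : Set E} {t : E} {s : ℝ} (hs : s = 1 ∨ s = -1) {y : E} :
    Gen u v (mot t s '' P) (mot t s y) ↔ Gen u v P y := by
  have hss : s * s = 1 := by rcases hs with rfl | rfl <;> norm_num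
  have key : ∀ l : perp u v, mot t s y + (l : E) ∈ mot t s '' P ↔ y + ((s • l : perp u v) : E) ∈ P := by
    intro l
    constructor
    · rintro ⟨z, hz, hzz⟩
      have : z = y + ((s • l : perp u v) : E) := by
        have h1 : s • (t + s • z) = s • (t + s • y + (l : E)) := by
          show s • mot t s z = s • (mot t s y + (l : E)); rw [hzz]
        simp only [smul_add, smul_smul, hss, one_smul] at h1
        rw [Submodule.coe_smul]
        have h2 : s • t + z = s • t + (y + s • (l : E)) := by rw [h1]; abel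
        exact add_left_cancel h2
      rwa [← this]
    · intro h1
      refine ⟨_, h1, ?_⟩
      show t + s • (y + ((s • l : perp u v) : E)) = t + s • y + (l : E)
      rw [Submodule.coe_smul, smul_add, smul_smul, hss, one_smul]
      abel
  unfold Gen
  simp only [key]
  constructor
  · intro h
    have hc : Tendsto (fun l : perp u v => s • l) (𝓝 0) (𝓝 0) := by
      have : Continuous (fun l : perp u v => s • l) := continuous_const_smul s
      simpa using this.tendsto 0
    filter_upwards [hc.eventually h] with l hl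
    simpa [smul_smul, hss] using hl
  · intro h
    have hc : Tendsto (fun l : perp u v => s • l) (𝓝 0) (𝓝 0) := by
      have : Continuous (fun l : perp u v => s • l) := continuous_const_smul s
      simpa using this.tendsto 0
    exact hc.eventually h

end frames

theorem bw_finite {P : Set E} (hP : Polytope P) (u v : E) : (BW P u v).Finite := by
  obtain ⟨U, hU, -⟩ := hrepF hP
  exact U.finite_toSet.subset fun w hw => (hU w).mpr hw.1

end Pool.BS79
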