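import Mathlib
import Pool.Agent.H14Belt.Pointed

set_option autoImplicit false

/-!
# BS79/Loc: planar local tilings with many pointed tiles

`card_le`: as in the proof of `local_total` (H14Belt/Pointed): every tile is Lex(1,1), Lex(-1,-1), 'R' or 'L'
(`hit_cases`), and there is at most one 'R' and at most one 'L' tile (`unique_side`).
`loc_count`: from `card_le` and `local_total` (`k = 0`: no pointed tile; `k ≥ 2`: `#Pointed ≤ 2 + k ≤ 2k`; `k = 1`: at most
three tiles).
`exists_R`: some tile contains a point of the upper axis and a point with `y.1 < 0`: take a small `β > 0` with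
`(0, β)` in the interior of the union; the points `(0, β) + t (-1, 0)`, `t → 0+`, are frequently in one tile `K j`
(see the proof of `exists_opposite` in H14Belt/Planar), which is closed, so `(0, β) ∈ K j`.  `exists_L` symmetric.
`loc_one`: with three tiles, all pointed, `k = 1`.  `k ≥ 1`: `local_total`.  If `k ≥ 2`: no tile is both Lex(1,1) and
Lex(-1,-1) (interior), an R tile and an L tile are neither, so the R tile of `exists_R` and the L tile of `exists_L`
are both the only tile that is not Lex; it contains `(0, β)` and `(0, -β')`: not pointed.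
-/

open Set Filter Topology

namespace Pool.BS79

open Pool.Agent.H14Belt

open Classical in
theorem card_le {ι : Type*} {s : Finset ι} {K : ι → Set (ℝ × ℝ)} (h : LocalTiling s K) :
    s.card ≤ 2 + ((s.filter fun i => Lex 1 1 (K i)).card + (s.filter fun i => Lex (-1) (-1) (K i)).card) := by
  set R : ι → Prop := fun i => Has 1 (K i) ∧ ∃ y ∈ K i, (1 : ℝ) * y.1 < 0 with hR
  set L : ι → Prop := fun i => Has (-1) (K i) ∧ ∃ y ∈ K i, (-1 : ℝ) * y.1 < 0 with hL
  have hcR : (s.filter R).card ≤ 1 := by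
    rw [Finset.card_le_one]
    intro i hi j hj
    simp only [Finset.mem_filter] at hi hj
    exact unique_side h (Or.inl rfl) hi.1 hj.1 hi.2.1 hj.2.1 hi.2.2 hj.2.2
  have hcL : (s.filter L).card ≤ 1 := by
    rw [Finset.card_le_one]
    intro i hi j hj
    simp only [Finset.mem_filter] at hi hj
    exact unique_side h (Or.inr rfl) hi.1 hj.1 hi.2.1 hj.2.1 hi.2.2 hj.2.2
  have hsub : s ⊆
      (s.filter R ∪ s.filter L) ∪ ((s.filter fun i => Lex 1 1 (K i)) ∪ (s.filter fun i => Lex (-1) (-1) (K i))) := by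
    intro i hi
    simp only [Finset.mem_union, Finset.mem_filter]
    by_cases h1 : Lex 1 1 (K i)
    · exact Or.inr (Or.inl ⟨hi, h1⟩)
    by_cases h2 : Lex (-1) (-1) (K i)
    · exact Or.inr (Or.inr ⟨hi, h2⟩)
    rcases hit_cases (h.conv i hi) (h.int_ne i hi) h1 h2 with h3 | h3
    · exact Or.inl (Or.inl ⟨hi, h3⟩)
    · exact Or.inl (Or.inr ⟨hi, h3⟩)
  have hcard := (Finset.card_le_card hsub).trans (Finset.card_union_le _ _)
  have hcard2 := Finset.card_union_le (s.filter R) (s.filter L)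
  have hcard3 := Finset.card_union_le (s.filter fun i => Lex 1 1 (K i)) (s.filter fun i => Lex (-1) (-1) (K i))
  omega

theorem exists_side {ι : Type*} {s : Finset ι} {K : ι → Set (ℝ × ℝ)} (h : LocalTiling s K)
    {σ τ : ℝ} (hσ : σ = 1 ∨ σ = -1) (hτ : τ = 1 ∨ τ = -1) :
    ∃ i ∈ s, Has τ (K i) ∧ ∃ y ∈ K i, 0 < σ * y.1 := by
  classical
  have hτ2 : τ * τ = 1 := by rcases hτ with rfl | rfl <;> norm_num
  have hσ2 : σ * σ = 1 := by rcases hσ with rfl | rfl <;> norm_num
  have hnb : ∀ᶠ b : ℝ in 𝓝[>] 0, ((0 : ℝ), τ * b) ∈ interior (⋃ i ∈ s, K i) := by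
    have hc : ContinuousAt (fun b : ℝ => ((0 : ℝ), τ * b)) 0 := by
      apply Continuous.continuousAt; fun_prop
    have : ∀ᶠ b : ℝ in 𝓝 0, ((0 : ℝ), τ * b) ∈ interior (⋃ i ∈ s, K i) := by
      apply hc.eventually_mem
      simp only [mul_zero]
      exact interior_mem_nhds.2 h.cover
    exact this.filter_mono nhdsWithin_le_nhds
  obtain ⟨b, hb1, hb3⟩ := (hnb.and self_mem_nhdsWithin).exists
  replace hb3 : 0 < b := hb3
  set β := τ * b with hβdef
  have hτβ : τ * β = b := by rw [hβdef, ← mul_assoc, hτ2, one_mul]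
  have hev : ∀ᶠ t : ℝ in 𝓝[>] 0, ∃ j ∈ s, ((0 : ℝ), β) + t • ((σ, 0) : ℝ × ℝ) ∈ K j := by
    have hc : ContinuousAt (fun t : ℝ => ((0 : ℝ), β) + t • ((σ, 0) : ℝ × ℝ)) 0 := by
      apply Continuous.continuousAt; fun_prop
    have : ∀ᶠ t : ℝ in 𝓝 0, ((0 : ℝ), β) + t • ((σ, 0) : ℝ × ℝ) ∈ ⋃ i ∈ s, K i := by
      apply hc.eventually_mem
      simpa using mem_interior_iff_mem_nhds.1 hb1
    have := this.filter_mono (nhdsWithin_le_nhds (s := Ioi 0))
    filter_upwards [this] with t ht
    simpa using ht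
  have hfr : ∃ j ∈ s, ∃ᶠ t : ℝ in 𝓝[>] 0, ((0 : ℝ), β) + t • ((σ, 0) : ℝ × ℝ) ∈ K j := by
    by_contra hcon
    push Not at hcon
    have : ∀ᶠ t : ℝ in 𝓝[>] 0, ∀ j ∈ s, ((0 : ℝ), β) + t • ((σ, 0) : ℝ × ℝ) ∉ K j := by
      rw [Finset.eventually_all]
      intro j hj
      exact hcon j hj
    obtain ⟨t, ht1, ht2⟩ := (hev.and this).exists
    obtain ⟨j, hj, hjt⟩ := ht1
    exact ht2 j hj hjt
  obtain ⟨j, hj, hjfr⟩ := hfr
  have hmem : ((0 : ℝ), β) ∈ K j := by
    have hlim : Tendsto (fun t : ℝ => ((0 : ℝ), β) + t • ((σ, 0) : ℝ × ℝ)) (𝓝[>] 0) (𝓝 ((0 : ℝ), β)) := by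
      have hc : ContinuousAt (fun t : ℝ => ((0 : ℝ), β) + t • ((σ, 0) : ℝ × ℝ)) 0 := by
        apply Continuous.continuousAt; fun_prop
      have := hc.tendsto
      simp only [zero_smul, add_zero] at this
      exact this.mono_left nhdsWithin_le_nhds
    exact (h.closed j hj).mem_of_frequently_of_tendsto hjfr hlim
  refine ⟨j, hj, ⟨_, hmem, rfl, by simp only; rw [hτβ]; exact hb3⟩, ?_⟩
  obtain ⟨t, ht1, ht2⟩ := (hjfr.and_eventually self_mem_nhdsWithin).exists
  replace ht2 : 0 < t := ht2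
  refine ⟨_, ht1, ?_⟩
  simp only [Prod.fst_add, Prod.smul_fst, smul_eq_mul, zero_add]
  have h3 : σ * (t * σ) = t * (σ * σ) := by ring
  rw [h3, hσ2]
  linarith

theorem exists_R {ι : Type*} {s : Finset ι} {K : ι → Set (ℝ × ℝ)} (h : LocalTiling s K) :
    ∃ i ∈ s, Has 1 (K i) ∧ ∃ y ∈ K i, y.1 < 0 := by
  obtain ⟨i, hi, h1, y, hy, h2⟩ := exists_side h (σ := -1) (τ := 1) (Or.inr rfl) (Or.inl rfl)
  exact ⟨i, hi, h1, y, hy, by linarith⟩

theorem exists_L {ι : Type*} {s : Finset ι} {K : ι → Set (ℝ × ℝ)} (h : LocalTiling s K) :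
    ∃ i ∈ s, Has (-1) (K i) ∧ ∃ y ∈ K i, 0 < y.1 := by
  obtain ⟨i, hi, h1, y, hy, h2⟩ := exists_side h (σ := 1) (τ := -1) (Or.inl rfl) (Or.inr rfl)
  exact ⟨i, hi, h1, y, hy, by linarith⟩

theorem not_both {K : Set (ℝ × ℝ)} (hint : (interior K).Nonempty) (h1 : Lex 1 1 K)
    (h2 : Lex (-1) (-1) K) : False := by
  have hz : ∀ y ∈ K, y.1 = 0 := by
    intro y hy
    rcases h1 y hy with h3 | h3
    · rcases h2 y hy with h4 | h4
      · linarith
      · exact h4.1
    · exact h3.1
  obtain ⟨z, hz'⟩ := hint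
  have hb : Below 1 K := fun y hy => by rw [hz y hy]; norm_num
  have := interior_side_of_below (σ := 1) one_ne_zero hb hz'
  rw [hz z (interior_subset hz')] at this
  norm_num at this

open Classical in
theorem loc_one {ι : Type*} {s : Finset ι} {K : ι → Set (ℝ × ℝ)} (h : LocalTiling s K) (h3 : s.card = 3)
    (hp : ∀ i ∈ s, Pointed (K i)) :
    (s.filter fun i => Lex 1 1 (K i)).card + (s.filter fun i => Lex (-1) (-1) (K i)).card = 1 := by
  have ht := local_total h
  have hall : (s.filter fun i => Pointed (K i)) = s := Finset.filter_true_of_mem hp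
  rw [hall, h3] at ht
  by_contra hcon
  have hdis : Disjoint (s.filter fun i => Lex 1 1 (K i)) (s.filter fun i => Lex (-1) (-1) (K i)) := by
    rw [Finset.disjoint_left]
    intro i hi hi'
    simp only [Finset.mem_filter] at hi hi'
    exact not_both (h.int_ne i hi.1) hi.2 hi'.2
  set A := (s.filter fun i => Lex 1 1 (K i)) ∪ (s.filter fun i => Lex (-1) (-1) (K i)) with hA
  have hAc : A.card = (s.filter fun i => Lex 1 1 (K i)).card + (s.filter fun i => Lex (-1) (-1) (K i)).card :=
    Finset.card_union_of_disjoint hdis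
  have hAs : A ⊆ s := Finset.union_subset (Finset.filter_subset _ _) (Finset.filter_subset _ _)
  have hsd : (s \ A).card ≤ 1 := by
    rw [Finset.card_sdiff_of_subset hAs, hAc, h3]
    omega
  rw [Finset.card_le_one] at hsd
  obtain ⟨i, hi, hi1, y, hy, hy1⟩ := exists_R h
  obtain ⟨j, hj, hj1, z, hz, hz1⟩ := exists_L h
  obtain ⟨p, hpK, hp0, hp1⟩ := hi1
  obtain ⟨q, hqK, hq0, hq1⟩ := hj1
  have hiA : i ∈ s \ A := by
    rw [Finset.mem_sdiff]
    refine ⟨hi, fun hc => ?_⟩
    rw [hA, Finset.mem_union, Finset.mem_filter, Finset.mem_filter] at hc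
    rcases hc with hc | hc
    · rcases hc.2 p hpK with h4 | h4
      · rw [hp0] at h4; norm_num at h4
      · linarith [h4.2]
    · rcases hc.2 y hy with h4 | h4
      · linarith
      · linarith [h4.1]
  have hjA : j ∈ s \ A := by
    rw [Finset.mem_sdiff]
    refine ⟨hj, fun hc => ?_⟩
    rw [hA, Finset.mem_union, Finset.mem_filter, Finset.mem_filter] at hc
    rcases hc with hc | hc
    · rcases hc.2 z hz with h4 | h4
      · linarith
      · linarith [h4.1]
    · rcases hc.2 q hqK with h4 | h4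
      · rw [hq0] at h4; norm_num at h4
      · linarith [h4.2]
  have hij := hsd i hiA j hjA
  subst hij
  obtain ⟨w, hw⟩ := hp i hi
  have hp' : p ≠ 0 := by rintro rfl; simp at hp1
  have hq' : q ≠ 0 := by rintro rfl; simp at hq1
  have e1 := hw p hpK hp'
  have e2 := hw q hqK hq'
  rw [hp0] at e1
  rw [hq0] at e2
  have hp2 : 0 < p.2 := by linarith
  have hq2 : q.2 < 0 := by linarith
  nlinarith [mul_pos hp2 (neg_pos.mpr hq2)]

open Classical in
theorem loc_count {ι : Type*} {s : Finset ι} {K : ι → Set (ℝ × ℝ)} (h : LocalTiling s K) :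
    (s.filter fun i => Pointed (K i)).card ≤
      2 * ((s.filter fun i => Lex 1 1 (K i)).card + (s.filter fun i => Lex (-1) (-1) (K i)).card) ∨
    (s.card = 3 ∧ ∀ i ∈ s, Pointed (K i)) := by
  have h1 := local_total h
  have h2 := card_le h
  have h4 : (s.filter fun i => Pointed (K i)).card ≤ s.card := Finset.card_filter_le _ _
  by_cases hc : (s.filter fun i => Pointed (K i)).card ≤
      2 * ((s.filter fun i => Lex 1 1 (K i)).card + (s.filter fun i => Lex (-1) (-1) (K i)).card)
  · exact Or.inl hc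
  · right
    have h5 : s.card = 3 := by omega
    refine ⟨h5, ?_⟩
    have h6 : (s.filter fun i => Pointed (K i)).card = s.card := by omega
    have h7 := Finset.eq_of_subset_of_card_le (Finset.filter_subset (fun i => Pointed (K i)) s) h6.ge
    intro i hi
    rw [← h7, Finset.mem_filter] at hi
    exact hi.2

end Pool.BS79
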