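import Pool.Agent.BS79.Germ
import Pool.Agent.BS79.Loc

set_option autoImplicit false
set_option linter.unusedSectionVars false

/-!
# BS79/CfgA: three pointed tiles at a generic point: the angles

Notation `T i = mot (t i) (s i) '' P`, `x` generic for all tiles at `x`, exactly three tiles at `x`, all with
`x ∈ beltRidges (T i) u v`.  Index the three tiles by `Fin 3` (`Finset.equivFinOfCardEq`).
`x = mot (t i) (s i) y`, `y ∈ P`, `Gen u v P y` (`gen_mot`), `y ∈ beltRidges P u v` (`H14Belt.beltRidges_mot`, `mot` is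
injective: `H14Belt.mot_isometry`).  `germ` gives `p i`, `q i`.
For every `θ`, in the frame `ww θ, ww' θ` (`ON.ww`, `gen_ww`, `belt_ww`): `H14Belt.localTiling`,
`H14Belt.card_filter_ridge`, `H14Belt.beltRidges_iff_pointed` and `loc_one` give
`#{i ∈ I | x ∈ ridge (T i) (ww θ) (ww' θ)} + #{i ∈ I | x ∈ ridge (T i) (-ww θ) (-ww' θ)} = 1`.
By `H14Belt.ridge_mot`: `x ∈ ridge (T i) (ww θ) (ww' θ)` iff `y ∈ ridge P (s i • ww θ) (s i • ww' θ)`, i.e. (`ww_pi`,
`ww'_pi`) `y ∈ ridge P (ww θ') (ww' θ')` with `θ' = θ` or `θ + π`; and this holds iff `θ' ∈ Ico (p + 2πm) (q + 2πm)` for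
some integer `m` (`germ`, `ww_int`, `ww'_int`; choose `m` with `θ' - 2πm ∈ Ico p (p + 2π)`).
So `θ ∈ Ico (p i + kπ) (q i + kπ)` for some `k` iff `x` is in one of the two ridges of `T i`, the parity of `k` and `s i`
decide in which one; existence and uniqueness follow (for the same `i`: `|k - l| π < q i - p i < π`).
-/

namespace Pool.BS79

open Set Filter Topology MeasureTheory
open scoped RealInnerProductSpace ENNReal
open Pool.PT56
open Pool.Agent.H14Belt (beltRidges Gen flat mot)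

variable {E : Type} [NormedAddCommGroup E] [InnerProductSpace ℝ E] [FiniteDimensional ℝ E]
  [MeasurableSpace E] [BorelSpace E]

/-- at a generic belt point the ridge condition is periodic in the angle -/
private theorem ridge_iff {P : Set E} {u v : E} {y : E} {p q : ℝ}
    (h1 : ∀ t ∈ Ico p q, y ∈ ridge P (ww u v t) (ww' u v t))
    (h2 : ∀ t ∈ Ico q (p + 2 * Real.pi), y ∉ ridge P (ww u v t) (ww' u v t)) (θ : ℝ) :
    y ∈ ridge P (ww u v θ) (ww' u v θ) ↔
      ∃ m : ℤ, θ ∈ Ico (p + m * (2 * Real.pi)) (q + m * (2 * Real.pi)) := by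
  constructor
  · intro h
    obtain ⟨m, hm, -⟩ := existsUnique_add_zsmul_mem_Ico (Real.two_pi_pos) θ p
    simp only [zsmul_eq_mul] at hm
    have h3 : θ + m * (2 * Real.pi) < q := by
      by_contra hc
      push Not at hc
      refine h2 _ ⟨hc, hm.2⟩ ?_
      rw [ww_int, ww'_int]
      exact h
    refine ⟨-m, ?_, ?_⟩
    · push_cast
      linarith [hm.1]
    · push_cast
      linarith
  · rintro ⟨m, hm⟩
    have h3 := h1 (θ - m * (2 * Real.pi)) ⟨by linarith [hm.1], by linarith [hm.2]⟩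
    have e : θ = (θ - m * (2 * Real.pi)) + m * (2 * Real.pi) := by ring
    rw [e, ww_int, ww'_int]
    exact h3

private theorem ridge_or_iff {P : Set E} {u v : E} {y : E} {p q : ℝ}
    (h1 : ∀ t ∈ Ico p q, y ∈ ridge P (ww u v t) (ww' u v t))
    (h2 : ∀ t ∈ Ico q (p + 2 * Real.pi), y ∉ ridge P (ww u v t) (ww' u v t)) (θ : ℝ) :
    (y ∈ ridge P (ww u v θ) (ww' u v θ) ∨ y ∈ ridge P (-ww u v θ) (-ww' u v θ)) ↔
      ∃ k : ℤ, θ ∈ Ico (p + k * Real.pi) (q + k * Real.pi) := by
  rw [← ww_pi, ← ww'_pi, ridge_iff h1 h2, ridge_iff h1 h2]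
  constructor
  · rintro (⟨m, hm⟩ | ⟨m, hm⟩)
    · refine ⟨2 * m, ?_, ?_⟩
      · push_cast; linarith [hm.1]
      · push_cast; linarith [hm.2]
    · refine ⟨2 * m - 1, ?_, ?_⟩
      · push_cast; linarith [hm.1]
      · push_cast; linarith [hm.2]
  · rintro ⟨k, hk⟩
    rcases Int.even_or_odd' k with ⟨m, rfl | rfl⟩
    · left
      refine ⟨m, ?_, ?_⟩
      · have := hk.1; push_cast at this; linarith
      · have := hk.2; push_cast at this; linarith
    · right
      refine ⟨m + 1, ?_, ?_⟩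
      · have := hk.1; push_cast at this ⊢; linarith
      · have := hk.2; push_cast at this ⊢; linarith

private theorem mot_tile {P : Set E} (hP : Polytope P) (t : E) {s : ℝ} (hs : s = 1 ∨ s = -1) :
    Convex ℝ (mot t s '' P) ∧ IsClosed (mot t s '' P) ∧ (interior (mot t s '' P)).Nonempty := by
  have hc : IsCompact P := hP.compact
  obtain ⟨⟨S, hS, hPS⟩, hint⟩ := hP
  have hconv : Convex ℝ P := by rw [hPS]; exact convex_convexHull ℝ S
  refine ⟨?_, (hc.image (Pool.Agent.H14Belt.mot_isometry t hs).continuous).isClosed, ?_⟩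
  · rintro _ ⟨x, hx, rfl⟩ _ ⟨y, hy, rfl⟩ a b ha hb hab
    refine ⟨a • x + b • y, hconv hx hy ha hb hab, ?_⟩
    simp only [mot]
    have : t = (a + b) • t := by rw [hab, one_smul]
    conv_lhs => rw [this]
    module
  · have hs0 : s ≠ 0 := by rcases hs with rfl | rfl <;> norm_num
    obtain ⟨x, hx⟩ := hint
    have hopen : IsOpenMap (mot t s) := by
      have h1 : IsOpenMap (fun x : E => s • x) := isOpenMap_smul₀ hs0
      have h2 : IsOpenMap (fun x : E => t + x) := isOpenMap_add_left t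
      exact h2.comp h1
    exact ⟨mot t s x, hopen.image_interior_subset _ ⟨x, hx, rfl⟩⟩

/-- the ridges of the tile and the ridges of `P` -/
private theorem mot_ridge {P : Set E} {t : E} {s : ℝ} (hs : s = 1 ∨ s = -1) {y a b : E} :
    mot t s y ∈ ridge (mot t s '' P) a b ↔ y ∈ ridge P (s • a) (s • b) := by
  rw [Pool.Agent.H14Belt.ridge_mot]
  exact (Pool.Agent.H14Belt.mot_isometry t hs).injective.mem_set_image

/-- one tile: existence of the angles -/
private theorem tile_angles {P : Set E} (hP : Polytope P) {u v : E} (h : ON u v) {t : E} {s : ℝ}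
    (hs : s = 1 ∨ s = -1) {x : E} (hgen : Gen u v (mot t s '' P) x)
    (hb : x ∈ beltRidges (mot t s '' P) u v) : ∃ p q : ℝ, p < q ∧ q < p + Real.pi ∧
      Facet P (ww u v p) ∧ Facet P (ww u v q) ∧ (∀ a ∈ Ioo p q, ¬ Facet P (ww u v a)) ∧
      x ∈ mot t s '' ridge P (ww u v p) (ww' u v p) ∧
      ∀ θ, (x ∈ ridge (mot t s '' P) (ww u v θ) (ww' u v θ) ∨
        x ∈ ridge (mot t s '' P) (-ww u v θ) (-ww' u v θ)) ↔
          ∃ k : ℤ, θ ∈ Ico (p + k * Real.pi) (q + k * Real.pi) := by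
  have hb' := hb
  rw [Pool.Agent.H14Belt.beltRidges_mot P t hs] at hb'
  obtain ⟨y, hyb, rfl⟩ := hb'
  have hy : Gen u v P y := (gen_mot hs).mp hgen
  obtain ⟨p, q, hpq, hqp, hp, hq, hno, h1, h2⟩ := germ hP h hy hyb
  refine ⟨p, q, hpq, hqp, hp, hq, hno, ⟨y, h1 p ⟨le_refl _, hpq⟩, rfl⟩, fun θ => ?_⟩
  rw [mot_ridge hs, mot_ridge hs, ← ridge_or_iff h1 h2 θ]
  rcases hs with rfl | rfl
  · simp only [one_smul]
  · simp only [neg_smul, one_smul, neg_neg]
    exact or_comm

open Classical in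
/-- the count at a generic point with exactly three tiles, all pointed -/
private theorem count_one {P : Set E} (hP : Polytope P) {u v : E} (h : ON u v) {ι : Type} {t : ι → E} {s : ι → ℝ}
    (hs : ∀ i, s i = 1 ∨ s i = -1)
    (hdis : ∀ i j, i ≠ j → Disjoint (interior (mot (t i) (s i) '' P)) (interior (mot (t j) (s j) '' P)))
    {I : Finset ι} {x : E} (hcov : (⋃ i ∈ I, mot (t i) (s i) '' P) ∈ 𝓝 x)
    (hgen : ∀ i ∈ I, x ∈ mot (t i) (s i) '' P → Gen u v (mot (t i) (s i) '' P) x)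
    (h3 : (I.filter fun i => x ∈ mot (t i) (s i) '' P).card = 3)
    (hall : ∀ i ∈ I, x ∈ mot (t i) (s i) '' P → x ∈ beltRidges (mot (t i) (s i) '' P) u v) (θ : ℝ) :
    (I.filter fun i => x ∈ ridge (mot (t i) (s i) '' P) (ww u v θ) (ww' u v θ)).card +
      (I.filter fun i => x ∈ ridge (mot (t i) (s i) '' P) (-ww u v θ) (-ww' u v θ)).card = 1 := by
  have hθ := h.ww θ
  have hgen' : ∀ i ∈ I, x ∈ mot (t i) (s i) '' P →
      Gen (ww u v θ) (ww' u v θ) (mot (t i) (s i) '' P) x := fun i hi hx => (gen_ww h θ).mpr (hgen i hi hx)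
  have hconv : ∀ i, Convex ℝ (mot (t i) (s i) '' P) := fun i => (mot_tile hP (t i) (hs i)).1
  have hloc := Pool.Agent.H14Belt.localTiling hθ.nu hθ.nv hθ.uv (T := fun i => mot (t i) (s i) '' P)
    hconv (fun i => (mot_tile hP (t i) (hs i)).2.1) (fun i => (mot_tile hP (t i) (hs i)).2.2) hdis hcov hgen'
  have hone := loc_one hloc h3 (by
    intro i hi
    simp only [Finset.mem_filter] at hi
    refine (Pool.Agent.H14Belt.beltRidges_iff_pointed hθ.nu hθ.nv hθ.uv (hconv i) (hgen' i hi.1 hi.2)).mp ?_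
    rw [belt_ww h]
    exact hall i hi.1 hi.2)
  rw [← Pool.Agent.H14Belt.card_filter_ridge hθ.nu hθ.nv hθ.uv hconv hgen' (Or.inl rfl),
    ← Pool.Agent.H14Belt.card_filter_ridge hθ.nu hθ.nv hθ.uv hconv hgen' (Or.inr rfl)] at hone
  simpa only [one_smul, neg_smul] using hone

open Classical in
theorem cfg_angles {P : Set E} (hP : Polytope P) {u v : E} (h : ON u v) {ι : Type} {t : ι → E} {s : ι → ℝ}
    (hs : ∀ i, s i = 1 ∨ s i = -1)
    (hdis : ∀ i j, i ≠ j → Disjoint (interior (mot (t i) (s i) '' P)) (interior (mot (t j) (s j) '' P)))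
    {I : Finset ι} {x : E} (hcov : (⋃ i ∈ I, mot (t i) (s i) '' P) ∈ 𝓝 x)
    (hgen : ∀ i ∈ I, x ∈ mot (t i) (s i) '' P → Gen u v (mot (t i) (s i) '' P) x)
    (h3 : (I.filter fun i => x ∈ mot (t i) (s i) '' P).card = 3)
    (hall : ∀ i ∈ I, x ∈ mot (t i) (s i) '' P → x ∈ beltRidges (mot (t i) (s i) '' P) u v) :
    ∃ p q : Fin 3 → ℝ, (∀ i, Facet P (ww u v (p i))) ∧ (∀ i, Facet P (ww u v (q i))) ∧
      (∀ i, p i < q i) ∧ (∀ i, q i < p i + Real.pi) ∧ (∀ i, ∀ a ∈ Ioo (p i) (q i), ¬ Facet P (ww u v a)) ∧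
      (∀ a : ℝ, ∃ (i : Fin 3) (k : ℤ), a ∈ Ico (p i + k * Real.pi) (q i + k * Real.pi)) ∧
      (∀ (a : ℝ) (i j : Fin 3) (k l : ℤ), a ∈ Ico (p i + k * Real.pi) (q i + k * Real.pi) →
        a ∈ Ico (p j + l * Real.pi) (q j + l * Real.pi) → i = j ∧ k = l) ∧
      ∀ i, ∃ j ∈ I, x ∈ mot (t j) (s j) '' ridge P (ww u v (p i)) (ww' u v (p i)) := by
  classical
  have hpi := Real.pi_pos
  set J := I.filter fun i => x ∈ mot (t i) (s i) '' P with hJ
  have hJm : ∀ i ∈ J, i ∈ I ∧ x ∈ mot (t i) (s i) '' P := by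
    intro i hi
    rw [hJ, Finset.mem_filter] at hi
    exact hi
  have hex : ∀ i : J, ∃ p q : ℝ, p < q ∧ q < p + Real.pi ∧
      Facet P (ww u v p) ∧ Facet P (ww u v q) ∧ (∀ a ∈ Ioo p q, ¬ Facet P (ww u v a)) ∧
      x ∈ mot (t i) (s i) '' ridge P (ww u v p) (ww' u v p) ∧
      ∀ θ, (x ∈ ridge (mot (t i) (s i) '' P) (ww u v θ) (ww' u v θ) ∨
        x ∈ ridge (mot (t i) (s i) '' P) (-ww u v θ) (-ww' u v θ)) ↔
          ∃ k : ℤ, θ ∈ Ico (p + k * Real.pi) (q + k * Real.pi) := by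
    rintro ⟨i, hi⟩
    obtain ⟨hiI, hix⟩ := hJm i hi
    exact tile_angles hP h (hs i) (hgen i hiI hix) (hall i hiI hix)
  choose p q hpq hqp hp hq hno hmem hiff using hex
  let e : J ≃ Fin 3 := Finset.equivFinOfCardEq h3
  refine ⟨fun i => p (e.symm i), fun i => q (e.symm i), fun i => hp _, fun i => hq _, fun i => hpq _,
    fun i => hqp _, fun i => hno _, ?_, ?_, ?_⟩
  · intro a
    have hc := count_one hP h hs hdis hcov hgen h3 hall a
    have hne : ∃ i ∈ I, x ∈ ridge (mot (t i) (s i) '' P) (ww u v a) (ww' u v a) ∨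
        x ∈ ridge (mot (t i) (s i) '' P) (-ww u v a) (-ww' u v a) := by
      by_contra hcon
      push Not at hcon
      have e1 : (I.filter fun i => x ∈ ridge (mot (t i) (s i) '' P) (ww u v a) (ww' u v a)).card = 0 := by
        rw [Finset.card_eq_zero, Finset.filter_eq_empty_iff]
        intro i hi
        exact (hcon i hi).1
      have e2 : (I.filter fun i => x ∈ ridge (mot (t i) (s i) '' P) (-ww u v a) (-ww' u v a)).card = 0 := by
        rw [Finset.card_eq_zero, Finset.filter_eq_empty_iff]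
        intro i hi
        exact (hcon i hi).2
      omega
    obtain ⟨i, hi, hix⟩ := hne
    have hiJ : i ∈ J := by
      rw [hJ, Finset.mem_filter]
      refine ⟨hi, ?_⟩
      rcases hix with h4 | h4
      · exact Pool.Agent.H14Belt.ridge_subset _ _ _ h4
      · exact Pool.Agent.H14Belt.ridge_subset _ _ _ h4
    obtain ⟨k, hk⟩ := (hiff ⟨i, hiJ⟩ a).mp hix
    refine ⟨e ⟨i, hiJ⟩, k, ?_⟩
    simp only [Equiv.symm_apply_apply]
    exact hk
  · intro a i j k l hi hj
    have hij : i = j := by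
      have hc := count_one hP h hs hdis hcov hgen h3 hall a
      have h4 := (hiff (e.symm i) a).mpr ⟨k, hi⟩
      have h5 := (hiff (e.symm j) a).mpr ⟨l, hj⟩
      set A := I.filter fun i => x ∈ ridge (mot (t i) (s i) '' P) (ww u v a) (ww' u v a) with hA
      set B := I.filter fun i => x ∈ ridge (mot (t i) (s i) '' P) (-ww u v a) (-ww' u v a) with hB
      have hAB : (A ∪ B).card ≤ 1 := by
        have := Finset.card_union_le A B
        omega
      have m1 : ((e.symm i : J) : ι) ∈ A ∪ B := by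
        rw [Finset.mem_union, hA, hB, Finset.mem_filter, Finset.mem_filter]
        have := (hJm _ (e.symm i).2).1
        rcases h4 with h6 | h6
        · exact Or.inl ⟨this, h6⟩
        · exact Or.inr ⟨this, h6⟩
      have m2 : ((e.symm j : J) : ι) ∈ A ∪ B := by
        rw [Finset.mem_union, hA, hB, Finset.mem_filter, Finset.mem_filter]
        have := (hJm _ (e.symm j).2).1
        rcases h5 with h6 | h6
        · exact Or.inl ⟨this, h6⟩
        · exact Or.inr ⟨this, h6⟩
      have h7 := (Finset.card_le_one.mp hAB) _ m1 _ m2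
      exact e.symm.injective (Subtype.ext h7)
    subst hij
    refine ⟨rfl, ?_⟩
    have h6 := hqp (e.symm i)
    have h7 : (k : ℝ) - l < 1 := by
      have : ((k : ℝ) - l) * Real.pi < 1 * Real.pi := by linarith [hi.1, hj.2]
      exact lt_of_mul_lt_mul_right this hpi.le
    have h8 : (l : ℝ) - k < 1 := by
      have : ((l : ℝ) - k) * Real.pi < 1 * Real.pi := by linarith [hi.2, hj.1]
      exact lt_of_mul_lt_mul_right this hpi.le
    have h9 : k - l < 1 := by exact_mod_cast h7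
    have h10 : l - k < 1 := by exact_mod_cast h8
    omega
  · intro i
    exact ⟨(e.symm i : J), (hJm _ (e.symm i).2).1, hmem _⟩

end Pool.BS79
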