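import Mathlib

set_option autoImplicit false

/-!
# BS79/Comb: three intervals that tile the line modulo π

`A` = the angles of the facet normals (period 2π).  Three intervals `[p i, q i)` with end points in `A`, without points
of `A` inside, such that the translates by multiples of π tile the line.
Proof.  Choose `k i` with `P i = p i + k i π ∈ [p 0, p 0 + π)`; (`k 0 = 0`).  The `P i` are different (uniqueness).  Let `P`
be sorted `P 0 < P j < P l < P 0 + π`.  The end of the interval at `P 0` is `P j` (the point `P j` is covered by only one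
interval; the point `q 0` is covered by an interval which must begin there, otherwise a point slightly to the left
is covered twice), etc.: `Q 0 = P j`, `Q j = P l`, `Q l = P 0 + π`.  Parities `(0, k j, k l)`:
even-even: `P 0, P j, P l, P 0 + π ∈ A` and `A` has no other points between (structure with `t₀ = P 0`);
even-odd: the third interval is `[P l - π, P 0)` mod 2π: structure with `t₀ = P l - π` (points `P 0, P j`);
odd-odd: intervals `[P j - π, P l - π), [P l - π, P 0), [P 0, P j)`: structure with `t₀ = P j - π` (points `P l - π, P 0`);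
odd-even: `P 0, P j, P l` and `P 0 + π, P j + π, P l + π` are all in `A`: three pairs.
-/

namespace Pool.BS79

open Set

theorem comb_int {x c : ℝ} {m n : ℤ} (hm : c ≤ x + m * Real.pi) (hm' : x + m * Real.pi < c + Real.pi)
    (hn : c ≤ x + n * Real.pi) (hn' : x + n * Real.pi < c + Real.pi) : m = n := by
  have hpos := Real.pi_pos
  rcases lt_trichotomy m n with h | h | h
  · have h1 : (m : ℝ) + 1 ≤ n := by exact_mod_cast h
    nlinarith
  · exact h
  · have h1 : (n : ℝ) + 1 ≤ m := by exact_mod_cast h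
    nlinarith

/-- Every end point is a starting point. -/
theorem comb_end (p q : Fin 3 → ℝ) (hlt : ∀ i, p i < q i)
    (hex : ∀ t : ℝ, ∃ (i : Fin 3) (k : ℤ), t ∈ Ico (p i + k * Real.pi) (q i + k * Real.pi))
    (huniq : ∀ (t : ℝ) (i j : Fin 3) (k l : ℤ), t ∈ Ico (p i + k * Real.pi) (q i + k * Real.pi) →
      t ∈ Ico (p j + l * Real.pi) (q j + l * Real.pi) → i = j ∧ k = l) (i : Fin 3) (k : ℤ) :
    ∃ (i' : Fin 3) (k' : ℤ), p i' + k' * Real.pi = q i + k * Real.pi := by
  obtain ⟨i', k', h1, h2⟩ := hex (q i + k * Real.pi)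
  refine ⟨i', k', ?_⟩
  by_contra hne
  have h3 : p i' + k' * Real.pi < q i + k * Real.pi := lt_of_le_of_ne h1 hne
  have h4 : p i + k * Real.pi < q i + k * Real.pi := by
    have := hlt i
    linarith
  obtain ⟨rfl, rfl⟩ := huniq (max (p i' + k' * Real.pi) (p i + k * Real.pi)) i' i k' k
    ⟨le_max_left _ _, max_lt (lt_trans h3 h2) (lt_trans h4 h2)⟩
    ⟨le_max_right _ _, max_lt h3 h4⟩
  exact lt_irrefl _ h2

/-- The case of a known order of the starting points. -/
theorem comb_core (A : Set ℝ) (hper : ∀ (t : ℝ) (k : ℤ), t + k * (2 * Real.pi) ∈ A ↔ t ∈ A)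
    (p q : Fin 3 → ℝ)
    (hp : ∀ i, p i ∈ A) (hq : ∀ i, q i ∈ A) (hlt : ∀ i, p i < q i) (hpi : ∀ i, q i < p i + Real.pi)
    (hno : ∀ i, ∀ t ∈ Ioo (p i) (q i), t ∉ A)
    (hex : ∀ t : ℝ, ∃ (i : Fin 3) (k : ℤ), t ∈ Ico (p i + k * Real.pi) (q i + k * Real.pi))
    (huniq : ∀ (t : ℝ) (i j : Fin 3) (k l : ℤ), t ∈ Ico (p i + k * Real.pi) (q i + k * Real.pi) →
      t ∈ Ico (p j + l * Real.pi) (q j + l * Real.pi) → i = j ∧ k = l)
    (j l : Fin 3) (hj0 : j ≠ 0) (hl0 : l ≠ 0) (hjl : j ≠ l) (hall : ∀ i, i = 0 ∨ i = j ∨ i = l)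
    (kj kl : ℤ) (h1 : p 0 < p j + kj * Real.pi) (h2 : p j + kj * Real.pi < p l + kl * Real.pi)
    (h3 : p l + kl * Real.pi < p 0 + Real.pi) :
    (∃ a b c : ℝ, a < b ∧ b < c ∧ c < a + Real.pi ∧ a ∈ A ∧ b ∈ A ∧ c ∈ A ∧ a + Real.pi ∈ A ∧
      b + Real.pi ∈ A ∧ c + Real.pi ∈ A) ∨
    ∃ (t₀ : ℝ) (i j : Fin 3) (k l : ℤ), t₀ ∈ A ∧ t₀ + Real.pi ∈ A ∧ t₀ < p i + k * (2 * Real.pi) ∧
      p i + k * (2 * Real.pi) < p j + l * (2 * Real.pi) ∧ p j + l * (2 * Real.pi) < t₀ + Real.pi ∧
      ∀ t ∈ Ioo t₀ (t₀ + Real.pi), t ∈ A → t = p i + k * (2 * Real.pi) ∨ t = p j + l * (2 * Real.pi) := by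
  have hpos := Real.pi_pos
  -- the starting points in `[p 0, p 0 + π)`
  have hst : ∀ (i : Fin 3) (k : ℤ), p 0 ≤ p i + k * Real.pi → p i + k * Real.pi < p 0 + Real.pi →
      p i + k * Real.pi = p 0 ∨ p i + k * Real.pi = p j + kj * Real.pi ∨
        p i + k * Real.pi = p l + kl * Real.pi := by
    intro i k h4 h5
    rcases hall i with rfl | rfl | rfl
    · left
      have : k = 0 := comb_int (x := p 0) (c := p 0) h4 h5 (by simp) (by simp; exact hpos)
      rw [this]
      simp
    · right; left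
      rw [comb_int h4 h5 h1.le (lt_trans h2 h3)]
    · right; right
      rw [comb_int h4 h5 (lt_trans h1 h2).le h3]
  have hen := comb_end p q hlt hex huniq
  -- the end points
  have e0 : q 0 = p j + kj * Real.pi := by
    have hle : q 0 ≤ p j + kj * Real.pi := by
      by_contra hc
      push Not at hc
      have := huniq (p j + kj * Real.pi) 0 j 0 kj ⟨by simpa using h1.le, by simpa using hc⟩
        ⟨le_refl _, by have := hlt j; linarith⟩
      exact hj0 this.1.symm
    obtain ⟨i, k, hik⟩ := hen 0 0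
    have hq0 : q 0 + ((0 : ℤ) : ℝ) * Real.pi = q 0 := by simp
    rw [hq0] at hik
    have := hlt 0
    have := hpi 0
    rcases hst i k (by linarith) (by linarith) with h | h | h
    · linarith
    · linarith
    · linarith
  have ej : q j + kj * Real.pi = p l + kl * Real.pi := by
    have hle : q j + kj * Real.pi ≤ p l + kl * Real.pi := by
      by_contra hc
      push Not at hc
      have := huniq (p l + kl * Real.pi) j l kj kl ⟨h2.le, hc⟩
        ⟨le_refl _, by have := hlt l; linarith⟩
      exact hjl this.1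
    obtain ⟨i, k, hik⟩ := hen j kj
    have := hlt j
    rcases hst i k (by linarith) (by linarith) with h | h | h
    · linarith
    · linarith
    · linarith
  have el : q l + kl * Real.pi = p 0 + Real.pi := by
    have hle : q l + kl * Real.pi ≤ p 0 + Real.pi := by
      by_contra hc
      push Not at hc
      have := huniq (p 0 + Real.pi) l 0 kl 1 ⟨h3.le, hc⟩
        ⟨by simp, by have := hlt 0; simp; linarith⟩
      exact hl0 this.1
    obtain ⟨i, k, hik⟩ := hen l kl
    have := hlt l
    by_contra hne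
    have hlt' : q l + kl * Real.pi < p 0 + Real.pi := lt_of_le_of_ne hle hne
    rcases hst i k (by linarith) (by linarith) with h | h | h
    · linarith
    · linarith
    · linarith
  -- shifts by multiples of `2π`
  have hs : ∀ (x y : ℝ) (k : ℤ), y = x + k * (2 * Real.pi) → (y ∈ A ↔ x ∈ A) := by
    intro x y k h
    rw [h]
    exact hper x k
  have hgap : ∀ (i : Fin 3) (x y : ℝ) (k : ℤ), x = p i + k * (2 * Real.pi) →
      y = q i + k * (2 * Real.pi) → ∀ t, x < t → t < y → t ∉ A := by
    intro i x y k hx hy t ht1 ht2 htA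
    refine hno i (t - k * (2 * Real.pi)) ⟨by linarith, by linarith⟩ ?_
    exact (hs (t - k * (2 * Real.pi)) t k (by ring)).1 htA
  have a0 : p 0 ∈ A := hp 0
  have b0 : p j + kj * Real.pi ∈ A := e0 ▸ hq 0
  rcases Int.even_or_odd' kj with ⟨m, hm | hm⟩
  · have hm' : (kj : ℝ) = 2 * m := by rw [hm]; push_cast; ring
    have c0 : p l + kl * Real.pi ∈ A := by
      rw [← ej]
      exact (hs (q j) _ m (by rw [hm']; ring)).2 (hq j)
    rcases Int.even_or_odd' kl with ⟨n, hn | hn⟩
    · have hn' : (kl : ℝ) = 2 * n := by rw [hn]; push_cast; ring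
      right
      refine ⟨p 0, j, l, m, n, a0, ?_, ?_, ?_, ?_, ?_⟩
      · rw [← el]
        exact (hs (q l) _ n (by rw [hn']; ring)).2 (hq l)
      · rw [hm'] at h1; linarith
      · rw [hm', hn'] at h2; linarith
      · rw [hn'] at h3; linarith
      · rintro t ⟨ht1, ht2⟩ htA
        rw [hm'] at h1 h2 e0 ej
        rw [hn'] at h2 h3 ej el
        by_contra hno'
        rw [not_or] at hno'
        rcases lt_or_gt_of_ne hno'.1 with h | h
        · exact hgap 0 (p 0) (q 0) 0 (by simp) (by simp) t ht1 (by linarith) htA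
        · rcases lt_or_gt_of_ne hno'.2 with h' | h'
          · exact hgap j _ _ m rfl rfl t (by linarith) (by linarith) htA
          · exact hgap l _ _ n rfl rfl t (by linarith) (by linarith) htA
    · have hn' : (kl : ℝ) = 2 * n + 1 := by rw [hn]; push_cast; ring
      right
      refine ⟨p l + kl * Real.pi - Real.pi, 0, j, 0, m, ?_, ?_, ?_, ?_, ?_, ?_⟩
      · exact (hs (p l) _ n (by rw [hn']; ring)).2 (hp l)
      · rw [sub_add_cancel]
        exact c0
      · push_cast
        linarith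
      · rw [hm'] at h1
        push_cast
        linarith
      · rw [hm'] at h2
        linarith
      · rintro t ⟨ht1, ht2⟩ htA
        rw [hm'] at h1 h2 e0 ej
        rw [hn'] at h2 h3 ej el ht1 ht2
        by_contra hno'
        rw [not_or] at hno'
        rcases lt_or_gt_of_ne hno'.1 with h | h
        · refine hgap l (p l + n * (2 * Real.pi)) (q l + n * (2 * Real.pi)) n rfl rfl t
            (by linarith) ?_ htA
          push_cast at h
          linarith
        · rcases lt_or_gt_of_ne hno'.2 with h' | h'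
          · refine hgap 0 (p 0) (q 0) 0 (by simp) (by simp) t ?_ (by linarith) htA
            push_cast at h
            linarith
          · exact hgap j _ _ m rfl rfl t (by linarith) (by linarith) htA
  · have hm' : (kj : ℝ) = 2 * m + 1 := by rw [hm]; push_cast; ring
    have b1 : p j + kj * Real.pi + Real.pi ∈ A :=
      (hs (p j) _ (m + 1) (by rw [hm']; push_cast; ring)).2 (hp j)
    have c1 : p l + kl * Real.pi + Real.pi ∈ A := by
      rw [← ej]
      exact (hs (q j) _ (m + 1) (by rw [hm']; push_cast; ring)).2 (hq j)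
    rcases Int.even_or_odd' kl with ⟨n, hn | hn⟩
    · have hn' : (kl : ℝ) = 2 * n := by rw [hn]; push_cast; ring
      left
      refine ⟨p 0, p j + kj * Real.pi, p l + kl * Real.pi, h1, h2, h3, a0, b0, ?_, ?_, b1, c1⟩
      · exact (hs (p l) _ n (by rw [hn']; ring)).2 (hp l)
      · rw [← el]
        exact (hs (q l) _ n (by rw [hn']; ring)).2 (hq l)
    · have hn' : (kl : ℝ) = 2 * n + 1 := by rw [hn]; push_cast; ring
      right
      refine ⟨p j + kj * Real.pi - Real.pi, l, 0, n, 0, ?_, ?_, ?_, ?_, ?_, ?_⟩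
      · exact (hs (p j) _ m (by rw [hm']; ring)).2 (hp j)
      · rw [sub_add_cancel]
        exact b0
      · rw [hn'] at h2
        linarith
      · rw [hn'] at h3
        push_cast
        linarith
      · push_cast
        linarith
      · rintro t ⟨ht1, ht2⟩ htA
        rw [hm'] at h1 h2 e0 ej ht1 ht2
        rw [hn'] at h2 h3 ej el
        by_contra hno'
        rw [not_or] at hno'
        rcases lt_or_gt_of_ne hno'.1 with h | h
        · exact hgap j (p j + m * (2 * Real.pi)) (q j + m * (2 * Real.pi)) m rfl rfl t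
            (by linarith) (by linarith) htA
        · rcases lt_or_gt_of_ne hno'.2 with h' | h'
          · refine hgap l _ _ n rfl rfl t (by linarith) ?_ htA
            push_cast at h'
            linarith
          · refine hgap 0 (p 0) (q 0) 0 (by simp) (by simp) t ?_ (by linarith) htA
            push_cast at h'
            linarith

theorem comb (A : Set ℝ) (hper : ∀ (t : ℝ) (k : ℤ), t + k * (2 * Real.pi) ∈ A ↔ t ∈ A) (p q : Fin 3 → ℝ)
    (hp : ∀ i, p i ∈ A) (hq : ∀ i, q i ∈ A) (hlt : ∀ i, p i < q i) (hpi : ∀ i, q i < p i + Real.pi)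
    (hno : ∀ i, ∀ t ∈ Ioo (p i) (q i), t ∉ A)
    (hex : ∀ t : ℝ, ∃ (i : Fin 3) (k : ℤ), t ∈ Ico (p i + k * Real.pi) (q i + k * Real.pi))
    (huniq : ∀ (t : ℝ) (i j : Fin 3) (k l : ℤ), t ∈ Ico (p i + k * Real.pi) (q i + k * Real.pi) →
      t ∈ Ico (p j + l * Real.pi) (q j + l * Real.pi) → i = j ∧ k = l) :
    (∃ a b c : ℝ, a < b ∧ b < c ∧ c < a + Real.pi ∧ a ∈ A ∧ b ∈ A ∧ c ∈ A ∧ a + Real.pi ∈ A ∧
      b + Real.pi ∈ A ∧ c + Real.pi ∈ A) ∨
    ∃ (t₀ : ℝ) (i j : Fin 3) (k l : ℤ), t₀ ∈ A ∧ t₀ + Real.pi ∈ A ∧ t₀ < p i + k * (2 * Real.pi) ∧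
      p i + k * (2 * Real.pi) < p j + l * (2 * Real.pi) ∧ p j + l * (2 * Real.pi) < t₀ + Real.pi ∧
      ∀ t ∈ Ioo t₀ (t₀ + Real.pi), t ∈ A → t = p i + k * (2 * Real.pi) ∨ t = p j + l * (2 * Real.pi) := by
  have hpos := Real.pi_pos
  have hch : ∀ i : Fin 3, ∃ k : ℤ, p 0 ≤ p i + k * Real.pi ∧ p i + k * Real.pi < p 0 + Real.pi := by
    intro i
    obtain ⟨k, hk, -⟩ := existsUnique_add_zsmul_mem_Ico hpos (p i) (p 0)
    refine ⟨k, ?_, ?_⟩
    · simpa [zsmul_eq_mul] using hk.1
    · simpa [zsmul_eq_mul] using hk.2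
  have hmem : ∀ (i : Fin 3) (k : ℤ), p i + k * Real.pi ∈ Ico (p i + k * Real.pi) (q i + k * Real.pi) :=
    fun i k => ⟨le_refl _, by have := hlt i; linarith⟩
  obtain ⟨k1, h11, h12⟩ := hch 1
  obtain ⟨k2, h21, h22⟩ := hch 2
  have n1 : p 0 < p 1 + k1 * Real.pi := by
    refine lt_of_le_of_ne h11 fun h => ?_
    have h' := huniq (p 1 + k1 * Real.pi) 1 0 k1 0 (hmem 1 k1) (by
      have := hmem 0 0
      rw [← h]
      simpa using this)
    exact absurd h'.1 (by decide)
  have n2 : p 0 < p 2 + k2 * Real.pi := by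
    refine lt_of_le_of_ne h21 fun h => ?_
    have h' := huniq (p 2 + k2 * Real.pi) 2 0 k2 0 (hmem 2 k2) (by
      have := hmem 0 0
      rw [← h]
      simpa using this)
    exact absurd h'.1 (by decide)
  rcases lt_trichotomy (p 1 + k1 * Real.pi) (p 2 + k2 * Real.pi) with h | h | h
  · exact comb_core A hper p q hp hq hlt hpi hno hex huniq 1 2 (by decide) (by decide) (by decide)
      (by decide) k1 k2 n1 h h22
  · have h' := huniq (p 1 + k1 * Real.pi) 1 2 k1 k2 (hmem 1 k1) (h ▸ hmem 2 k2)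
    exact absurd h'.1 (by decide)
  · exact comb_core A hper p q hp hq hlt hpi hno hex huniq 2 1 (by decide) (by decide) (by decide)
      (by decide) k2 k1 n2 h h12

end Pool.BS79
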