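import Pool.Agent.BS79.CfgA
import Pool.Agent.BS79.Comb

set_option autoImplicit false
set_option linter.unusedSectionVars false

/-!
# BS79/CfgB: three pointed tiles at a generic point: the conclusion

`three_of_angles`: `w = ![ww a, ww b, ww c]`, `ww (a + π) = -ww a` (`ww_pi`); different lines: `eq_of_ww_eq`.
`iso_of_angles`: `w₀ = ww t₀`, `-w₀ = ww (t₀ + π)`; `⟪rot w₀, ww t⟫ = sin (t - t₀)` (`rot_ww`, `inner_ww'_ww`), positive exactly
for the angles in `(t₀, t₀ + π)` (`exists_angle` in the period from `t₀`), so the set in `Iso` is `{ww a, ww b}`, of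
`ncard` 2 (`eq_of_ww_eq`, `Set.ncard_pair`).  If `-ww a` and `-ww b` are both facet normals: `ThreePairs` with
`![ww t₀, ww a, ww b]`.  Otherwise one of them is single: `Iso`.
`cfg`: `cfg_angles`, `comb` with `A = {a | Facet P (ww u v a)}`, `iso_of_angles` / `three_of_angles`; the angles
`p i + k 2π` in `comb` give the same vectors (`ww_int`, `ww'_int`), `rot_ww`.
-/

namespace Pool.BS79

open Set Filter Topology MeasureTheory
open scoped RealInnerProductSpace ENNReal
open Pool.PT56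
open Pool.Agent.H14Belt (beltRidges Gen flat mot)

variable {E : Type} [NormedAddCommGroup E] [InnerProductSpace ℝ E] [FiniteDimensional ℝ E]
  [MeasurableSpace E] [BorelSpace E]

private theorem cfgb_ne {u v : E} (h : ON u v) {s t : ℝ} (hst : s ≠ t) (h1 : s < t + Real.pi)
    (h2 : t < s + Real.pi) : ww u v s ≠ ww u v t ∧ ww u v s ≠ -ww u v t := by
  have hpi := Real.pi_pos
  constructor
  · intro e
    exact hst (eq_of_ww_eq h e (by linarith) (by linarith))
  · intro e
    rw [← ww_pi] at e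
    have := eq_of_ww_eq h e (by linarith) (by linarith)
    linarith

theorem three_of_angles {P : Set E} {u v : E} (h : ON u v) {a b c : ℝ} (hab : a < b)
    (hbc : b < c) (hca : c < a + Real.pi) (h1 : Facet P (ww u v a)) (h2 : Facet P (ww u v b))
    (h3 : Facet P (ww u v c)) (h4 : Facet P (ww u v (a + Real.pi))) (h5 : Facet P (ww u v (b + Real.pi)))
    (h6 : Facet P (ww u v (c + Real.pi))) : ThreePairs P u v := by
  have hpi := Real.pi_pos
  have hac := hab.trans hbc
  let al : Fin 3 → ℝ := ![a, b, c]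
  refine ⟨fun i => ww u v (al i), ?_, ?_⟩
  · intro i
    fin_cases i
    · exact ⟨⟨h1, ww_mem _⟩, by show -ww u v a ∈ _; rw [← ww_pi]; exact ⟨h4, ww_mem _⟩⟩
    · exact ⟨⟨h2, ww_mem _⟩, by show -ww u v b ∈ _; rw [← ww_pi]; exact ⟨h5, ww_mem _⟩⟩
    · exact ⟨⟨h3, ww_mem _⟩, by show -ww u v c ∈ _; rw [← ww_pi]; exact ⟨h6, ww_mem _⟩⟩
  · intro i j hij
    have h0 : al 0 = a := rfl
    have h1' : al 1 = b := rfl
    have h2' : al 2 = c := rfl
    fin_cases i <;> fin_cases j
    · exact absurd rfl hij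
    · exact cfgb_ne (s := a) (t := b) h hab.ne (by linarith) (by linarith)
    · exact cfgb_ne (s := a) (t := c) h hac.ne (by linarith) (by linarith)
    · exact cfgb_ne (s := b) (t := a) h hab.ne' (by linarith) (by linarith)
    · exact absurd rfl hij
    · exact cfgb_ne (s := b) (t := c) h hbc.ne (by linarith) (by linarith)
    · exact cfgb_ne (s := c) (t := a) h hac.ne' (by linarith) (by linarith)
    · exact cfgb_ne (s := c) (t := b) h hbc.ne' (by linarith) (by linarith)
    · exact absurd rfl hij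

theorem iso_of_angles {P : Set E} {u v : E} (h : ON u v) {t₀ a b : ℝ}
    (h0 : Facet P (ww u v t₀)) (h0' : Facet P (ww u v (t₀ + Real.pi))) (ha : Facet P (ww u v a))
    (hb : Facet P (ww u v b)) (h1 : t₀ < a) (h2 : a < b) (h3 : b < t₀ + Real.pi)
    (hno : ∀ t ∈ Ioo t₀ (t₀ + Real.pi), Facet P (ww u v t) → t = a ∨ t = b) :
    ThreePairs P u v ∨ Iso P u v (ww u v a) ∨ Iso P u v (ww u v b) := by
  have hpi := Real.pi_pos
  by_cases hboth : Facet P (ww u v (a + Real.pi)) ∧ Facet P (ww u v (b + Real.pi))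
  · left
    exact three_of_angles h h1 h2 h3 h0 ha hb h0' hboth.1 hboth.2
  right
  have hw0 : ww u v t₀ ∈ BW P u v := ⟨h0, ww_mem _⟩
  have hw0' : -ww u v t₀ ∈ BW P u v := by rw [← ww_pi]; exact ⟨h0', ww_mem _⟩
  have hin : ∀ t, ⟪rot u v (ww u v t₀), ww u v t⟫ = Real.sin (t - t₀) := by
    intro t
    rw [rot_ww h, inner_ww'_ww h]
  have hpa : 0 < ⟪rot u v (ww u v t₀), ww u v a⟫ := by
    rw [hin]; exact Real.sin_pos_of_pos_of_lt_pi (by linarith) (by linarith)
  have hpb : 0 < ⟪rot u v (ww u v t₀), ww u v b⟫ := by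
    rw [hin]; exact Real.sin_pos_of_pos_of_lt_pi (by linarith) (by linarith)
  have hset : {w | w ∈ BW P u v ∧ 0 < ⟪rot u v (ww u v t₀), w⟫} = {ww u v a, ww u v b} := by
    ext w
    constructor
    · rintro ⟨hw, hpos⟩
      obtain ⟨t, ht, rfl⟩ := exists_angle h hw.1.1 hw.2 t₀
      rw [hin] at hpos
      have ht1 : t₀ < t := by
        rcases ht.1.lt_or_eq with h4 | h4
        · exact h4
        · rw [← h4, sub_self, Real.sin_zero] at hpos
          exact absurd hpos (lt_irrefl _)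
      have ht2 : t < t₀ + Real.pi := by
        by_contra hc
        push Not at hc
        have h4 : Real.sin (t - t₀) ≤ 0 := by
          have h5 : Real.sin (t - t₀) = -Real.sin (t - t₀ - Real.pi) := by
            rw [Real.sin_sub_pi, neg_neg]
          rw [h5]
          have := Real.sin_nonneg_of_nonneg_of_le_pi (x := t - t₀ - Real.pi) (by linarith)
            (by linarith [ht.2])
          linarith
        linarith
      rcases hno t ⟨ht1, ht2⟩ hw.1 with rfl | rfl
      · exact mem_insert _ _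
      · exact mem_insert_of_mem _ rfl
    · rintro (rfl | rfl)
      · exact ⟨⟨ha, ww_mem _⟩, hpa⟩
      · exact ⟨⟨hb, ww_mem _⟩, hpb⟩
  have hcard : {w | w ∈ BW P u v ∧ 0 < ⟪rot u v (ww u v t₀), w⟫}.ncard = 2 := by
    rw [hset]
    exact Set.ncard_pair (cfgb_ne h h2.ne (by linarith) (by linarith)).1
  by_cases hA : Facet P (ww u v (a + Real.pi))
  · right
    refine ⟨⟨hb, ww_mem _⟩, ?_, _, hw0, hw0', hpb, hcard⟩
    intro hc
    rw [← ww_pi] at hc
    exact hboth ⟨hA, hc.1⟩
  · left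
    refine ⟨⟨ha, ww_mem _⟩, ?_, _, hw0, hw0', hpa, hcard⟩
    intro hc
    rw [← ww_pi] at hc
    exact hA hc.1

open Classical in
theorem cfg {P : Set E} (hP : Polytope P) {u v : E} (h : ON u v) {ι : Type} {t : ι → E} {s : ι → ℝ}
    (hs : ∀ i, s i = 1 ∨ s i = -1)
    (hdis : ∀ i j, i ≠ j → Disjoint (interior (mot (t i) (s i) '' P)) (interior (mot (t j) (s j) '' P)))
    {I : Finset ι} {x : E} (hcov : (⋃ i ∈ I, mot (t i) (s i) '' P) ∈ 𝓝 x)
    (hgen : ∀ i ∈ I, x ∈ mot (t i) (s i) '' P → Gen u v (mot (t i) (s i) '' P) x)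
    (h3 : (I.filter fun i => x ∈ mot (t i) (s i) '' P).card = 3)
    (hall : ∀ i ∈ I, x ∈ mot (t i) (s i) '' P → x ∈ beltRidges (mot (t i) (s i) '' P) u v) :
    ThreePairs P u v ∨ ∃ c, Iso P u v c ∧ ∃ j ∈ I, x ∈ mot (t j) (s j) '' ridge P c (rot u v c) := by
  obtain ⟨p, q, hp, hq, hlt, hpi, hno, hex, huniq, hmem⟩ :=
    cfg_angles hP h hs hdis hcov hgen h3 hall
  have hfin : ∀ (i : Fin 3) (k : ℤ), Iso P u v (ww u v (p i + k * (2 * Real.pi))) →
      ∃ c, Iso P u v c ∧ ∃ j ∈ I, x ∈ mot (t j) (s j) '' ridge P c (rot u v c) := by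
    intro i k hI
    rw [ww_int] at hI
    obtain ⟨j, hj, hxj⟩ := hmem i
    refine ⟨_, hI, j, hj, ?_⟩
    rw [rot_ww h]
    exact hxj
  rcases comb {a | Facet P (ww u v a)} (fun a k => by
      show Facet P (ww u v (a + k * (2 * Real.pi))) ↔ Facet P (ww u v a)
      rw [ww_int]) p q hp hq hlt hpi hno hex huniq with
    ⟨a, b, c, hab, hbc, hca, h1, h2, h3', h4, h5, h6⟩ |
    ⟨t₀, i, j, k, l, h0, h0', h1, h2, h3', h4⟩
  · left
    exact three_of_angles h hab hbc hca h1 h2 h3' h4 h5 h6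
  · have ha : Facet P (ww u v (p i + k * (2 * Real.pi))) := by rw [ww_int]; exact hp i
    have hb : Facet P (ww u v (p j + l * (2 * Real.pi))) := by rw [ww_int]; exact hp j
    rcases iso_of_angles h h0 h0' ha hb h1 h2 h3' h4 with h5 | h5 | h5
    · left; exact h5
    · right; exact hfin i k h5
    · right; exact hfin j l h5

end Pool.BS79
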