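import Pool.Agent.BS79.Base

set_option autoImplicit false
set_option linter.unusedSectionVars false

/-!
# BS79/Csym: facets that are not centrally symmetric come in parallel pairs

`csym_pair`: let `face P (-u)` be centrally symmetric (`c - x`).  For a unit `v ⊥ u` the map `x ↦ c - x` maps
`face (face P (-u)) v` onto `face (face P (-u)) (-v)`, and it is an isometry, so `gv P (-u) v = gv P (-u) (-v)`
(`Isometry.euclideanHausdorffMeasure_image`).  `gv_law` (PT56/FacA) then gives `gv P u v = gv P u (-v)` (finite:
`gv_lt_top`), i.e. `secQ P u` is `Balanced` (as in the proof of `secQ_balanced`), and `mink (secQ_polytope ..)` shows that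
`face P u` is centrally symmetric exactly as in `csym_of_single` (copy the proof).
-/

namespace Pool.BS79

open Set Filter Topology MeasureTheory
open scoped RealInnerProductSpace ENNReal
open Pool.PT56

variable {E : Type} [NormedAddCommGroup E] [InnerProductSpace ℝ E] [FiniteDimensional ℝ E]
  [MeasurableSpace E] [BorelSpace E]

omit [FiniteDimensional ℝ E] in
private theorem csym_gv {F : Set E} (hF : CSym F) (v : E) (k : ℕ) :
    μHE[k] (face F v) = μHE[k] (face F (-v)) := by
  obtain ⟨c, hc⟩ := hF
  have hiso : Isometry (fun x : E => c - x) := (IsometryEquiv.subLeft c).isometry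
  have himg : (fun x : E => c - x) '' (face F v) = face F (-v) := by
    ext y
    constructor
    · rintro ⟨x, hx, rfl⟩
      refine ⟨hc x hx.1, fun z hz => ?_⟩
      have := hx.2 (c - z) (hc z hz)
      rw [inner_sub_right] at this
      rw [inner_neg_left, inner_neg_left, inner_sub_right]
      linarith
    · intro hy
      refine ⟨c - y, ⟨hc y hy.1, fun z hz => ?_⟩, by simp⟩
      have := hy.2 (c - z) (hc z hz)
      rw [inner_neg_left, inner_neg_left, inner_sub_right] at this
      rw [inner_sub_right]
      linarith
  rw [← himg, hiso.euclideanHausdorffMeasure_image]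

theorem csym_pair {P : Set E} (hP : Polytope P) (hT : Tiles P) {u : E} (h1 : Facet P u)
    (h2 : CSym (face P (-u))) : CSym (face P u) := by
  have hu := h1.1
  have hc := hP.compact
  have hsym : ∀ v : E, ‖v‖ = 1 → ⟪u, v⟫ = 0 → gv P u v = gv P u (-v) := by
    intro v hv huv
    have h3 := gv_law hc hP.conv hP.2 hT hu hv huv
    have hu' : ‖-u‖ = 1 := by rw [norm_neg, hu]
    have huv' : ⟪-u, v⟫ = 0 := by rw [inner_neg_left, huv, neg_zero]
    have h4 : gv P (-u) v = gv P (-u) (-v) := csym_gv h2 v _
    rw [← h4] at h3
    exact (ENNReal.add_left_inj (gv_lt_top hc hu' hv huv').ne).mp h3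
  have hb : Balanced (secQ P u) := by
    intro v hv
    have hQ := secQ_compact hc hu
    rw [vol_prism_muHE hv (face_compact hQ v) (fun x hx => ((mem_face_iff hQ).mp hx).2),
      vol_prism_muHE hv (face_compact hQ (-v)) (fun x hx => face_neg_level hQ hx),
      ← gv_eq hc hu v, ← gv_eq hc hu (-v)]
    exact hsym v hv (PT57.mem_perp_iff.mp v.2)
  obtain ⟨c, hcs⟩ := mink (secQ_polytope hP h1) hb
  refine ⟨(2 * spt P u) • u + (c : E), fun x hx => ?_⟩
  rw [← image_secQ hc hu] at hx
  obtain ⟨y, hy, rfl⟩ := hx
  have := hcs y hy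
  have h3 : spt P u • u + ((c - y : (ℝ ∙ u)ᗮ) : E) ∈ face P u := this
  convert h3 using 1
  rw [Submodule.coe_sub]
  module

end Pool.BS79
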