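import Pool.Agent.BS79.DimDefs

set_option autoImplicit false
set_option linter.unusedSectionVars false

/-!
# BS79/DimB: a facet of the belt has its normal in the plane and a ridge of positive measure
-/

namespace Pool.BS79

open Set Filter Topology MeasureTheory
open scoped RealInnerProductSpace ENNReal
open Pool.PT56

variable {E : Type} [NormedAddCommGroup E] [InnerProductSpace ℝ E] [FiniteDimensional ℝ E]
  [MeasurableSpace E] [BorelSpace E]

/-- a convex set with direction space `perp u v` has positive `μHE[d - 2]` -/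
theorem mu_ne_zero {u v : E} (h : ON u v) {G : Set E} (hconv : Convex ℝ G) (hne : G.Nonempty)
    (hG : vectorSpan ℝ G = perp u v) : μHE[Module.finrank ℝ E - 2] G ≠ 0 := by
  obtain ⟨x0, hx0⟩ := hne
  let f : perp u v →ᵃ[ℝ] E :=
    { toFun := fun y => x0 + (y : E)
      linear := (perp u v).subtype
      map_vadd' := by
        intro p v
        simp only [vadd_eq_add, Submodule.coe_add, Submodule.subtype_apply]
        abel }
  have hiso : Isometry (fun y : perp u v => x0 + (y : E)) :=
    (IsometryEquiv.addLeft x0).isometry.comp isometry_subtype_coe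
  set A : Set (perp u v) := f ⁻¹' G with hA
  have himg : f '' A = G := by
    apply image_preimage_eq_of_subset
    intro x hx
    have hd : x - x0 ∈ perp u v := by
      rw [← hG]
      have := vsub_mem_vectorSpan ℝ hx hx0
      simpa using this
    refine ⟨⟨x - x0, hd⟩, ?_⟩
    show x0 + (x - x0) = x
    abel
  have hAconv : Convex ℝ A := hconv.affine_preimage f
  have hAne : A.Nonempty := ⟨0, by show x0 + ((0 : perp u v) : E) ∈ G; simpa using hx0⟩
  have h1 : (vectorSpan ℝ A).map (perp u v).subtype = perp u v := by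
    have := f.vectorSpan_image_eq_submodule_map (s := A)
    rw [himg, hG] at this
    exact this
  have h2 : vectorSpan ℝ A = ⊤ := by
    apply Submodule.eq_top_of_finrank_eq
    have h3 := Submodule.finrank_map_subtype_eq (perp u v) (vectorSpan ℝ A)
    rw [h1] at h3
    exact h3.symm
  have hint : (interior A).Nonempty := by
    rw [hAconv.interior_nonempty_iff_affineSpan_eq_top,
      AffineSubspace.affineSpan_eq_top_iff_vectorSpan_eq_top_of_nonempty ℝ _ _ hAne]
    exact h2
  have hr : Module.finrank ℝ (perp u v) = Module.finrank ℝ E - 2 := by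
    have := Pool.Agent.H14Belt.finrank_perp h.nu h.nv h.uv
    omega
  have e : μHE[Module.finrank ℝ E - 2] G = volume A := by
    have h3 := hiso.euclideanHausdorffMeasure_image (d := Module.finrank ℝ E - 2) A
    have h4 : (fun y : perp u v => x0 + (y : E)) '' A = G := himg
    rw [h4, ← hr, InnerProductSpace.euclideanHausdorffMeasure_eq_volume] at h3
    rw [← hr]
    exact h3
  rw [e]
  intro h0
  have h3 : 0 < volume (interior A) := isOpen_interior.measure_pos _ hint
  have h4 := measure_mono (μ := (volume : Measure (perp u v))) (interior_subset (s := A))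
  rw [h0] at h4
  exact absurd h3 (not_lt.2 h4)

theorem mem_span_of_const {u v a : E} {G : Set E} (hd : vectorSpan ℝ G = perp u v)
    (ha : ∀ x ∈ G, ∀ y ∈ G, ⟪a, x⟫ = ⟪a, y⟫) : a ∈ Submodule.span ℝ {u, v} := by
  have h1 : vectorSpan ℝ G ≤ (ℝ ∙ a)ᗮ := by
    rw [vectorSpan_def, Submodule.span_le]
    rintro _ ⟨x, hx, y, hy, rfl⟩
    show x -ᵥ y ∈ (ℝ ∙ a)ᗮ
    rw [vsub_eq_sub, Submodule.mem_orthogonal_singleton_iff_inner_right, inner_sub_right, ha x hx y hy, sub_self]
  have h2 : a ∈ ((Submodule.span ℝ {u, v})ᗮ)ᗮ := by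
    rw [Submodule.mem_orthogonal']
    intro l hl
    have h3 : l ∈ (ℝ ∙ a)ᗮ := h1 (by rw [hd]; exact hl)
    exact Submodule.mem_orthogonal_singleton_iff_inner_right.mp h3
  rwa [Submodule.orthogonal_orthogonal] at h2

theorem belt_normal {P : Set E} (hP : Polytope P) {u v : E} (h : ON u v) {w : E} (hw : Facet P w)
    {G' : Set E} (hG' : G' ∈ Ridges P) (hsub : G' ⊆ face P w) (hd : vectorSpan ℝ G' = perp u v) :
    w ∈ BW P u v ∧ (gp P u v w ≠ 0 ∨ gm P u v w ≠ 0) := by
  have hc := hP.compact
  obtain ⟨n, hn0, rfl, hdim⟩ := hG'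
  have hPne : P.Nonempty := hP.2.mono interior_subset
  have hne : (face P n).Nonempty := by
    obtain ⟨x, hx, hx'⟩ := exists_spt hc hPne n
    exact ⟨x, (mem_face_iff hc).mpr ⟨hx, hx'⟩⟩
  have hws : w ∈ Submodule.span ℝ {u, v} := by
    apply mem_span_of_const hd
    intro x hx y hy
    rw [((mem_face_iff hc).mp (hsub hx)).2, ((mem_face_iff hc).mp (hsub hy)).2]
  have hns : n ∈ Submodule.span ℝ {u, v} := by
    apply mem_span_of_const hd
    intro x hx y hy
    rw [((mem_face_iff hc).mp hx).2, ((mem_face_iff hc).mp hy).2]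
  refine ⟨⟨hw, hws⟩, ?_⟩
  have hmu : μHE[Module.finrank ℝ E - 2] (face P n) ≠ 0 :=
    mu_ne_zero h (face_convex hP.conv n) hne hd
  -- the angle of `w`
  obtain ⟨t, -, rfl⟩ := exists_angle h hw.1 hws 0
  have hnp : 0 < ‖n‖ := norm_pos_iff.mpr hn0
  have hunit : ‖‖n‖⁻¹ • n‖ = 1 := by
    rw [norm_smul, norm_inv, norm_norm, inv_mul_cancel₀ hnp.ne']
  obtain ⟨s, -, hs⟩ := exists_angle h hunit (Submodule.smul_mem _ _ hns) 0
  have hnn : n = ‖n‖ • (Real.cos (s - t) • ww u v t + Real.sin (s - t) • ww' u v t) := by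
    rw [← ww_add, add_sub_cancel, ← hs, smul_smul, mul_inv_cancel₀ hnp.ne', one_smul]
  set a := ‖n‖ * Real.cos (s - t) with ha
  set b := ‖n‖ * Real.sin (s - t) with hb
  have hnab : n = a • ww u v t + b • ww' u v t := by
    conv_lhs => rw [hnn]
    rw [ha, hb, smul_add, smul_smul, smul_smul]
  have hin : ∀ z, ⟪n, z⟫ = a * ⟪ww u v t, z⟫ + b * ⟪ww' u v t, z⟫ := by
    intro z
    conv_lhs => rw [hnab]
    rw [inner_add_left, real_inner_smul_left, real_inner_smul_left]
  have hb0 : b ≠ 0 := by
    intro hb0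
    rw [hb0, zero_smul, add_zero] at hnab
    have ha0 : a ≠ 0 := by
      rintro ha0
      rw [ha0, zero_smul] at hnab
      exact hn0 hnab
    rcases lt_or_gt_of_ne ha0 with ha1 | ha1
    · obtain ⟨x, hx⟩ := hne
      have hx2 := hsub hx
      obtain ⟨z0, hz0⟩ := hP.2
      have hww0 : ww u v t ≠ 0 := by
        intro h1; have := hw.1; rw [h1] at this; simp at this
      have h1 := lt_spt hc hz0 hww0
      have h2 := hx.2 z0 (interior_subset hz0)
      rw [hin, hin, hb0, zero_mul, zero_mul, add_zero, add_zero] at h2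
      have h3 := ((mem_face_iff hc).mp hx2).2
      rw [h3] at h2
      nlinarith
    · have h1 : face P n = face P (ww u v t) := by rw [hnab]; exact face_smul P _ ha1
      have h2 := (dim_iff hP hw.1).mp hw
      rw [← h1] at h2
      omega
  rcases lt_or_gt_of_ne hb0 with hb1 | hb1
  · right
    unfold gm
    rw [rot_ww h]
    intro h0
    apply hmu
    refine measure_mono_null ?_ h0
    intro x hx
    refine ⟨hsub hx, fun y hy => ?_⟩
    have h1 := hx.2 y hy.1
    rw [hin, hin, ((mem_face_iff hc).mp (hsub hx)).2, ((mem_face_iff hc).mp hy).2] at h1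
    rw [inner_neg_left, inner_neg_left]
    nlinarith
  · left
    unfold gp
    rw [rot_ww h]
    intro h0
    apply hmu
    refine measure_mono_null ?_ h0
    intro x hx
    refine ⟨hsub hx, fun y hy => ?_⟩
    have h1 := hx.2 y hy.1
    rw [hin, hin, ((mem_face_iff hc).mp (hsub hx)).2, ((mem_face_iff hc).mp hy).2] at h1
    nlinarith

end Pool.BS79
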