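import Pool.Agent.BS79.DimDefs

set_option autoImplicit false
set_option linter.unusedSectionVars false

/-!
# BS79/DimF: an orthonormal pair orthogonal to a face of dimension `d - 2`
-/

namespace Pool.BS79

open Set Filter Topology MeasureTheory
open scoped RealInnerProductSpace ENNReal
open Pool.PT56

variable {E : Type} [NormedAddCommGroup E] [InnerProductSpace ℝ E] [FiniteDimensional ℝ E]
  [MeasurableSpace E] [BorelSpace E]

theorem ridge_frame {P : Set E} {G : Set E} (hG : G ∈ Ridges P) :
    ∃ u v : E, ON u v ∧ vectorSpan ℝ G = perp u v := by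
  obtain ⟨n, -, -, hdim⟩ := hG
  set V := vectorSpan ℝ G with hV
  have h2 : Module.finrank ℝ Vᗮ = 2 := by
    have := Submodule.finrank_add_finrank_orthogonal (𝕜 := ℝ) V
    omega
  let b := (stdOrthonormalBasis ℝ Vᗮ).reindex (finCongr h2)
  have hb := b.orthonormal
  refine ⟨(b 0 : E), (b 1 : E), ⟨?_, ?_, ?_⟩, ?_⟩
  · have := hb.1 0
    rwa [Submodule.coe_norm] at this
  · have := hb.1 1
    rwa [Submodule.coe_norm] at this
  · have : ⟪b 0, b 1⟫ = 0 := hb.2 (show (0 : Fin 2) ≠ 1 by decide)
    rwa [Submodule.coe_inner] at this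
  · have h3 : Submodule.span ℝ {(b 0 : E), (b 1 : E)} = Vᗮ := by
      have h4 := b.toBasis.span_eq
      have h5 : (Submodule.span ℝ (range b.toBasis)).map Vᗮ.subtype = Vᗮ := by
        rw [h4, Submodule.map_subtype_top]
      refine Eq.trans ?_ h5
      rw [Submodule.map_span]
      congr 1
      ext x
      simp only [OrthonormalBasis.coe_toBasis, mem_image, mem_range, mem_insert_iff, mem_singleton_iff]
      constructor
      · rintro (rfl | rfl)
        · exact ⟨b 0, ⟨0, rfl⟩, rfl⟩
        · exact ⟨b 1, ⟨1, rfl⟩, rfl⟩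
      · rintro ⟨_, ⟨i, rfl⟩, rfl⟩
        fin_cases i
        · exact Or.inl rfl
        · exact Or.inr rfl
    show V = (Submodule.span ℝ {(b 0 : E), (b 1 : E)})ᗮ
    rw [h3, Submodule.orthogonal_orthogonal]

end Pool.BS79
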