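import Pool.Agent.BS79.DimDefs

set_option autoImplicit false
set_option linter.unusedSectionVars false

/-!
# BS79/DimN: a facet with a ridge of positive measure in the plane is in the belt
-/

namespace Pool.BS79

open Set Filter Topology MeasureTheory
open scoped RealInnerProductSpace ENNReal
open Pool.PT56

variable {E : Type} [NormedAddCommGroup E] [InnerProductSpace ℝ E] [FiniteDimensional ℝ E]
  [MeasurableSpace E] [BorelSpace E]

/-- a set of positive measure `μHE[d - 2]` whose direction space lies in `perp u v` spans `perp u v` -/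
theorem vs_eq_perp {u v : E} (h : ON u v) {G : Set E} (hle : vectorSpan ℝ G ≤ perp u v)
    (hG : μHE[Module.finrank ℝ E - 2] G ≠ 0) : vectorSpan ℝ G = perp u v := by
  by_contra hne
  obtain ⟨x0, hx0⟩ : G.Nonempty := by
    rw [nonempty_iff_ne_empty]
    rintro rfl
    simp at hG
  obtain ⟨z, hz, hz0⟩ : ∃ z ∈ (vectorSpan ℝ G)ᗮ ⊓ perp u v, z ≠ 0 := by
    rw [← Submodule.ne_bot_iff]
    intro hb
    apply hne
    have := Submodule.sup_orthogonal_inf_of_hasOrthogonalProjection hle
    rwa [hb, sup_bot_eq] at this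
  obtain ⟨hz1, hz2⟩ := hz
  apply hG
  refine null3 (u := u) (v := v) (w := z) h.nu h.nv h.uv ?_ (p := ⟪u, x0⟫) (q := ⟪v, x0⟫) (r := ⟪z, x0⟫) ?_
  · intro hs
    apply hz0
    have hz3 : z ∈ (Submodule.span ℝ {u, v})ᗮ := hz2
    have := Submodule.inner_right_of_mem_orthogonal hs hz3
    exact inner_self_eq_zero.mp this
  · intro x hx
    have hd : x - x0 ∈ vectorSpan ℝ G := by
      have := vsub_mem_vectorSpan ℝ hx hx0
      simpa using this
    have h1 := (mem_perp.mp (hle hd))
    have h2 : ⟪z, x - x0⟫ = 0 := by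
      rw [real_inner_comm]
      exact Submodule.inner_right_of_mem_orthogonal hd hz1
    rw [inner_sub_right, inner_sub_right] at h1
    rw [inner_sub_right] at h2
    exact ⟨by linarith [h1.1], by linarith [h1.2], by linarith⟩

theorem ridge_face {P : Set E} (hP : Polytope P) {u v : E} (h : ON u v) {w w' : E}
    (hw : ‖w‖ = 1) (hw' : ‖w'‖ = 1) (hww : ⟪w, w'⟫ = 0) (hp : perp w w' = perp u v)
    (hg : gv P w w' ≠ 0) :
    ∃ n : E, n ≠ 0 ∧ face P n ⊆ face P w ∧ vectorSpan ℝ (face P n) = perp u v := by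
  have hc := hP.compact
  have hFc := face_compact hc w
  have h1 := face_rot hP w w'
  obtain ⟨e, he⟩ := h1.exists
  refine ⟨Real.cos e • w + Real.sin e • w', ?_, ?_, ?_⟩
  · intro h0
    have h2 := norm_ww hw hw' hww e
    unfold Pool.PT56.ww at h2
    rw [h0, norm_zero] at h2
    exact zero_ne_one h2
  · rw [he]
    exact fun x hx => hx.1
  · rw [he]
    apply vs_eq_perp h _ hg
    rw [vectorSpan_def, Submodule.span_le]
    rintro _ ⟨x, hx, y, hy, rfl⟩
    rw [← hp]
    show x -ᵥ y ∈ perp w w'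
    rw [vsub_eq_sub, mem_perp, inner_sub_right, inner_sub_right]
    constructor
    · rw [((mem_face_iff hc).mp hx.1).2, ((mem_face_iff hc).mp hy.1).2, sub_self]
    · rw [((mem_face_iff hFc).mp hx).2, ((mem_face_iff hFc).mp hy).2, sub_self]

theorem normal_belt {P : Set E} (hP : Polytope P) {u v : E} (h : ON u v) {w : E} (hw : w ∈ BW P u v)
    (hg : gp P u v w ≠ 0 ∨ gm P u v w ≠ 0) :
    ∃ G' ∈ Ridges P, G' ⊆ face P w ∧ vectorSpan ℝ G' = perp u v := by
  obtain ⟨r1, r2, -⟩ := rot_norm h hw.1.1 hw.2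
  have hp : perp w (rot u v w) = perp u v := by
    obtain ⟨t, -, rfl⟩ := exists_angle h hw.1.1 hw.2 0
    rw [rot_ww h, perp_ww h]
  have hp' : perp w (-rot u v w) = perp u v := by
    rw [← hp]
    ext x
    rw [mem_perp, mem_perp, inner_neg_left, neg_eq_zero]
  have hdim := Pool.Agent.H14Belt.finrank_perp h.nu h.nv h.uv
  rcases hg with hg | hg
  · obtain ⟨n, hn, hsub, hv⟩ := ridge_face hP h hw.1.1 r1 r2 hp hg
    exact ⟨face P n, ⟨n, hn, rfl, by rw [hv]; exact hdim⟩, hsub, hv⟩
  · obtain ⟨n, hn, hsub, hv⟩ := ridge_face hP h hw.1.1 (by rw [norm_neg]; exact r1)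
      (by rw [inner_neg_right, r2, neg_zero]) hp' hg
    exact ⟨face P n, ⟨n, hn, rfl, by rw [hv]; exact hdim⟩, hsub, hv⟩

end Pool.BS79
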