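import Pool.Agent.BS79.DimDefs
import Pool.Agent.BS79.DimN
import Pool.Agent.BS79.DimB
import Pool.Agent.BS79.DimF

/-!
# BS79/Dim: ridges as faces of dimension `d - 2`

`Ridges`, `Belt` are in DimDefs, `normal_belt` in DimN, `belt_normal` in DimB, `ridge_frame` in DimF.
-/
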