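import Pool.Agent.BS79.Base
import Pool.Agent.PT56.FDim

set_option autoImplicit false
set_option linter.unusedSectionVars false

/-!
# BS79/DimDefs: faces of dimension `d - 2` and belts
-/

namespace Pool.BS79

open Set Filter Topology MeasureTheory
open scoped RealInnerProductSpace ENNReal
open Pool.PT56

/-- the faces of dimension `d - 2` -/
def Ridges {E : Type} [NormedAddCommGroup E] [InnerProductSpace ℝ E] (P : Set E) : Set (Set E) :=
  {G | ∃ u : E, u ≠ 0 ∧ G = face P u ∧
    Module.finrank ℝ (vectorSpan ℝ G) + 2 = Module.finrank ℝ E}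

/-- the belt of `G`: the facets that contain a `(d - 2)`-dimensional face parallel to `G` -/
def Belt {E : Type} [NormedAddCommGroup E] [InnerProductSpace ℝ E] (P : Set E) (G : Set E) :
    Set (Set E) :=
  {F | F ∈ Facets P ∧ ∃ G' ∈ Ridges P, G' ⊆ F ∧ vectorSpan ℝ G' = vectorSpan ℝ G}

end Pool.BS79
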