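import Pool.Agent.BS79.FinB

set_option autoImplicit false
set_option linter.unusedSectionVars false

/-!
# BS79/Fin1: exactly one pair

The only pair is `±w₀`.  `α = g w₀`, `β = g (-w₀)`, `α + β = L` (`sum`).  `A` = the elements of `W` with `0 < ⟪J w₀, w⟫`,
`B` = those with `0 < ⟪J (-w₀), w⟫`; `W = {w₀, -w₀} ∪ A ∪ B` disjoint (`side`, `Jself`, `Jneg`), `m = |A|`, `n = |B|`.
`g = α` on `A` and `g = β` on `B` (`arc` for `w₀` and `-w₀`; elements of `A`, `B` are not paired).
`low`: `L + m α + n β ≤ T`; `up3`: `T ≤ 3 L`; hence `m α + n β ≤ 2 α + 2 β`.  `next`: `α ≠ 0 → 1 ≤ m`, `β ≠ 0 → 1 ≤ n`.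
If `β = 0`: `α = L`, `m ≤ 2`, the filter is `{±w₀} ∪ A`: at most 4.  Same for `α = 0`.
If both are nonzero: if `m ≥ 3`: `n ≥ 2` contradicts `m α + n β ≤ 2 α + 2 β`; `n = 1`: no element is `IsoW` (an `IsoW`
half plane is that of `w₀` (with `m ≥ 3` elements) or of `-w₀` (with `n = 1` elements)), so `up2` gives
`L + m α + β ≤ 2 L`, contradiction.  Same for `n ≥ 3`.  So `m, n ≤ 2` and `|W| ≤ 6`.
-/

namespace Pool.BS79

open scoped RealInnerProductSpace ENNReal

variable {E : Type} [NormedAddCommGroup E] [InnerProductSpace ℝ E]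

/-- the arithmetic of `fin1`: the last case -/
private theorem fin1_arith {a b : ℝ} (ha : 0 < a) (hb : 0 < b) {m n : ℕ} (hm : 1 ≤ m) (hn : 1 ≤ n)
    (h3 : (m : ℝ) * a + n * b ≤ 2 * (a + b))
    (h2 : m ≠ 2 → n ≠ 2 → (m : ℝ) * a + n * b ≤ a + b) : m + n ≤ 4 := by
  by_contra hc
  push Not at hc
  have hm1 : (1 : ℝ) ≤ m := by exact_mod_cast hm
  have hn1 : (1 : ℝ) ≤ n := by exact_mod_cast hn
  rcases Nat.lt_or_ge m 3 with hm3 | hm3
  · -- then n ≥ 3
    have hn3 : 3 ≤ n := by omega
    have hn3' : (3 : ℝ) ≤ n := by exact_mod_cast hn3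
    by_cases hm2 : m = 2
    · have : (m : ℝ) = 2 := by exact_mod_cast hm2
      rw [this] at h3
      nlinarith
    · have := h2 hm2 (by omega)
      nlinarith
  · have hm3' : (3 : ℝ) ≤ m := by exact_mod_cast hm3
    by_cases hn2 : n = 2
    · have : (n : ℝ) = 2 := by exact_mod_cast hn2
      rw [this] at h3
      nlinarith
    · have := h2 (by omega) hn2
      nlinarith

open Classical in
private theorem fin1_split {W : Finset E} {J : E → E} {g : E → ℝ≥0∞} {L T : ℝ≥0∞} (h : FD W J g L T) {w₀ : E}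
    (h0 : w₀ ∈ W) (h0' : -w₀ ∈ W) :
    W = insert w₀ (insert (-w₀) ((W.filter fun w => 0 < ⟪J w₀, w⟫) ∪ (W.filter fun w => 0 < ⟪J (-w₀), w⟫))) := by
  ext w
  simp only [Finset.mem_insert, Finset.mem_union, Finset.mem_filter]
  constructor
  · intro hw
    by_cases h1 : w = w₀
    · exact Or.inl h1
    by_cases h2 : w = -w₀
    · exact Or.inr (Or.inl h2)
    refine Or.inr (Or.inr ?_)
    rcases lt_or_gt_of_ne (h.side w₀ h0 w hw h1 h2) with h3 | h3
    · right
      refine ⟨hw, ?_⟩
      rw [h.Jneg, inner_neg_left]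
      linarith
    · exact Or.inl ⟨hw, h3⟩
  · rintro (rfl | rfl | ⟨hw, -⟩ | ⟨hw, -⟩)
    · exact h0
    · exact h0'
    · exact hw
    · exact hw

open Classical in
theorem fin1 {W : Finset E} {J : E → E} {g : E → ℝ≥0∞} {L T : ℝ≥0∞} (h : FD W J g L T) {w₀ : E}
    (h0 : w₀ ∈ W) (h0' : -w₀ ∈ W) (hall : ∀ w ∈ W, -w ∈ W → w = w₀ ∨ w = -w₀) :
    (W.filter fun w => -w ∈ W ∨ g w ≠ 0).card ≤ 6 := by
  set A := W.filter fun w => 0 < ⟪J w₀, w⟫ with hA
  set B := W.filter fun w => 0 < ⟪J (-w₀), w⟫ with hB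
  have hW : W = insert w₀ (insert (-w₀) (A ∪ B)) := fin1_split h h0 h0'
  have hs0 : ⟪J w₀, w₀⟫ = 0 := h.Jself w₀ h0
  have hA0 : w₀ ∉ A := by
    intro hc; have := (Finset.mem_filter.mp hc).2; rw [hs0] at this; exact lt_irrefl _ this
  have hA1 : -w₀ ∉ A := by
    intro hc; have := (Finset.mem_filter.mp hc).2; rw [inner_neg_right, hs0] at this; simp at this
  have hB0 : w₀ ∉ B := by
    intro hc; have := (Finset.mem_filter.mp hc).2
    rw [h.Jneg, inner_neg_left, hs0] at this; simp at this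
  have hB1 : -w₀ ∉ B := by
    intro hc; have := (Finset.mem_filter.mp hc).2
    rw [h.Jneg, inner_neg_left, inner_neg_right, hs0] at this; simp at this
  have hAB : Disjoint A B := by
    rw [Finset.disjoint_left]
    intro w hw hw'
    have h1 := (Finset.mem_filter.mp hw).2
    have h2 := (Finset.mem_filter.mp hw').2
    rw [h.Jneg, inner_neg_left] at h2
    linarith
  have hne : w₀ ≠ -w₀ := h.ne w₀ h0
  have n1 : -w₀ ∉ A ∪ B := by simp only [Finset.mem_union]; tauto
  have n0 : w₀ ∉ insert (-w₀) (A ∪ B) := by simp only [Finset.mem_insert, Finset.mem_union]; tauto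
  have hcard : W.card = A.card + B.card + 2 := by
    rw [hW, Finset.card_insert_of_notMem n0, Finset.card_insert_of_notMem n1, Finset.card_union_of_disjoint hAB]
  have hAW : ∀ w ∈ W, 0 < ⟪J w₀, w⟫ → -w ∉ W := by
    intro w hw hpos hneg
    have hwA : w ∈ A := Finset.mem_filter.mpr ⟨hw, hpos⟩
    rcases hall w hw hneg with h1 | h1
    · rw [h1] at hwA; exact hA0 hwA
    · rw [h1] at hwA; exact hA1 hwA
  have hBW : ∀ w ∈ W, 0 < ⟪J (-w₀), w⟫ → -w ∉ W := by
    intro w hw hpos hneg
    have hwB : w ∈ B := Finset.mem_filter.mpr ⟨hw, hpos⟩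
    rcases hall w hw hneg with h1 | h1
    · rw [h1] at hwB; exact hB0 hwB
    · rw [h1] at hwB; exact hB1 hwB
  have gA : ∀ c ∈ A, g c = g w₀ := fun c hc =>
    h.arc w₀ h0 hAW c (Finset.mem_filter.mp hc).1 (Finset.mem_filter.mp hc).2
  have gB : ∀ c ∈ B, g c = g (-w₀) := fun c hc =>
    h.arc (-w₀) h0' hBW c (Finset.mem_filter.mp hc).1 (Finset.mem_filter.mp hc).2
  set α := g w₀ with hα
  set β := g (-w₀) with hβ
  have hL : α + β = L := h.sum w₀ h0
  have hαf : α ≠ ⊤ := fun hc => h.Lf (by rw [← hL, hc]; simp)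
  have hβf : β ≠ ⊤ := fun hc => h.Lf (by rw [← hL, hc]; simp)
  have hsum : ∑ w ∈ W, g w = L + (A.card * α + B.card * β) := by
    rw [hW, Finset.sum_insert n0, Finset.sum_insert n1, Finset.sum_union hAB, Finset.sum_congr rfl gA,
      Finset.sum_congr rfl gB, Finset.sum_const, Finset.sum_const, nsmul_eq_mul, nsmul_eq_mul, ← hL]
    ring
  -- real numbers
  obtain ⟨a, ha0, ha⟩ : ∃ a : ℝ, 0 ≤ a ∧ α = ENNReal.ofReal a :=
    ⟨α.toReal, ENNReal.toReal_nonneg, (ENNReal.ofReal_toReal hαf).symm⟩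
  obtain ⟨b, hb0, hb⟩ : ∃ b : ℝ, 0 ≤ b ∧ β = ENNReal.ofReal b :=
    ⟨β.toReal, ENNReal.toReal_nonneg, (ENNReal.ofReal_toReal hβf).symm⟩
  have key : ∀ k : ℕ, T ≤ (k + 1 : ℕ) * L → (A.card : ℝ) * a + B.card * b ≤ k * (a + b) := by
    intro k hk
    have h1 : L + (A.card * α + B.card * β) ≤ L + k * L := by
      rw [← hsum]
      refine (h.low.trans hk).trans (le_of_eq ?_)
      push_cast; ring
    have h2 : A.card * α + B.card * β ≤ k * L := (ENNReal.add_le_add_iff_left h.Lf).mp h1
    have e1 : (A.card : ℝ≥0∞) * α + B.card * β = ENNReal.ofReal (A.card * a + B.card * b) := by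
      rw [ENNReal.ofReal_add (mul_nonneg (Nat.cast_nonneg _) ha0) (mul_nonneg (Nat.cast_nonneg _) hb0),
        ENNReal.ofReal_mul (Nat.cast_nonneg _),
        ENNReal.ofReal_mul (Nat.cast_nonneg _), ENNReal.ofReal_natCast, ENNReal.ofReal_natCast, ← ha, ← hb]
    have e2 : (k : ℝ≥0∞) * L = ENNReal.ofReal (k * (a + b)) := by
      rw [ENNReal.ofReal_mul (Nat.cast_nonneg _), ENNReal.ofReal_add ha0 hb0, ENNReal.ofReal_natCast, ← ha, ← hb, hL]
    rw [e1, e2] at h2
    exact (ENNReal.ofReal_le_ofReal_iff (mul_nonneg (Nat.cast_nonneg _) (add_nonneg ha0 hb0))).mp h2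
  have key3 : (A.card : ℝ) * a + B.card * b ≤ 2 * (a + b) := by
    have := key 2 (by simpa using h.up3)
    simpa using this
  -- no three pairs
  have h3 : ¬ Three W := by
    rintro ⟨w, hw, hd⟩
    have e0 := hall (w 0) (hw 0).1 (hw 0).2
    have e1 := hall (w 1) (hw 1).1 (hw 1).2
    have d := hd 0 1 (by decide)
    rcases e0 with e0 | e0 <;> rcases e1 with e1 | e1 <;> rw [e0, e1] at d
    · exact d.1 rfl
    · exact d.2 (neg_neg w₀).symm
    · exact d.2 rfl
    · exact d.1 rfl
  have key2 : A.card ≠ 2 → B.card ≠ 2 → (A.card : ℝ) * a + B.card * b ≤ a + b := by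
    intro hm hn
    have hempty : W.filter (fun c => IsoW W J c) = ∅ := by
      rw [Finset.filter_eq_empty_iff]
      rintro c hc ⟨-, w, hw, hw', -, h2⟩
      rcases hall w hw hw' with e | e
      · rw [e] at h2; exact hm h2
      · rw [e] at h2; exact hn h2
    have h4 := h.up2 h3
    rw [hempty, Finset.sum_empty, add_zero] at h4
    have := key 1 (by simpa using h4)
    simpa using this
  have hab : 0 < a + b := by
    rcases (add_nonneg ha0 hb0).lt_or_eq with h1 | h1
    · exact h1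
    · exfalso
      apply h.L0
      rw [← hL, ha, hb, ← ENNReal.ofReal_add ha0 hb0, ← h1]
      simp
  by_cases hb1 : β = 0
  · -- the filter is contained in `{w₀, -w₀} ∪ A`
    have hb2 : b = 0 := by
      rw [hb, ENNReal.ofReal_eq_zero] at hb1; exact le_antisymm hb1 hb0
    have hA2 : (A.card : ℝ) ≤ 2 := by
      rw [hb2] at key3 hab
      simp only [mul_zero, add_zero] at key3 hab
      exact le_of_mul_le_mul_right key3 hab
    have hA2' : A.card ≤ 2 := by exact_mod_cast hA2
    have hsub : (W.filter fun w => -w ∈ W ∨ g w ≠ 0) ⊆ insert w₀ (insert (-w₀) A) := by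
      intro w hw
      obtain ⟨hw1, hw2⟩ := Finset.mem_filter.mp hw
      simp only [Finset.mem_insert]
      rcases hw2 with hw2 | hw2
      · rcases hall w hw1 hw2 with e | e
        · exact Or.inl e
        · exact Or.inr (Or.inl e)
      · rw [hW] at hw1
        simp only [Finset.mem_insert, Finset.mem_union] at hw1
        rcases hw1 with e | e | e | e
        · exact Or.inl e
        · exact Or.inr (Or.inl e)
        · exact Or.inr (Or.inr e)
        · exact absurd (by rw [gB w e, hb1]) hw2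
    refine (Finset.card_le_card hsub).trans ((Finset.card_insert_le _ _).trans ?_)
    have := Finset.card_insert_le (-w₀) A
    omega
  by_cases ha1 : α = 0
  · have ha2 : a = 0 := by
      rw [ha, ENNReal.ofReal_eq_zero] at ha1; exact le_antisymm ha1 ha0
    have hB2 : (B.card : ℝ) ≤ 2 := by
      rw [ha2] at key3 hab
      simp only [mul_zero, zero_add] at key3 hab
      exact le_of_mul_le_mul_right key3 hab
    have hB2' : B.card ≤ 2 := by exact_mod_cast hB2
    have hsub : (W.filter fun w => -w ∈ W ∨ g w ≠ 0) ⊆ insert w₀ (insert (-w₀) B) := by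
      intro w hw
      obtain ⟨hw1, hw2⟩ := Finset.mem_filter.mp hw
      simp only [Finset.mem_insert]
      rcases hw2 with hw2 | hw2
      · rcases hall w hw1 hw2 with e | e
        · exact Or.inl e
        · exact Or.inr (Or.inl e)
      · rw [hW] at hw1
        simp only [Finset.mem_insert, Finset.mem_union] at hw1
        rcases hw1 with e | e | e | e
        · exact Or.inl e
        · exact Or.inr (Or.inl e)
        · exact absurd (by rw [gA w e, ha1]) hw2
        · exact Or.inr (Or.inr e)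
    refine (Finset.card_le_card hsub).trans ((Finset.card_insert_le _ _).trans ?_)
    have := Finset.card_insert_le (-w₀) B
    omega
  have hapos : 0 < a := by
    rcases ha0.lt_or_eq with e | e
    · exact e
    · exact absurd (by rw [ha, ← e]; simp) ha1
  have hbpos : 0 < b := by
    rcases hb0.lt_or_eq with e | e
    · exact e
    · exact absurd (by rw [hb, ← e]; simp) hb1
  have hm : 1 ≤ A.card := by
    obtain ⟨w, hw, hw'⟩ := h.next w₀ h0 ha1
    exact Finset.card_pos.mpr ⟨w, Finset.mem_filter.mpr ⟨hw, hw'⟩⟩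
  have hn : 1 ≤ B.card := by
    obtain ⟨w, hw, hw'⟩ := h.next (-w₀) h0' hb1
    exact Finset.card_pos.mpr ⟨w, Finset.mem_filter.mpr ⟨hw, hw'⟩⟩
  have := fin1_arith hapos hbpos hm hn key3 key2
  refine (Finset.card_le_card (Finset.filter_subset _ _)).trans ?_
  rw [hcard]
  omega

end Pool.BS79
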