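import Pool.Agent.BS79.FinB

set_option autoImplicit false
set_option linter.unusedSectionVars false

/-!
# BS79/Fin2: exactly two pairs

The pairs are `±w₀`, `±w₁` (`hall`).  Let `S` be the elements `w` with `-w ∉ W`.
The sum of `g` over the four paired elements is `2 L` (`sum`), so `low` and `up2` (`¬ Three W` from `hall`) give
`∑_S g ≤ ∑_{IsoW} g` (cancel `2 L ≠ ⊤`), and as the `IsoW` elements are in `S`, every `c ∈ S` with `g c ≠ 0` is `IsoW`.
An `IsoW` element `c` has a paired `w` (one of `±w₀, ±w₁`) such that the open half plane `0 < ⟪J w, ·⟫` contains exactly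
two elements of `W`, one of them `c`.  The other pair has exactly one element in this half plane (`side`, `Jneg`), so
`c` is the only element of `S` in this half plane.  If there were three different `IsoW` elements of `S`, the three
half planes would be three different ones of the four half planes of `w₀, -w₀, w₁, -w₁`, so two of them would be
opposite, and every element of `S` is in one of them (`side`), so `S` would have at most two elements.
-/

namespace Pool.BS79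

open scoped RealInnerProductSpace ENNReal

variable {E : Type} [NormedAddCommGroup E] [InnerProductSpace ℝ E]

open Classical in
theorem fin2_uniq {W : Finset E} {J : E → E} {g : E → ℝ≥0∞} {L T : ℝ≥0∞} (h : FD W J g L T) {w x c c' : E}
    (hw : w ∈ W) (hx : x ∈ W) (hx' : -x ∈ W) (hxw : x ≠ w) (hxw' : x ≠ -w)
    (hcard : (W.filter fun y => 0 < ⟪J w, y⟫).card = 2)
    (hc : c ∈ W) (hcn : -c ∉ W) (hcp : 0 < ⟪J w, c⟫)
    (hc' : c' ∈ W) (hcn' : -c' ∉ W) (hcp' : 0 < ⟪J w, c'⟫) : c = c' := by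
  by_contra hne
  obtain ⟨y, hy, hyn, hyp⟩ : ∃ y ∈ W, -y ∈ W ∧ 0 < ⟪J w, y⟫ := by
    rcases lt_or_gt_of_ne (h.side w hw x hx hxw hxw') with hlt | hgt
    · refine ⟨-x, hx', by rwa [neg_neg], ?_⟩
      rw [inner_neg_right]; linarith
    · exact ⟨x, hx, hx', hgt⟩
  have h1 : y ≠ c := by rintro rfl; exact hcn hyn
  have h2 : y ≠ c' := by rintro rfl; exact hcn' hyn
  have hsub : ({y, c, c'} : Finset E) ⊆ W.filter fun y => 0 < ⟪J w, y⟫ := by
    intro z hz
    simp only [Finset.mem_insert, Finset.mem_singleton] at hz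
    rw [Finset.mem_filter]
    rcases hz with rfl | rfl | rfl
    · exact ⟨hy, hyp⟩
    · exact ⟨hc, hcp⟩
    · exact ⟨hc', hcp'⟩
  have hcard3 : ({y, c, c'} : Finset E).card = 3 :=
    Finset.card_eq_three.mpr ⟨y, c, c', h1, h2, hne, rfl⟩
  have := Finset.card_le_card hsub
  omega

/-- two opposite paired directions with unique single elements: there are at most two single elements -/
theorem fin2_opp {W : Finset E} {J : E → E} {g : E → ℝ≥0∞} {L T : ℝ≥0∞} (h : FD W J g L T) {w a b c : E}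
    (hw : w ∈ W) (hwn : -w ∈ W)
    (ua : ∀ z ∈ W, -z ∉ W → 0 < ⟪J w, z⟫ → z = a)
    (ub : ∀ z ∈ W, -z ∉ W → 0 < ⟪J (-w), z⟫ → z = b)
    (hc : c ∈ W) (hcn : -c ∉ W) : c = a ∨ c = b := by
  have h1 : c ≠ w := by rintro rfl; exact hcn hwn
  have h2 : c ≠ -w := by rintro rfl; rw [neg_neg] at hcn; exact hcn hw
  rcases lt_or_gt_of_ne (h.side w hw c hc h1 h2) with hlt | hgt
  · right
    refine ub c hc hcn ?_
    rw [h.Jneg, inner_neg_left]; linarith
  · left
    exact ua c hc hcn hgt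

open Classical in
theorem fin2_card {W : Finset E} {J : E → E} {g : E → ℝ≥0∞} {L T : ℝ≥0∞} (h : FD W J g L T) {w₀ w₁ : E}
    (h0 : w₀ ∈ W) (h0' : -w₀ ∈ W) (h1 : w₁ ∈ W) (h1' : -w₁ ∈ W) (hne : w₁ ≠ w₀) (hne' : w₁ ≠ -w₀)
    (hall : ∀ w ∈ W, -w ∈ W → w = w₀ ∨ w = -w₀ ∨ w = w₁ ∨ w = -w₁) :
    (W.filter fun c => IsoW W J c).card ≤ 2 := by
  by_contra hlt
  push Not at hlt
  obtain ⟨a, ha, b, hb, c, hc, hab, hac, hbc⟩ := Finset.two_lt_card.mp hlt
  rw [Finset.mem_filter] at ha hb hc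
  obtain ⟨haW, han, wa, hwa, hwan, hap, hacard⟩ := ha
  obtain ⟨hbW, hbn, wb, hwb, hwbn, hbp, hbcard⟩ := hb
  obtain ⟨hcW, hcn, wc, hwc, hwcn, hcp, hccard⟩ := hc
  -- the other pair
  have other : ∀ w ∈ W, -w ∈ W → ∃ x ∈ W, -x ∈ W ∧ x ≠ w ∧ x ≠ -w := by
    intro w hw hwn
    rcases hall w hw hwn with rfl | rfl | rfl | rfl
    · exact ⟨w₁, h1, h1', hne, hne'⟩
    · exact ⟨w₁, h1, h1', hne', by rwa [neg_neg]⟩
    · exact ⟨w₀, h0, h0', hne.symm, fun hh => hne' (by rw [hh, neg_neg])⟩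
    · exact ⟨w₀, h0, h0', fun hh => hne' (by rw [hh, neg_neg]), by rw [neg_neg]; exact hne.symm⟩
  have uniq : ∀ w ∈ W, -w ∈ W → (W.filter fun y => 0 < ⟪J w, y⟫).card = 2 → ∀ z ∈ W, -z ∉ W → 0 < ⟪J w, z⟫ →
      ∀ z' ∈ W, -z' ∉ W → 0 < ⟪J w, z'⟫ → z = z' := by
    intro w hw hwn hcard z hz hzn hzp z' hz' hzn' hzp'
    obtain ⟨x, hx, hx', hxw, hxw'⟩ := other w hw hwn
    exact fin2_uniq h hw hx hx' hxw hxw' hcard hz hzn hzp hz' hzn' hzp'
  have ua := fun z hz hzn hzp => uniq wa hwa hwan hacard z hz hzn hzp a haW han hap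
  have ub := fun z hz hzn hzp => uniq wb hwb hwbn hbcard z hz hzn hzp b hbW hbn hbp
  have uc := fun z hz hzn hzp => uniq wc hwc hwcn hccard z hz hzn hzp c hcW hcn hcp
  have nab : wa ≠ wb := by rintro rfl; exact hab (ub a haW han hap)
  have nac : wa ≠ wc := by rintro rfl; exact hac (uc a haW han hap)
  have nbc : wb ≠ wc := by rintro rfl; exact hbc (uc b hbW hbn hbp)
  -- no two of them are opposite
  have oab : wb ≠ -wa := by
    rintro rfl
    rcases fin2_opp h hwa hwan ua ub hcW hcn with hh | hh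
    · exact hac hh.symm
    · exact hbc hh.symm
  have oac : wc ≠ -wa := by
    rintro rfl
    rcases fin2_opp h hwa hwan ua uc hbW hbn with hh | hh
    · exact hab hh.symm
    · exact hbc hh
  have obc : wc ≠ -wb := by
    rintro rfl
    rcases fin2_opp h hwb hwbn ub uc haW han with hh | hh
    · exact hab hh
    · exact hac hh
  -- pigeonhole
  have cls : ∀ w ∈ W, -w ∈ W → (w = w₀ ∨ w = -w₀) ∨ (w = w₁ ∨ w = -w₁) := by
    intro w hw hwn
    rcases hall w hw hwn with hh | hh | hh | hh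
    · exact Or.inl (Or.inl hh)
    · exact Or.inl (Or.inr hh)
    · exact Or.inr (Or.inl hh)
    · exact Or.inr (Or.inr hh)
  have same : ∀ p q r : E, (p = r ∨ p = -r) → (q = r ∨ q = -r) → p = q ∨ q = -p := by
    intro p q r hp hq
    rcases hp with rfl | rfl <;> rcases hq with rfl | rfl
    · exact Or.inl rfl
    · exact Or.inr rfl
    · exact Or.inr (by rw [neg_neg])
    · exact Or.inl rfl
  have fin : ∀ p q : E, (p = q ∨ q = -p) → p ≠ q → q ≠ -p → False := by
    intro p q hh h1 h2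
    rcases hh with hh | hh
    · exact h1 hh
    · exact h2 hh
  rcases cls wa hwa hwan with ca | ca <;> rcases cls wb hwb hwbn with cb | cb <;>
    rcases cls wc hwc hwcn with cc | cc
  · exact fin _ _ (same _ _ _ ca cb) nab oab
  · exact fin _ _ (same _ _ _ ca cb) nab oab
  · exact fin _ _ (same _ _ _ ca cc) nac oac
  · exact fin _ _ (same _ _ _ cb cc) nbc obc
  · exact fin _ _ (same _ _ _ cb cc) nbc obc
  · exact fin _ _ (same _ _ _ ca cc) nac oac
  · exact fin _ _ (same _ _ _ ca cb) nab oab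
  · exact fin _ _ (same _ _ _ ca cb) nab oab

theorem fin2_notThree {W : Finset E} {w₀ w₁ : E}
    (hall : ∀ w ∈ W, -w ∈ W → w = w₀ ∨ w = -w₀ ∨ w = w₁ ∨ w = -w₁) : ¬ Three W := by
  rintro ⟨w, hw, hd⟩
  have cls : ∀ i, (w i = w₀ ∨ w i = -w₀) ∨ (w i = w₁ ∨ w i = -w₁) := by
    intro i
    rcases hall (w i) (hw i).1 (hw i).2 with hh | hh | hh | hh
    · exact Or.inl (Or.inl hh)
    · exact Or.inl (Or.inr hh)
    · exact Or.inr (Or.inl hh)
    · exact Or.inr (Or.inr hh)
  have same : ∀ i j : Fin 3, i ≠ j → ∀ r : E, (w i = r ∨ w i = -r) → (w j = r ∨ w j = -r) → False := by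
    intro i j hij r hp hq
    obtain ⟨d1, d2⟩ := hd i j hij
    rcases hp with hp | hp <;> rcases hq with hq | hq
    · exact d1 (hp.trans hq.symm)
    · exact d2 (by rw [hp, hq, neg_neg])
    · exact d2 (by rw [hp, hq])
    · exact d1 (hp.trans hq.symm)
  have n01 : (0 : Fin 3) ≠ 1 := by decide
  have n02 : (0 : Fin 3) ≠ 2 := by decide
  have n12 : (1 : Fin 3) ≠ 2 := by decide
  rcases cls 0 with ca | ca <;> rcases cls 1 with cb | cb <;> rcases cls 2 with cc | cc
  · exact same _ _ n01 _ ca cb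
  · exact same _ _ n01 _ ca cb
  · exact same _ _ n02 _ ca cc
  · exact same _ _ n12 _ cb cc
  · exact same _ _ n12 _ cb cc
  · exact same _ _ n02 _ ca cc
  · exact same _ _ n01 _ ca cb
  · exact same _ _ n01 _ ca cb

open Classical in
theorem fin2 {W : Finset E} {J : E → E} {g : E → ℝ≥0∞} {L T : ℝ≥0∞} (h : FD W J g L T) {w₀ w₁ : E}
    (h0 : w₀ ∈ W) (h0' : -w₀ ∈ W) (h1 : w₁ ∈ W) (h1' : -w₁ ∈ W) (hne : w₁ ≠ w₀) (hne' : w₁ ≠ -w₀)
    (hall : ∀ w ∈ W, -w ∈ W → w = w₀ ∨ w = -w₀ ∨ w = w₁ ∨ w = -w₁) :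
    (W.filter fun w => -w ∈ W ∨ g w ≠ 0).card ≤ 6 := by
  have d1 : w₀ ≠ -w₀ := h.ne w₀ h0
  have d2 : w₁ ≠ -w₁ := h.ne w₁ h1
  have d3 : -w₀ ≠ w₁ := fun hh => hne' hh.symm
  have d4 : w₀ ≠ -w₁ := fun hh => hne' (by rw [hh, neg_neg])
  have d5 : -w₀ ≠ -w₁ := fun hh => hne (neg_injective hh).symm
  set P : Finset E := {w₀, -w₀, w₁, -w₁} with hP
  have hPW : P ⊆ W := by
    intro z hz
    simp only [hP, Finset.mem_insert, Finset.mem_singleton] at hz
    rcases hz with rfl | rfl | rfl | rfl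
    · exact h0
    · exact h0'
    · exact h1
    · exact h1'
  have hmemP : ∀ w ∈ W, -w ∈ W → w ∈ P := by
    intro w hw hwn
    simp only [hP, Finset.mem_insert, Finset.mem_singleton]
    exact hall w hw hwn
  have hPcard : P.card ≤ 4 := Finset.card_le_four
  have hPsum : ∑ w ∈ P, g w = 2 * L := by
    rw [hP, Finset.sum_insert, Finset.sum_insert, Finset.sum_insert, Finset.sum_singleton]
    · rw [← add_assoc, h.sum w₀ h0, h.sum w₁ h1, two_mul]
    · simp only [Finset.mem_singleton]; exact d2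
    · simp only [Finset.mem_insert, Finset.mem_singleton, not_or]; exact ⟨d3, d5⟩
    · simp only [Finset.mem_insert, Finset.mem_singleton, not_or]; exact ⟨d1, hne.symm, d4⟩
  set I : Finset E := W.filter (fun c => IsoW W J c) with hI
  have hIcard : I.card ≤ 2 := fin2_card h h0 h0' h1 h1' hne hne' hall
  have hIW : I ⊆ W \ P := by
    intro z hz
    rw [hI, Finset.mem_filter] at hz
    rw [Finset.mem_sdiff]
    refine ⟨hz.1, fun hzP => hz.2.1 ?_⟩
    simp only [hP, Finset.mem_insert, Finset.mem_singleton] at hzP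
    rcases hzP with rfl | rfl | rfl | rfl
    · exact h0'
    · rwa [neg_neg]
    · exact h1'
    · rwa [neg_neg]
  have hlow := h.low
  have hup := h.up2 (fin2_notThree hall)
  have hsplit : ∑ w ∈ W, g w = ∑ w ∈ W \ P, g w + 2 * L := by
    rw [← hPsum]; exact (Finset.sum_sdiff hPW).symm
  have hsplit2 : ∑ w ∈ W \ P, g w = ∑ w ∈ (W \ P) \ I, g w + ∑ w ∈ I, g w :=
    (Finset.sum_sdiff hIW).symm
  have hLf : 2 * L ≠ ⊤ := ENNReal.mul_ne_top (by norm_num) h.Lf
  have gfin : ∀ w ∈ W, g w ≠ ⊤ := by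
    intro w hw hh
    have := h.sum w hw
    rw [hh, top_add] at this
    exact h.Lf this.symm
  have hIf : ∑ w ∈ I, g w ≠ ⊤ := by
    rw [ENNReal.sum_ne_top]
    intro w hw
    exact gfin w (Finset.mem_sdiff.mp (hIW hw)).1
  have hz : ∑ w ∈ (W \ P) \ I, g w = 0 := by
    have h2 : ∑ w ∈ (W \ P) \ I, g w + (∑ w ∈ I, g w + 2 * L) ≤ 0 + (∑ w ∈ I, g w + 2 * L) := by
      calc ∑ w ∈ (W \ P) \ I, g w + (∑ w ∈ I, g w + 2 * L) = ∑ w ∈ W, g w := by
            rw [hsplit, hsplit2, add_assoc]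
        _ ≤ T := hlow
        _ ≤ 2 * L + ∑ w ∈ I, g w := hup
        _ = 0 + (∑ w ∈ I, g w + 2 * L) := by rw [zero_add, add_comm]
    have h3 := (ENNReal.add_le_add_iff_right (ENNReal.add_ne_top.mpr ⟨hIf, hLf⟩)).mp h2
    exact le_antisymm h3 zero_le
  have hz' : ∀ w ∈ (W \ P) \ I, g w = 0 := fun w hw => (Finset.sum_eq_zero_iff.mp hz) w hw
  have hsub : (W.filter fun w => -w ∈ W ∨ g w ≠ 0) ⊆ P ∪ I := by
    intro w hw
    rw [Finset.mem_filter] at hw
    rw [Finset.mem_union]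
    rcases hw with ⟨hwW, hwn | hg⟩
    · exact Or.inl (hmemP w hwW hwn)
    · by_cases hwP : w ∈ P
      · exact Or.inl hwP
      · right
        by_contra hwI
        exact hg (hz' w (Finset.mem_sdiff.mpr ⟨Finset.mem_sdiff.mpr ⟨hwW, hwP⟩, hwI⟩))
  calc (W.filter fun w => -w ∈ W ∨ g w ≠ 0).card ≤ (P ∪ I).card := Finset.card_le_card hsub
    _ ≤ P.card + I.card := Finset.card_union_le _ _
    _ ≤ 6 := by omega

end Pool.BS79
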