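import Pool.Agent.BS79.FinB

set_option autoImplicit false
set_option linter.unusedSectionVars false

/-!
# BS79/Fin3: three pairs, and no pairs

`fin3`: the six elements `w i`, `-w i` are different (`ne`, hypothesis); their `g`-sum is `3 L` (`sum`), so by `low` and
`up3` (`L ≠ ⊤`) the sum of `g` over the other elements of `W` is zero.  If `w ∈ W` is not one of the six then `g w = 0`,
and `-w ∉ W`: otherwise also `g (-w) = 0` and `sum` gives `L = 0`.  So the filter is contained in the six.
`fin0`: no pair: there is no `IsoW`, `g w + g w = L` for all `w ∈ W` (`zero`, `sum`), so `low` and `up2` give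
`|W| (L/2) ≤ 2 L`, `|W| ≤ 4`.
-/

namespace Pool.BS79

open scoped RealInnerProductSpace ENNReal

variable {E : Type} [NormedAddCommGroup E] [InnerProductSpace ℝ E]

open Classical in
theorem fin3 {W : Finset E} {J : E → E} {g : E → ℝ≥0∞} {L T : ℝ≥0∞} (h : FD W J g L T) (h3 : Three W) :
    (W.filter fun w => -w ∈ W ∨ g w ≠ 0).card ≤ 6 := by
  obtain ⟨w, hw, hne⟩ := h3
  have hinj : Function.Injective w := by
    intro i j hij
    by_contra hc
    exact (hne i j hc).1 hij
  have hinj' : Function.Injective (fun i => -w i) := by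
    intro i j hij
    exact hinj (neg_injective hij)
  let S : Finset E := (Finset.univ.image w) ∪ (Finset.univ.image fun i => -w i)
  have hdisj : Disjoint (Finset.univ.image w) (Finset.univ.image fun i => -w i) := by
    rw [Finset.disjoint_left]
    intro x hx hx'
    simp only [Finset.mem_image, Finset.mem_univ, true_and] at hx hx'
    obtain ⟨i, rfl⟩ := hx
    obtain ⟨j, hj⟩ := hx'
    by_cases hij : i = j
    · subst hij
      exact h.ne (w i) (hw i).1 hj.symm
    · exact (hne i j hij).2 hj.symm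
  have hSW : S ⊆ W := by
    intro x hx
    simp only [S, Finset.mem_union, Finset.mem_image, Finset.mem_univ, true_and] at hx
    rcases hx with ⟨i, rfl⟩ | ⟨i, rfl⟩
    · exact (hw i).1
    · exact (hw i).2
  have hSneg : ∀ x, -x ∈ S → x ∈ S := by
    intro x hx
    simp only [S, Finset.mem_union, Finset.mem_image, Finset.mem_univ, true_and] at hx ⊢
    rcases hx with ⟨i, hi⟩ | ⟨i, hi⟩
    · right
      exact ⟨i, by rw [hi, neg_neg]⟩
    · left
      exact ⟨i, neg_injective hi⟩
  have hS : ∑ x ∈ S, g x = 3 * L := by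
    rw [Finset.sum_union hdisj, Finset.sum_image (fun i _ j _ hij => hinj hij),
      Finset.sum_image (fun i _ j _ hij => hinj' hij), ← Finset.sum_add_distrib,
      Finset.sum_congr rfl (fun i _ => h.sum (w i) (hw i).1)]
    simp
  have hrest : ∑ x ∈ W \ S, g x = 0 := by
    have h1 : ∑ x ∈ W \ S, g x + ∑ x ∈ S, g x = ∑ x ∈ W, g x := Finset.sum_sdiff hSW
    have h2 : ∑ x ∈ W \ S, g x + 3 * L ≤ 0 + 3 * L := by
      rw [← hS, h1, hS, zero_add]
      exact h.low.trans h.up3
    have h3 : (3 : ℝ≥0∞) * L ≠ ⊤ := ENNReal.mul_ne_top (by norm_num) h.Lf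
    exact le_antisymm ((ENNReal.add_le_add_iff_right h3).1 h2) bot_le
  have hz : ∀ x ∈ W, x ∉ S → g x = 0 := by
    intro x hx hxS
    exact (Finset.sum_eq_zero_iff.1 hrest) x (Finset.mem_sdiff.2 ⟨hx, hxS⟩)
  have hsub : (W.filter fun w => -w ∈ W ∨ g w ≠ 0) ⊆ S := by
    intro x hx
    rw [Finset.mem_filter] at hx
    by_contra hxS
    have h1 := hz x hx.1 hxS
    rcases hx.2 with h2 | h2
    · have h3 := hz (-x) h2 (fun hc => hxS (hSneg x hc))
      have h4 := h.sum x hx.1
      rw [h1, h3, add_zero] at h4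
      exact h.L0 h4.symm
    · exact h2 h1
  calc (W.filter fun w => -w ∈ W ∨ g w ≠ 0).card ≤ S.card := Finset.card_le_card hsub
    _ ≤ (Finset.univ.image w).card + (Finset.univ.image fun i => -w i).card :=
        Finset.card_union_le _ _
    _ ≤ 3 + 3 := Nat.add_le_add
        (Finset.card_image_le.trans (by simp)) (Finset.card_image_le.trans (by simp))

theorem fin0 {W : Finset E} {J : E → E} {g : E → ℝ≥0∞} {L T : ℝ≥0∞} (h : FD W J g L T)
    (h0 : ∀ w ∈ W, -w ∉ W) : W.card ≤ 4 := by
  classical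
  have hn3 : ¬ Three W := by
    rintro ⟨w, hw, -⟩
    exact h0 _ (hw 0).1 (hw 0).2
  have hiso : (W.filter fun c => IsoW W J c) = ∅ := by
    rw [Finset.filter_eq_empty_iff]
    intro c _ hc
    obtain ⟨-, w0, hw0, hw0', -⟩ := hc
    exact h0 w0 hw0 hw0'
  have hT : T ≤ 2 * L := by
    have h1 := h.up2 hn3
    have h2 : ∑ w ∈ W.filter (fun c => IsoW W J c), g w = 0 := by
      rw [hiso, Finset.sum_empty]
    calc T ≤ 2 * L + ∑ w ∈ W.filter (fun c => IsoW W J c), g w := by
          convert h1
      _ = 2 * L := by rw [h2, add_zero]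
  have hg : ∀ w ∈ W, g w + g w = L := by
    intro w hw
    have h1 := h.sum w hw
    rw [h.zero h0 w hw] at h1
    exact h1
  have h1 : (W.card : ℝ≥0∞) * L ≤ 4 * L := by
    calc (W.card : ℝ≥0∞) * L = ∑ w ∈ W, (g w + g w) := by
          rw [Finset.sum_congr rfl hg, Finset.sum_const, nsmul_eq_mul]
      _ = ∑ w ∈ W, g w + ∑ w ∈ W, g w := Finset.sum_add_distrib
      _ ≤ 2 * L + 2 * L := add_le_add (h.low.trans hT) (h.low.trans hT)
      _ = 4 * L := by rw [← add_mul]; norm_num
  have h2 : (W.card : ℝ≥0∞) ≤ 4 := (ENNReal.mul_le_mul_iff_left h.L0 h.Lf).1 h1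
  exact_mod_cast h2

end Pool.BS79
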