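import Mathlib

set_option autoImplicit false
set_option linter.unusedSectionVars false

/-!
# BS79/FinB: the finite combinatorial data of a belt

`W` = facet normals in the plane, `J` = rotation by 90 degrees, `g w` = measure of the ridge on the positive side of
`w`, `L` = the invariant, `T` = the total.
-/

namespace Pool.BS79

open scoped RealInnerProductSpace ENNReal

variable {E : Type} [NormedAddCommGroup E] [InnerProductSpace ℝ E]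

/-- three pairs -/
def Three (W : Finset E) : Prop :=
  ∃ w : Fin 3 → E, (∀ i, w i ∈ W ∧ -w i ∈ W) ∧ ∀ i j, i ≠ j → w i ≠ w j ∧ w i ≠ -w j

open Classical in
/-- the isolated single elements -/
def IsoW (W : Finset E) (J : E → E) (c : E) : Prop :=
  -c ∉ W ∧ ∃ w₀ ∈ W, -w₀ ∈ W ∧ 0 < ⟪J w₀, c⟫ ∧ (W.filter fun w => 0 < ⟪J w₀, w⟫).card = 2

open Classical in
structure FD (W : Finset E) (J : E → E) (g : E → ℝ≥0∞) (L T : ℝ≥0∞) : Prop where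
  L0 : L ≠ 0
  Lf : L ≠ ⊤
  ne : ∀ w ∈ W, w ≠ -w
  Jneg : ∀ w, J (-w) = -J w
  Jself : ∀ w ∈ W, ⟪J w, w⟫ = 0
  side : ∀ w₀ ∈ W, ∀ w ∈ W, w ≠ w₀ → w ≠ -w₀ → ⟪J w₀, w⟫ ≠ 0
  sum : ∀ w ∈ W, g w + g (-w) = L
  low : ∑ w ∈ W, g w ≤ T
  up3 : T ≤ 3 * L
  up2 : ¬ Three W → T ≤ 2 * L + ∑ w ∈ W.filter (fun c => IsoW W J c), g w
  arc : ∀ w₀ ∈ W, (∀ w ∈ W, 0 < ⟪J w₀, w⟫ → -w ∉ W) → ∀ c ∈ W, 0 < ⟪J w₀, c⟫ → g c = g w₀
  zero : (∀ w ∈ W, -w ∉ W) → ∀ w ∈ W, g (-w) = g w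
  next : ∀ w₀ ∈ W, g w₀ ≠ 0 → ∃ w ∈ W, 0 < ⟪J w₀, w⟫

end Pool.BS79
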