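import Pool.Agent.BS79.FinB

set_option autoImplicit false
set_option linter.unusedSectionVars false

/-!
# BS79/FinM: extended combinatorial data (both sides of a direction)
-/

namespace Pool.BS79

open scoped RealInnerProductSpace ENNReal

variable {E : Type} [NormedAddCommGroup E] [InnerProductSpace ℝ E]

/-- `w` is in the belt -/
def InB (g gm : E → ℝ≥0∞) (w : E) : Prop := g w ≠ 0 ∨ gm w ≠ 0

structure FM (W : Finset E) (J : E → E) (g gm : E → ℝ≥0∞) (L : ℝ≥0∞) : Prop where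
  gmsum : ∀ w ∈ W, gm w + gm (-w) = L
  single : ∀ w ∈ W, -w ∉ W → gm w = g w
  arcp : ∀ w₀ ∈ W, ∀ c ∈ W, -c ∉ W → 0 < ⟪J w₀, c⟫ →
    (∀ z ∈ W, -z ∈ W → 0 < ⟪J w₀, z⟫ → ¬ 0 < ⟪J z, c⟫) → g c = g w₀
  arcm : ∀ w₀ ∈ W, ∀ c ∈ W, 0 < ⟪J c, w₀⟫ →
    (∀ z ∈ W, -z ∈ W → 0 < ⟪J c, z⟫ → ¬ 0 < ⟪J z, w₀⟫) → g c = gm w₀
  anti : ∀ x y : E, ⟪J x, y⟫ = -⟪J y, x⟫

open Classical in
/-- on both sides of `± w₀` there are at most two elements of the belt -/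
def SideOK (W : Finset E) (J : E → E) (g gm : E → ℝ≥0∞) (w₀ : E) : Prop :=
  (W.filter fun w => InB g gm w ∧ 0 < ⟪J w₀, w⟫).card ≤ 2 ∧
  (W.filter fun w => InB g gm w ∧ 0 < ⟪J (-w₀), w⟫).card ≤ 2

/-- a pair in the belt with at most two elements of the belt on each side -/
def GoodPair (W : Finset E) (J : E → E) (g gm : E → ℝ≥0∞) : Prop :=
  ∃ w₀ ∈ W, -w₀ ∈ W ∧ InB g gm w₀ ∧ InB g gm (-w₀) ∧ SideOK W J g gm w₀

end Pool.BS79
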