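import Pool.Agent.BS79.FinM
import Pool.Agent.BS79.Fin1

set_option autoImplicit false
set_option linter.unusedSectionVars false

/-!
# BS79/FinS1: sides of a pair, exactly one pair

The given pair `± z` of the belt is the only pair `± w₀`.  As in `fin1` (copy the proof): with `α = g w₀`, `β = g (-w₀)`,
`m`, `n` the numbers of elements of `W` on the two sides: if both are nonzero, `m, n ≤ 2`; if `β = 0` then `m ≤ 2` and the
elements on the other side have `g = β = 0`, so (`single`) they are not in the belt.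
-/

namespace Pool.BS79

open scoped RealInnerProductSpace ENNReal

variable {E : Type} [NormedAddCommGroup E] [InnerProductSpace ℝ E]

/-- the arithmetic of `finS1`: the last case -/
private theorem finS1_arith {a b : ℝ} (ha : 0 < a) (hb : 0 < b) {m n : ℕ} (hm : 1 ≤ m) (hn : 1 ≤ n)
    (h3 : (m : ℝ) * a + n * b ≤ 2 * (a + b))
    (h2 : m ≠ 2 → n ≠ 2 → (m : ℝ) * a + n * b ≤ a + b) : m ≤ 2 ∧ n ≤ 2 := by
  have hm1 : (1 : ℝ) ≤ m := by exact_mod_cast hm
  have hn1 : (1 : ℝ) ≤ n := by exact_mod_cast hn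
  constructor
  · by_contra hc
    have hm3' : (3 : ℝ) ≤ m := by exact_mod_cast (by omega : 3 ≤ m)
    by_cases hn2 : n = 2
    · have : (n : ℝ) = 2 := by exact_mod_cast hn2
      rw [this] at h3
      nlinarith
    · have := h2 (by omega) hn2
      nlinarith
  · by_contra hc
    have hn3' : (3 : ℝ) ≤ n := by exact_mod_cast (by omega : 3 ≤ n)
    by_cases hm2 : m = 2
    · have : (m : ℝ) = 2 := by exact_mod_cast hm2
      rw [this] at h3
      nlinarith
    · have := h2 hm2 (by omega)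
      nlinarith

open Classical in
private theorem finS1_split {W : Finset E} {J : E → E} {g : E → ℝ≥0∞} {L T : ℝ≥0∞} (h : FD W J g L T) {w₀ : E}
    (h0 : w₀ ∈ W) (h0' : -w₀ ∈ W) :
    W = insert w₀ (insert (-w₀) ((W.filter fun w => 0 < ⟪J w₀, w⟫) ∪ (W.filter fun w => 0 < ⟪J (-w₀), w⟫))) := by
  ext w
  simp only [Finset.mem_insert, Finset.mem_union, Finset.mem_filter]
  constructor
  · intro hw
    by_cases h1 : w = w₀
    · exact Or.inl h1
    by_cases h2 : w = -w₀
    · exact Or.inr (Or.inl h2)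
    refine Or.inr (Or.inr ?_)
    rcases lt_or_gt_of_ne (h.side w₀ h0 w hw h1 h2) with h3 | h3
    · right
      refine ⟨hw, ?_⟩
      rw [h.Jneg, inner_neg_left]
      linarith
    · exact Or.inl ⟨hw, h3⟩
  · rintro (rfl | rfl | ⟨hw, -⟩ | ⟨hw, -⟩)
    · exact h0
    · exact h0'
    · exact hw
    · exact hw

theorem finS1 {W : Finset E} {J : E → E} {g gm : E → ℝ≥0∞} {L T : ℝ≥0∞} (h : FD W J g L T)
    (hm : FM W J g gm L) {w₀ : E}
    (h0 : w₀ ∈ W) (h0' : -w₀ ∈ W) (hall : ∀ w ∈ W, -w ∈ W → w = w₀ ∨ w = -w₀) {z : E} (hz : z ∈ W)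
    (hz' : -z ∈ W) (hb : InB g gm z) (hb' : InB g gm (-z)) : GoodPair W J g gm := by
  classical
  have hI : InB g gm w₀ ∧ InB g gm (-w₀) := by
    rcases hall z hz hz' with e | e
    · rw [e] at hb hb'; exact ⟨hb, hb'⟩
    · rw [e] at hb hb'; rw [neg_neg] at hb'; exact ⟨hb', hb⟩
  refine ⟨w₀, h0, h0', hI.1, hI.2, ?_⟩
  clear hb hb' hz hz' hI
  set A := W.filter fun w => 0 < ⟪J w₀, w⟫ with hA
  set B := W.filter fun w => 0 < ⟪J (-w₀), w⟫ with hB
  have hW : W = insert w₀ (insert (-w₀) (A ∪ B)) := finS1_split h h0 h0'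
  have hs0 : ⟪J w₀, w₀⟫ = 0 := h.Jself w₀ h0
  have hA0 : w₀ ∉ A := by
    intro hc; have := (Finset.mem_filter.mp hc).2; rw [hs0] at this; exact lt_irrefl _ this
  have hA1 : -w₀ ∉ A := by
    intro hc; have := (Finset.mem_filter.mp hc).2; rw [inner_neg_right, hs0] at this; simp at this
  have hB0 : w₀ ∉ B := by
    intro hc; have := (Finset.mem_filter.mp hc).2
    rw [h.Jneg, inner_neg_left, hs0] at this; simp at this
  have hB1 : -w₀ ∉ B := by
    intro hc; have := (Finset.mem_filter.mp hc).2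
    rw [h.Jneg, inner_neg_left, inner_neg_right, hs0] at this; simp at this
  have hAB : Disjoint A B := by
    rw [Finset.disjoint_left]
    intro w hw hw'
    have h1 := (Finset.mem_filter.mp hw).2
    have h2 := (Finset.mem_filter.mp hw').2
    rw [h.Jneg, inner_neg_left] at h2
    linarith
  have hne : w₀ ≠ -w₀ := h.ne w₀ h0
  have n1 : -w₀ ∉ A ∪ B := by simp only [Finset.mem_union]; tauto
  have n0 : w₀ ∉ insert (-w₀) (A ∪ B) := by simp only [Finset.mem_insert, Finset.mem_union]; tauto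
  have hcard : W.card = A.card + B.card + 2 := by
    rw [hW, Finset.card_insert_of_notMem n0, Finset.card_insert_of_notMem n1, Finset.card_union_of_disjoint hAB]
  have hAW : ∀ w ∈ W, 0 < ⟪J w₀, w⟫ → -w ∉ W := by
    intro w hw hpos hneg
    have hwA : w ∈ A := Finset.mem_filter.mpr ⟨hw, hpos⟩
    rcases hall w hw hneg with h1 | h1
    · rw [h1] at hwA; exact hA0 hwA
    · rw [h1] at hwA; exact hA1 hwA
  have hBW : ∀ w ∈ W, 0 < ⟪J (-w₀), w⟫ → -w ∉ W := by
    intro w hw hpos hneg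
    have hwB : w ∈ B := Finset.mem_filter.mpr ⟨hw, hpos⟩
    rcases hall w hw hneg with h1 | h1
    · rw [h1] at hwB; exact hB0 hwB
    · rw [h1] at hwB; exact hB1 hwB
  have gA : ∀ c ∈ A, g c = g w₀ := fun c hc =>
    h.arc w₀ h0 hAW c (Finset.mem_filter.mp hc).1 (Finset.mem_filter.mp hc).2
  have gB : ∀ c ∈ B, g c = g (-w₀) := fun c hc =>
    h.arc (-w₀) h0' hBW c (Finset.mem_filter.mp hc).1 (Finset.mem_filter.mp hc).2
  set α := g w₀ with hα
  set β := g (-w₀) with hβ
  have hL : α + β = L := h.sum w₀ h0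
  have hαf : α ≠ ⊤ := fun hc => h.Lf (by rw [← hL, hc]; simp)
  have hβf : β ≠ ⊤ := fun hc => h.Lf (by rw [← hL, hc]; simp)
  have hsum : ∑ w ∈ W, g w = L + (A.card * α + B.card * β) := by
    rw [hW, Finset.sum_insert n0, Finset.sum_insert n1, Finset.sum_union hAB, Finset.sum_congr rfl gA,
      Finset.sum_congr rfl gB, Finset.sum_const, Finset.sum_const, nsmul_eq_mul, nsmul_eq_mul, ← hL]
    ring
  -- real numbers
  obtain ⟨a, ha0, ha⟩ : ∃ a : ℝ, 0 ≤ a ∧ α = ENNReal.ofReal a :=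
    ⟨α.toReal, ENNReal.toReal_nonneg, (ENNReal.ofReal_toReal hαf).symm⟩
  obtain ⟨b, hb0, hb⟩ : ∃ b : ℝ, 0 ≤ b ∧ β = ENNReal.ofReal b :=
    ⟨β.toReal, ENNReal.toReal_nonneg, (ENNReal.ofReal_toReal hβf).symm⟩
  have key : ∀ k : ℕ, T ≤ (k + 1 : ℕ) * L → (A.card : ℝ) * a + B.card * b ≤ k * (a + b) := by
    intro k hk
    have h1 : L + (A.card * α + B.card * β) ≤ L + k * L := by
      rw [← hsum]
      refine (h.low.trans hk).trans (le_of_eq ?_)
      push_cast; ring
    have h2 : A.card * α + B.card * β ≤ k * L := (ENNReal.add_le_add_iff_left h.Lf).mp h1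
    have e1 : (A.card : ℝ≥0∞) * α + B.card * β = ENNReal.ofReal (A.card * a + B.card * b) := by
      rw [ENNReal.ofReal_add (mul_nonneg (Nat.cast_nonneg _) ha0) (mul_nonneg (Nat.cast_nonneg _) hb0),
        ENNReal.ofReal_mul (Nat.cast_nonneg _),
        ENNReal.ofReal_mul (Nat.cast_nonneg _), ENNReal.ofReal_natCast, ENNReal.ofReal_natCast, ← ha, ← hb]
    have e2 : (k : ℝ≥0∞) * L = ENNReal.ofReal (k * (a + b)) := by
      rw [ENNReal.ofReal_mul (Nat.cast_nonneg _), ENNReal.ofReal_add ha0 hb0, ENNReal.ofReal_natCast, ← ha, ← hb, hL]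
    rw [e1, e2] at h2
    exact (ENNReal.ofReal_le_ofReal_iff (mul_nonneg (Nat.cast_nonneg _) (add_nonneg ha0 hb0))).mp h2
  have key3 : (A.card : ℝ) * a + B.card * b ≤ 2 * (a + b) := by
    have := key 2 (by simpa using h.up3)
    simpa using this
  -- no three pairs
  have h3 : ¬ Three W := by
    rintro ⟨w, hw, hd⟩
    have e0 := hall (w 0) (hw 0).1 (hw 0).2
    have e1 := hall (w 1) (hw 1).1 (hw 1).2
    have d := hd 0 1 (by decide)
    rcases e0 with e0 | e0 <;> rcases e1 with e1 | e1 <;> rw [e0, e1] at d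
    · exact d.1 rfl
    · exact d.2 (neg_neg w₀).symm
    · exact d.2 rfl
    · exact d.1 rfl
  have key2 : A.card ≠ 2 → B.card ≠ 2 → (A.card : ℝ) * a + B.card * b ≤ a + b := by
    intro hm2 hn2
    have hempty : W.filter (fun c => IsoW W J c) = ∅ := by
      rw [Finset.filter_eq_empty_iff]
      rintro c hc ⟨-, w, hw, hw', -, h2⟩
      rcases hall w hw hw' with e | e
      · rw [e] at h2; exact hm2 h2
      · rw [e] at h2; exact hn2 h2
    have h4 := h.up2 h3
    rw [hempty, Finset.sum_empty, add_zero] at h4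
    have := key 1 (by simpa using h4)
    simpa using this
  have hab : 0 < a + b := by
    rcases (add_nonneg ha0 hb0).lt_or_eq with h1 | h1
    · exact h1
    · exfalso
      apply h.L0
      rw [← hL, ha, hb, ← ENNReal.ofReal_add ha0 hb0, ← h1]
      simp
  have hsA : (W.filter fun w => InB g gm w ∧ 0 < ⟪J w₀, w⟫) ⊆ A := by
    intro w hw
    obtain ⟨hw1, -, hw2⟩ := Finset.mem_filter.mp hw
    exact Finset.mem_filter.mpr ⟨hw1, hw2⟩
  have hsB : (W.filter fun w => InB g gm w ∧ 0 < ⟪J (-w₀), w⟫) ⊆ B := by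
    intro w hw
    obtain ⟨hw1, -, hw2⟩ := Finset.mem_filter.mp hw
    exact Finset.mem_filter.mpr ⟨hw1, hw2⟩
  by_cases hb1 : β = 0
  · have hb2 : b = 0 := by
      rw [hb, ENNReal.ofReal_eq_zero] at hb1; exact le_antisymm hb1 hb0
    have hA2 : (A.card : ℝ) ≤ 2 := by
      rw [hb2] at key3 hab
      simp only [mul_zero, add_zero] at key3 hab
      exact le_of_mul_le_mul_right key3 hab
    have hA2' : A.card ≤ 2 := by exact_mod_cast hA2
    refine ⟨(Finset.card_le_card hsA).trans hA2', ?_⟩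
    have hempty : (W.filter fun w => InB g gm w ∧ 0 < ⟪J (-w₀), w⟫) = ∅ := by
      rw [Finset.filter_eq_empty_iff]
      rintro w hw ⟨hwI, hwp⟩
      have hwB : w ∈ B := Finset.mem_filter.mpr ⟨hw, hwp⟩
      have e1 : g w = 0 := by rw [gB w hwB, hb1]
      have e2 : gm w = 0 := by rw [hm.single w hw (hBW w hw hwp), e1]
      rcases hwI with h1 | h1
      · exact h1 e1
      · exact h1 e2
    rw [hempty]; simp
  by_cases ha1 : α = 0
  · have ha2 : a = 0 := by
      rw [ha, ENNReal.ofReal_eq_zero] at ha1; exact le_antisymm ha1 ha0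
    have hB2 : (B.card : ℝ) ≤ 2 := by
      rw [ha2] at key3 hab
      simp only [mul_zero, zero_add] at key3 hab
      exact le_of_mul_le_mul_right key3 hab
    have hB2' : B.card ≤ 2 := by exact_mod_cast hB2
    refine ⟨?_, (Finset.card_le_card hsB).trans hB2'⟩
    have hempty : (W.filter fun w => InB g gm w ∧ 0 < ⟪J w₀, w⟫) = ∅ := by
      rw [Finset.filter_eq_empty_iff]
      rintro w hw ⟨hwI, hwp⟩
      have hwA : w ∈ A := Finset.mem_filter.mpr ⟨hw, hwp⟩
      have e1 : g w = 0 := by rw [gA w hwA, ha1]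
      have e2 : gm w = 0 := by rw [hm.single w hw (hAW w hw hwp), e1]
      rcases hwI with h1 | h1
      · exact h1 e1
      · exact h1 e2
    rw [hempty]; simp
  have hapos : 0 < a := by
    rcases ha0.lt_or_eq with e | e
    · exact e
    · exact absurd (by rw [ha, ← e]; simp) ha1
  have hbpos : 0 < b := by
    rcases hb0.lt_or_eq with e | e
    · exact e
    · exact absurd (by rw [hb, ← e]; simp) hb1
  have hmA : 1 ≤ A.card := by
    obtain ⟨w, hw, hw'⟩ := h.next w₀ h0 ha1
    exact Finset.card_pos.mpr ⟨w, Finset.mem_filter.mpr ⟨hw, hw'⟩⟩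
  have hnB : 1 ≤ B.card := by
    obtain ⟨w, hw, hw'⟩ := h.next (-w₀) h0' hb1
    exact Finset.card_pos.mpr ⟨w, Finset.mem_filter.mpr ⟨hw, hw'⟩⟩
  obtain ⟨h5, h6⟩ := finS1_arith hapos hbpos hmA hnB key3 key2
  exact ⟨(Finset.card_le_card hsA).trans h5, (Finset.card_le_card hsB).trans h6⟩

end Pool.BS79
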