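import Pool.Agent.BS79.FinM
import Pool.Agent.BS79.Fin2

set_option autoImplicit false
set_option linter.unusedSectionVars false

/-!
# BS79/FinS2: sides of a pair, exactly two pairs

The pairs are `± w₀`, `± w₁`; `S⁺` = the elements `c` of `W` with `-c ∉ W` and `g c ≠ 0` (equivalently in the belt, `single`).
As in `fin2`: every `c ∈ S⁺` is `IsoW`, and `|S⁺| ≤ 2`.
(a) If `|S⁺| ≤ 1`: take the given pair `± z` of the belt: on each side there is exactly one element of the other pair and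
at most one of `S⁺`; nothing else of the belt.
(b) `S⁺ = {c₁, c₂}`.  `c₁` is `IsoW`: some paired `w` with `0 < ⟪J w, c₁⟫` and exactly two elements of `W` on this side: `c₁` and
the element `y` of the other pair on this side; so `0 < ⟪J (-w), c₂⟫`, and `-y` is on that side.  So `SideOK` for `w`.
`± w` are both in the belt: `g c₁` is `gm (-w)` or `g w` according to the side of `c₁` from `y`, `g c₂` is `gm w` or `g (-w)`
according to the side of `c₂` from `-y` (`arcm`, `arcp`), and `g c₁ + g c₂ ≤ L` (`low`, `up3`).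
-/

namespace Pool.BS79

open scoped RealInnerProductSpace ENNReal

variable {E : Type} [NormedAddCommGroup E] [InnerProductSpace ℝ E]

open Classical in
theorem fin2_sum {W : Finset E} {J : E → E} {g : E → ℝ≥0∞} {L T : ℝ≥0∞} (h : FD W J g L T) {w₀ w₁ : E}
    (h0 : w₀ ∈ W) (h0' : -w₀ ∈ W) (h1 : w₁ ∈ W) (h1' : -w₁ ∈ W) (hne : w₁ ≠ w₀) (hne' : w₁ ≠ -w₀)
    (hall : ∀ w ∈ W, -w ∈ W → w = w₀ ∨ w = -w₀ ∨ w = w₁ ∨ w = -w₁) :
    (∀ c ∈ W, -c ∉ W → g c ≠ 0 → IsoW W J c) ∧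
      (∀ c ∈ W, -c ∉ W → ∀ c' ∈ W, -c' ∉ W → c ≠ c' → g c + g c' ≤ L) := by
  have d1 : w₀ ≠ -w₀ := h.ne w₀ h0
  have d2 : w₁ ≠ -w₁ := h.ne w₁ h1
  have d3 : -w₀ ≠ w₁ := fun hh => hne' hh.symm
  have d4 : w₀ ≠ -w₁ := fun hh => hne' (by rw [hh, neg_neg])
  have d5 : -w₀ ≠ -w₁ := fun hh => hne (neg_injective hh).symm
  set P : Finset E := {w₀, -w₀, w₁, -w₁} with hP
  have hPn : ∀ z ∈ P, z ∈ W ∧ -z ∈ W := by
    intro z hz
    simp only [hP, Finset.mem_insert, Finset.mem_singleton] at hz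
    rcases hz with rfl | rfl | rfl | rfl
    · exact ⟨h0, h0'⟩
    · exact ⟨h0', by rwa [neg_neg]⟩
    · exact ⟨h1, h1'⟩
    · exact ⟨h1', by rwa [neg_neg]⟩
  have hPW : P ⊆ W := fun z hz => (hPn z hz).1
  have hPsum : ∑ w ∈ P, g w = 2 * L := by
    rw [hP, Finset.sum_insert, Finset.sum_insert, Finset.sum_insert, Finset.sum_singleton]
    · rw [← add_assoc, h.sum w₀ h0, h.sum w₁ h1, two_mul]
    · simp only [Finset.mem_singleton]; exact d2
    · simp only [Finset.mem_insert, Finset.mem_singleton, not_or]; exact ⟨d3, d5⟩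
    · simp only [Finset.mem_insert, Finset.mem_singleton, not_or]; exact ⟨d1, hne.symm, d4⟩
  set I : Finset E := W.filter (fun c => IsoW W J c) with hI
  have hIW : I ⊆ W \ P := by
    intro z hz
    rw [hI, Finset.mem_filter] at hz
    rw [Finset.mem_sdiff]
    exact ⟨hz.1, fun hzP => hz.2.1 (hPn z hzP).2⟩
  have hlow := h.low
  have hup := h.up2 (fin2_notThree hall)
  have hsplit : ∑ w ∈ W, g w = ∑ w ∈ W \ P, g w + 2 * L := by
    rw [← hPsum]; exact (Finset.sum_sdiff hPW).symm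
  have hsplit2 : ∑ w ∈ W \ P, g w = ∑ w ∈ (W \ P) \ I, g w + ∑ w ∈ I, g w :=
    (Finset.sum_sdiff hIW).symm
  have hLf : 2 * L ≠ ⊤ := ENNReal.mul_ne_top (by norm_num) h.Lf
  have gfin : ∀ w ∈ W, g w ≠ ⊤ := by
    intro w hw hh
    have := h.sum w hw
    rw [hh, top_add] at this
    exact h.Lf this.symm
  have hIf : ∑ w ∈ I, g w ≠ ⊤ := by
    rw [ENNReal.sum_ne_top]
    intro w hw
    exact gfin w (Finset.mem_sdiff.mp (hIW hw)).1
  have hz : ∑ w ∈ (W \ P) \ I, g w = 0 := by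
    have h2 : ∑ w ∈ (W \ P) \ I, g w + (∑ w ∈ I, g w + 2 * L) ≤ 0 + (∑ w ∈ I, g w + 2 * L) := by
      calc ∑ w ∈ (W \ P) \ I, g w + (∑ w ∈ I, g w + 2 * L) = ∑ w ∈ W, g w := by
            rw [hsplit, hsplit2, add_assoc]
        _ ≤ T := hlow
        _ ≤ 2 * L + ∑ w ∈ I, g w := hup
        _ = 0 + (∑ w ∈ I, g w + 2 * L) := by rw [zero_add, add_comm]
    have h3 := (ENNReal.add_le_add_iff_right (ENNReal.add_ne_top.mpr ⟨hIf, hLf⟩)).mp h2
    exact le_antisymm h3 zero_le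
  have hz' : ∀ w ∈ (W \ P) \ I, g w = 0 := fun w hw => (Finset.sum_eq_zero_iff.mp hz) w hw
  have hnP : ∀ c ∈ W, -c ∉ W → c ∈ W \ P := fun c hc hcn =>
    Finset.mem_sdiff.mpr ⟨hc, fun hcP => hcn (hPn c hcP).2⟩
  refine ⟨?_, ?_⟩
  · intro c hc hcn hg
    by_contra hni
    refine hg (hz' c (Finset.mem_sdiff.mpr ⟨hnP c hc hcn, fun hcI => hni ?_⟩))
    rw [hI, Finset.mem_filter] at hcI
    exact hcI.2
  · intro c hc hcn c' hc' hcn' hcc
    have hsub : ({c, c'} : Finset E) ⊆ W \ P := by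
      intro z hz
      simp only [Finset.mem_insert, Finset.mem_singleton] at hz
      rcases hz with rfl | rfl
      · exact hnP _ hc hcn
      · exact hnP _ hc' hcn'
    have hle : g c + g c' ≤ ∑ w ∈ W \ P, g w := by
      rw [← Finset.sum_pair hcc]
      exact Finset.sum_le_sum_of_subset hsub
    have h2 : ∑ w ∈ W \ P, g w + 2 * L ≤ L + 2 * L := by
      calc ∑ w ∈ W \ P, g w + 2 * L = ∑ w ∈ W, g w := hsplit.symm
        _ ≤ T := hlow
        _ ≤ 3 * L := h.up3
        _ = L + 2 * L := by ring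
    exact hle.trans ((ENNReal.add_le_add_iff_right hLf).mp h2)

/-- the element of the other pair on the side of `w` -/
theorem fin2_other {W : Finset E} {J : E → E} {g : E → ℝ≥0∞} {L T : ℝ≥0∞} (h : FD W J g L T) {w₀ w₁ : E}
    (h0 : w₀ ∈ W) (h0' : -w₀ ∈ W) (h1 : w₁ ∈ W) (h1' : -w₁ ∈ W) (hne : w₁ ≠ w₀) (hne' : w₁ ≠ -w₀)
    (hall : ∀ w ∈ W, -w ∈ W → w = w₀ ∨ w = -w₀ ∨ w = w₁ ∨ w = -w₁) {w : E} (hw : w ∈ W) (hwn : -w ∈ W) :
    ∃ y ∈ W, -y ∈ W ∧ 0 < ⟪J w, y⟫ ∧ (∀ z ∈ W, -z ∈ W → 0 < ⟪J w, z⟫ → z = y) ∧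
      (∀ z ∈ W, -z ∈ W → 0 < ⟪J (-w), z⟫ → z = -y) := by
  obtain ⟨x, hx, hx', hxw, hxw', hcl⟩ : ∃ x ∈ W, -x ∈ W ∧ x ≠ w ∧ x ≠ -w ∧
      ∀ z ∈ W, -z ∈ W → z = w ∨ z = -w ∨ z = x ∨ z = -x := by
    rcases hall w hw hwn with rfl | rfl | rfl | rfl
    · exact ⟨w₁, h1, h1', hne, hne', hall⟩
    · refine ⟨w₁, h1, h1', hne', by rwa [neg_neg], fun z hz hzn => ?_⟩
      rw [neg_neg]
      rcases hall z hz hzn with hh | hh | hh | hh
      · exact Or.inr (Or.inl hh)
      · exact Or.inl hh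
      · exact Or.inr (Or.inr (Or.inl hh))
      · exact Or.inr (Or.inr (Or.inr hh))
    · refine ⟨w₀, h0, h0', hne.symm, fun hh => hne' (by rw [hh, neg_neg]), fun z hz hzn => ?_⟩
      rcases hall z hz hzn with hh | hh | hh | hh
      · exact Or.inr (Or.inr (Or.inl hh))
      · exact Or.inr (Or.inr (Or.inr hh))
      · exact Or.inl hh
      · exact Or.inr (Or.inl hh)
    · refine ⟨w₀, h0, h0', fun hh => hne' (by rw [hh, neg_neg]), by rw [neg_neg]; exact hne.symm,
        fun z hz hzn => ?_⟩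
      rw [neg_neg]
      rcases hall z hz hzn with hh | hh | hh | hh
      · exact Or.inr (Or.inr (Or.inl hh))
      · exact Or.inr (Or.inr (Or.inr hh))
      · exact Or.inr (Or.inl hh)
      · exact Or.inl hh
  have hww : ⟪J w, w⟫ = 0 := h.Jself w hw
  -- choose the sign
  obtain ⟨y, hy, hyn, hyp, hcy⟩ : ∃ y ∈ W, -y ∈ W ∧ 0 < ⟪J w, y⟫ ∧
      ∀ z ∈ W, -z ∈ W → z = w ∨ z = -w ∨ z = y ∨ z = -y := by
    rcases lt_or_gt_of_ne (h.side w hw x hx hxw hxw') with hlt | hgt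
    · refine ⟨-x, hx', by rwa [neg_neg], ?_, fun z hz hzn => ?_⟩
      · rw [inner_neg_right]; linarith
      · rw [neg_neg]
        rcases hcl z hz hzn with hh | hh | hh | hh
        · exact Or.inl hh
        · exact Or.inr (Or.inl hh)
        · exact Or.inr (Or.inr (Or.inr hh))
        · exact Or.inr (Or.inr (Or.inl hh))
    · exact ⟨x, hx, hx', hgt, hcl⟩
  refine ⟨y, hy, hyn, hyp, fun z hz hzn hzp => ?_, fun z hz hzn hzp => ?_⟩
  · rcases hcy z hz hzn with hh | hh | hh | hh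
    · rw [hh, hww] at hzp; exact absurd hzp (lt_irrefl _)
    · rw [hh, inner_neg_right, hww, neg_zero] at hzp; exact absurd hzp (lt_irrefl _)
    · exact hh
    · rw [hh, inner_neg_right] at hzp; linarith
  · rw [h.Jneg, inner_neg_left] at hzp
    rcases hcy z hz hzn with hh | hh | hh | hh
    · rw [hh, hww, neg_zero] at hzp; exact absurd hzp (lt_irrefl _)
    · rw [hh, inner_neg_right, hww, neg_zero, neg_zero] at hzp; exact absurd hzp (lt_irrefl _)
    · rw [hh] at hzp; linarith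
    · exact hh

theorem finS2 {W : Finset E} {J : E → E} {g gm : E → ℝ≥0∞} {L T : ℝ≥0∞} (h : FD W J g L T)
    (hm : FM W J g gm L) {w₀ w₁ : E}
    (h0 : w₀ ∈ W) (h0' : -w₀ ∈ W) (h1 : w₁ ∈ W) (h1' : -w₁ ∈ W) (hne : w₁ ≠ w₀) (hne' : w₁ ≠ -w₀)
    (hall : ∀ w ∈ W, -w ∈ W → w = w₀ ∨ w = -w₀ ∨ w = w₁ ∨ w = -w₁) {z : E} (hz : z ∈ W) (hz' : -z ∈ W)
    (hb : InB g gm z) (hb' : InB g gm (-z)) : GoodPair W J g gm := by
  classical
  obtain ⟨hiso, hsum⟩ := fin2_sum h h0 h0' h1 h1' hne hne' hall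
  have hcard := fin2_card h h0 h0' h1 h1' hne hne' hall
  -- belt elements which are not paired
  have hbs : ∀ c ∈ W, -c ∉ W → InB g gm c → g c ≠ 0 := by
    intro c hc hcn hB
    rcases hB with hB | hB
    · exact hB
    · rwa [hm.single c hc hcn] at hB
  by_cases hex : ∃ c₁ ∈ W, -c₁ ∉ W ∧ g c₁ ≠ 0 ∧ ∃ c₂ ∈ W, -c₂ ∉ W ∧ g c₂ ≠ 0 ∧ c₁ ≠ c₂
  · obtain ⟨c₁, hc₁, hn₁, hg₁, c₂, hc₂, hn₂, hg₂, hcc⟩ := hex
    have hi1 := hiso c₁ hc₁ hn₁ hg₁
    have hi2 := hiso c₂ hc₂ hn₂ hg₂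
    -- all the others
    have htwo : ∀ c ∈ W, -c ∉ W → g c ≠ 0 → c = c₁ ∨ c = c₂ := by
      intro c hc hcn hg
      by_contra hno
      push Not at hno
      have hi := hiso c hc hcn hg
      have : 2 < (W.filter fun c => IsoW W J c).card := by
        rw [Finset.two_lt_card]
        exact ⟨c, Finset.mem_filter.mpr ⟨hc, hi⟩, c₁, Finset.mem_filter.mpr ⟨hc₁, hi1⟩, c₂,
          Finset.mem_filter.mpr ⟨hc₂, hi2⟩, hno.1, hno.2, hcc⟩
      omega
    obtain ⟨-, w, hw, hwn, hp₁, hcardw⟩ := hi1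
    obtain ⟨y, hy, hyn, hyp, hya, hyb⟩ := fin2_other h h0 h0' h1 h1' hne hne' hall hw hwn
    have hyc1 : y ≠ c₁ := by rintro rfl; exact hn₁ hyn
    -- the side of `w`
    have hside : ∀ x ∈ W, 0 < ⟪J w, x⟫ → x = c₁ ∨ x = y := by
      intro x hx hxp
      by_contra hno
      push Not at hno
      have : 2 < (W.filter fun y => 0 < ⟪J w, y⟫).card := by
        rw [Finset.two_lt_card]
        exact ⟨x, Finset.mem_filter.mpr ⟨hx, hxp⟩, c₁, Finset.mem_filter.mpr ⟨hc₁, hp₁⟩, y,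
          Finset.mem_filter.mpr ⟨hy, hyp⟩, hno.1, hno.2, hyc1.symm⟩
      omega
    have hc2w : ⟪J w, c₂⟫ < 0 := by
      have hx1 : c₂ ≠ w := by rintro rfl; exact hn₂ hwn
      have hx2 : c₂ ≠ -w := by rintro rfl; rw [neg_neg] at hn₂; exact hn₂ hw
      rcases lt_or_gt_of_ne (h.side w hw c₂ hc₂ hx1 hx2) with hlt | hgt
      · exact hlt
      · rcases hside c₂ hc₂ hgt with hh | hh
        · exact absurd hh.symm hcc
        · rw [hh] at hn₂; exact absurd hyn hn₂
    have hc2w' : 0 < ⟪J (-w), c₂⟫ := by rw [h.Jneg, inner_neg_left]; linarith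
    -- the four facts
    have F1 : 0 < ⟪J y, c₁⟫ → g c₁ = gm (-w) := by
      intro hpos
      refine hm.arcm (-w) hwn c₁ hc₁ ?_ ?_
      · rw [inner_neg_right, hm.anti c₁ w, neg_neg]; exact hp₁
      · intro x hx hxn hxp hxq
        rw [inner_neg_right, hm.anti x w, neg_neg] at hxq
        have hxy := hya x hx hxn hxq
        rw [hxy, hm.anti c₁ y] at hxp
        linarith
    have F2 : ¬ 0 < ⟪J y, c₁⟫ → g c₁ = g w := by
      intro hneg
      refine hm.arcp w hw c₁ hc₁ hn₁ hp₁ ?_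
      intro x hx hxn hxp
      rw [hya x hx hxn hxp]
      exact hneg
    have F3 : 0 < ⟪J (-y), c₂⟫ → g c₂ = gm w := by
      intro hpos
      refine hm.arcm w hw c₂ hc₂ ?_ ?_
      · rw [hm.anti c₂ w]; linarith
      · intro x hx hxn hxp hxq
        rw [hm.anti x w] at hxq
        have hxq' : 0 < ⟪J (-w), x⟫ := by rw [h.Jneg, inner_neg_left]; exact hxq
        have hxy := hyb x hx hxn hxq'
        rw [hxy, hm.anti c₂ (-y)] at hxp
        linarith
    have F4 : ¬ 0 < ⟪J (-y), c₂⟫ → g c₂ = g (-w) := by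
      intro hneg
      refine hm.arcp (-w) hwn c₂ hc₂ hn₂ hc2w' ?_
      intro x hx hxn hxp
      rw [hyb x hx hxn hxp]
      exact hneg
    have hs := hsum c₁ hc₁ hn₁ c₂ hc₂ hn₂ hcc
    have hLL : ¬ (L + L ≤ L) := by
      intro hh
      have : L + L ≤ 0 + L := by rwa [zero_add]
      exact h.L0 (le_antisymm ((ENNReal.add_le_add_iff_right h.Lf).mp this) zero_le)
    have hgs := h.sum w hw
    have hgms := hm.gmsum w hw
    have B1 : InB g gm w := by
      by_contra hno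
      unfold InB at hno
      push Not at hno
      rw [hno.1, zero_add] at hgs
      rw [hno.2, zero_add] at hgms
      have e1 : g c₁ = L := by
        by_cases hp : 0 < ⟪J y, c₁⟫
        · rw [F1 hp, hgms]
        · exact absurd ((F2 hp).trans hno.1) hg₁
      have e2 : g c₂ = L := by
        by_cases hp : 0 < ⟪J (-y), c₂⟫
        · exact absurd ((F3 hp).trans hno.2) hg₂
        · rw [F4 hp, hgs]
      rw [e1, e2] at hs
      exact hLL hs
    have B2 : InB g gm (-w) := by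
      by_contra hno
      unfold InB at hno
      push Not at hno
      rw [hno.1, add_zero] at hgs
      rw [hno.2, add_zero] at hgms
      have e1 : g c₁ = L := by
        by_cases hp : 0 < ⟪J y, c₁⟫
        · exact absurd ((F1 hp).trans hno.2) hg₁
        · rw [F2 hp, hgs]
      have e2 : g c₂ = L := by
        by_cases hp : 0 < ⟪J (-y), c₂⟫
        · rw [F3 hp, hgms]
        · exact absurd ((F4 hp).trans hno.1) hg₂
      rw [e1, e2] at hs
      exact hLL hs
    refine ⟨w, hw, hwn, B1, B2, ?_, ?_⟩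
    · have hsub : (W.filter fun x => InB g gm x ∧ 0 < ⟪J w, x⟫) ⊆ ({c₁, y} : Finset E) := by
        intro x hx
        rw [Finset.mem_filter] at hx
        rw [Finset.mem_insert, Finset.mem_singleton]
        exact hside x hx.1 hx.2.2
      exact (Finset.card_le_card hsub).trans Finset.card_le_two
    · have hsub : (W.filter fun x => InB g gm x ∧ 0 < ⟪J (-w), x⟫) ⊆ ({c₂, -y} : Finset E) := by
        intro x hx
        rw [Finset.mem_filter] at hx
        rw [Finset.mem_insert, Finset.mem_singleton]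
        by_cases hxn : -x ∈ W
        · exact Or.inr (hyb x hx.1 hxn hx.2.2)
        · rcases htwo x hx.1 hxn (hbs x hx.1 hxn hx.2.1) with hh | hh
          · have := hx.2.2
            rw [hh, h.Jneg, inner_neg_left] at this
            linarith
          · exact Or.inl hh
      exact (Finset.card_le_card hsub).trans Finset.card_le_two
  · -- at most one single element of the belt
    push Not at hex
    obtain ⟨y, hy, hyn, hyp, hya, hyb⟩ := fin2_other h h0 h0' h1 h1' hne hne' hall hz hz'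
    have hone : ∃ d : E, ∀ c ∈ W, -c ∉ W → InB g gm c → c = d := by
      by_cases hex' : ∃ c₁ ∈ W, -c₁ ∉ W ∧ g c₁ ≠ 0
      · obtain ⟨c₁, hc₁, hn₁, hg₁⟩ := hex'
        exact ⟨c₁, fun c hc hcn hB => (hex c₁ hc₁ hn₁ hg₁ c hc hcn (hbs c hc hcn hB)).symm⟩
      · push Not at hex'
        exact ⟨z, fun c hc hcn hB => absurd (hex' c hc hcn) (hbs c hc hcn hB)⟩
    obtain ⟨d, hd⟩ := hone
    refine ⟨z, hz, hz', hb, hb', ?_, ?_⟩
    · have hsub : (W.filter fun x => InB g gm x ∧ 0 < ⟪J z, x⟫) ⊆ ({d, y} : Finset E) := by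
        intro x hx
        rw [Finset.mem_filter] at hx
        rw [Finset.mem_insert, Finset.mem_singleton]
        by_cases hxn : -x ∈ W
        · exact Or.inr (hya x hx.1 hxn hx.2.2)
        · exact Or.inl (hd x hx.1 hxn hx.2.1)
      exact (Finset.card_le_card hsub).trans Finset.card_le_two
    · have hsub : (W.filter fun x => InB g gm x ∧ 0 < ⟪J (-z), x⟫) ⊆ ({d, -y} : Finset E) := by
        intro x hx
        rw [Finset.mem_filter] at hx
        rw [Finset.mem_insert, Finset.mem_singleton]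
        by_cases hxn : -x ∈ W
        · exact Or.inr (hyb x hx.1 hxn hx.2.2)
        · exact Or.inl (hd x hx.1 hxn hx.2.1)
      exact (Finset.card_le_card hsub).trans Finset.card_le_two

end Pool.BS79
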