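import Pool.Agent.BS79.FinM
import Pool.Agent.BS79.Fin3

set_option autoImplicit false
set_option linter.unusedSectionVars false

/-!
# BS79/FinS3: sides of a pair, three pairs

As in `fin3`: every element of `W` outside the six `± w i` has `g = 0` and its negative is not in `W`, hence (`single`)
`gm = 0`: it is not in the belt.  The given pair `± z` in the belt is one of the three pairs.  On each side of `z` there
are exactly two of the six: of every other pair exactly one (`side`, `Jneg`), and `⟪J z, ± z⟫ = 0` (`Jself`).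
-/

namespace Pool.BS79

open scoped RealInnerProductSpace ENNReal

variable {E : Type} [NormedAddCommGroup E] [InnerProductSpace ℝ E]

/-- with three pairs, every element of the belt and every paired element is one of the six -/
theorem finS3_mem {W : Finset E} {J : E → E} {g gm : E → ℝ≥0∞} {L T : ℝ≥0∞} (h : FD W J g L T)
    (hm : FM W J g gm L) {w : Fin 3 → E} (hw : ∀ i, w i ∈ W ∧ -w i ∈ W)
    (hne : ∀ i j, i ≠ j → w i ≠ w j ∧ w i ≠ -w j) {x : E} (hx : x ∈ W)
    (hx' : -x ∈ W ∨ InB g gm x) : ∃ i, x = w i ∨ x = -w i := by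
  classical
  have hinj : Function.Injective w := by
    intro i j hij
    by_contra hc
    exact (hne i j hc).1 hij
  have hinj' : Function.Injective (fun i => -w i) := by
    intro i j hij
    exact hinj (neg_injective hij)
  let S : Finset E := (Finset.univ.image w) ∪ (Finset.univ.image fun i => -w i)
  have hdisj : Disjoint (Finset.univ.image w) (Finset.univ.image fun i => -w i) := by
    rw [Finset.disjoint_left]
    intro x hx hx'
    simp only [Finset.mem_image, Finset.mem_univ, true_and] at hx hx'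
    obtain ⟨i, rfl⟩ := hx
    obtain ⟨j, hj⟩ := hx'
    by_cases hij : i = j
    · subst hij
      exact h.ne (w i) (hw i).1 hj.symm
    · exact (hne i j hij).2 hj.symm
  have hSW : S ⊆ W := by
    intro x hx
    simp only [S, Finset.mem_union, Finset.mem_image, Finset.mem_univ, true_and] at hx
    rcases hx with ⟨i, rfl⟩ | ⟨i, rfl⟩
    · exact (hw i).1
    · exact (hw i).2
  have hSneg : ∀ x, -x ∈ S → x ∈ S := by
    intro x hx
    simp only [S, Finset.mem_union, Finset.mem_image, Finset.mem_univ, true_and] at hx ⊢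
    rcases hx with ⟨i, hi⟩ | ⟨i, hi⟩
    · right
      exact ⟨i, by rw [hi, neg_neg]⟩
    · left
      exact ⟨i, neg_injective hi⟩
  have hS : ∑ x ∈ S, g x = 3 * L := by
    rw [Finset.sum_union hdisj, Finset.sum_image (fun i _ j _ hij => hinj hij),
      Finset.sum_image (fun i _ j _ hij => hinj' hij), ← Finset.sum_add_distrib,
      Finset.sum_congr rfl (fun i _ => h.sum (w i) (hw i).1)]
    simp
  have hrest : ∑ x ∈ W \ S, g x = 0 := by
    have h1 : ∑ x ∈ W \ S, g x + ∑ x ∈ S, g x = ∑ x ∈ W, g x := Finset.sum_sdiff hSW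
    have h2 : ∑ x ∈ W \ S, g x + 3 * L ≤ 0 + 3 * L := by
      rw [← hS, h1, hS, zero_add]
      exact h.low.trans h.up3
    have h3 : (3 : ℝ≥0∞) * L ≠ ⊤ := ENNReal.mul_ne_top (by norm_num) h.Lf
    exact le_antisymm ((ENNReal.add_le_add_iff_right h3).1 h2) bot_le
  have hz : ∀ x ∈ W, x ∉ S → g x = 0 := by
    intro x hx hxS
    exact (Finset.sum_eq_zero_iff.1 hrest) x (Finset.mem_sdiff.2 ⟨hx, hxS⟩)
  have hxS : x ∈ S := by
    by_contra hxS
    have h1 := hz x hx hxS
    have h2 : -x ∉ W := by
      intro h2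
      have h3 := hz (-x) h2 (fun hc => hxS (hSneg x hc))
      have h4 := h.sum x hx
      rw [h1, h3, add_zero] at h4
      exact h.L0 h4.symm
    rcases hx' with h3 | h3
    · exact h2 h3
    · unfold InB at h3
      rw [hm.single x hx h2, or_self] at h3
      exact h3 h1
  simp only [S, Finset.mem_union, Finset.mem_image, Finset.mem_univ, true_and] at hxS
  rcases hxS with ⟨i, hi⟩ | ⟨i, hi⟩
  · exact ⟨i, Or.inl hi.symm⟩
  · exact ⟨i, Or.inr hi.symm⟩

open Classical in
theorem finS3_side {W : Finset E} {J : E → E} {g gm : E → ℝ≥0∞} {w : Fin 3 → E}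
    (hmem : ∀ x ∈ W, InB g gm x → ∃ i, x = w i ∨ x = -w i) {y : E} {i₀ : Fin 3}
    (hy : ⟪J y, w i₀⟫ = 0) : (W.filter fun x => InB g gm x ∧ 0 < ⟪J y, x⟫).card ≤ 2 := by
  have hex : ∀ x : E, ∃ i : Fin 3, x ∈ W.filter (fun x => InB g gm x ∧ 0 < ⟪J y, x⟫) →
      (x = w i ∨ x = -w i) := by
    intro x
    by_cases hx : x ∈ W.filter (fun x => InB g gm x ∧ 0 < ⟪J y, x⟫)
    · have hx2 := (Finset.mem_filter.mp hx)
      obtain ⟨i, hi⟩ := hmem x hx2.1 hx2.2.1
      exact ⟨i, fun _ => hi⟩
    · exact ⟨0, fun h => absurd h hx⟩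
  choose f hf using hex
  have h1 : (W.filter fun x => InB g gm x ∧ 0 < ⟪J y, x⟫).card ≤
      ((Finset.univ : Finset (Fin 3)).erase i₀).card := by
    apply Finset.card_le_card_of_injOn f
    · intro x hx
      rw [Finset.mem_coe] at hx
      have hx2 := (Finset.mem_filter.mp hx).2.2
      rw [Finset.mem_coe, Finset.mem_erase]
      refine ⟨?_, Finset.mem_univ _⟩
      intro he
      rcases hf x hx with h2 | h2
      · rw [h2, he, hy] at hx2
        exact lt_irrefl _ hx2
      · rw [h2, he, inner_neg_right, hy, neg_zero] at hx2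
        exact lt_irrefl _ hx2
    · intro x hx x' hx' he
      rw [Finset.mem_coe] at hx hx'
      have hx2 := (Finset.mem_filter.mp hx).2.2
      have hx2' := (Finset.mem_filter.mp hx').2.2
      rcases hf x hx with h2 | h2 <;> rcases hf x' hx' with h3 | h3
      · rw [h2, h3, he]
      · rw [h2, he] at hx2
        rw [h3, inner_neg_right] at hx2'
        linarith
      · rw [h2, he, inner_neg_right] at hx2
        rw [h3] at hx2'
        linarith
      · rw [h2, h3, he]
  refine h1.trans ?_
  rw [Finset.card_erase_of_mem (Finset.mem_univ _)]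
  simp

theorem finS3 {W : Finset E} {J : E → E} {g gm : E → ℝ≥0∞} {L T : ℝ≥0∞} (h : FD W J g L T)
    (hm : FM W J g gm L) (h3 : Three W) {z : E} (hz : z ∈ W) (hz' : -z ∈ W) (hb : InB g gm z)
    (hb' : InB g gm (-z)) : GoodPair W J g gm := by
  obtain ⟨w, hw, hne⟩ := h3
  have hmem : ∀ x ∈ W, InB g gm x → ∃ i, x = w i ∨ x = -w i := fun x hx hxb =>
    finS3_mem h hm hw hne hx (Or.inr hxb)
  obtain ⟨i₀, hi₀⟩ := hmem z hz hb
  have h1 : ⟪J z, w i₀⟫ = 0 := by
    have h2 := h.Jself z hz
    rcases hi₀ with h3 | h3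
    · rw [← h3]; exact h2
    · have : w i₀ = -z := by rw [h3, neg_neg]
      rw [this, inner_neg_right, h2, neg_zero]
  refine ⟨z, hz, hz', hb, hb', finS3_side hmem h1, finS3_side (i₀ := i₀) hmem ?_⟩
  rw [h.Jneg, inner_neg_left, h1, neg_zero]

end Pool.BS79
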