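import Pool.Agent.BS79.Base

set_option autoImplicit false
set_option linter.unusedSectionVars false

/-!
# BS79/Germ: the local structure of the polytope at a generic point of a ridge

Proof.  `hrepF` (PT56/HRepF): `P = {z | ∀ w ∈ U, ⟪w, z⟫ ≤ spt P w}`, `U` = the facet normals.
Active: `w ∈ U` with `⟪w, x⟫ = spt P w`.  By genericity (`x + l ∈ P` for all small `l ∈ perp u v`, also `-l`) every
active `w` is orthogonal to `perp u v`, i.e. in the span of `u, v` (`Submodule.orthogonal_orthogonal`), so `w = ww φ`.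
For every `z` with `⟪w, z⟫ ≤ 0` for all active `w` one has `x + ε z ∈ P` for small `ε > 0`.
`x ∈ beltRidges P u v` gives `n = a • u + b • v` with `⟪n, z - x⟫ < 0` or `z - x ∈ perp` for all `z ∈ P`; `n ≠ 0`, and we
may scale `n = ww θ` (polar angle).  Write active `w = ww (θ + φ)`, `φ ∈ Ico (-π) π`.
* `φ ≠ -π`: an interior point `z` of `P` would satisfy `⟪n, z - x⟫ < 0` and `⟪-n, z - x⟫ ≤ 0`.
* `φ ≠ 0`: `facet_not_level` (PT56/FacC): some `z ∈ face P n` has `⟪ww' θ, z - x⟫ ≠ 0`, but `⟪n, z - x⟫ = 0`.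
* some active `φ > 0`: otherwise `z = ww' θ` is allowed (`⟪w, ww' θ⟫ = sin φ ≤ 0`), contradiction.  Let `q = θ + φ_q`
  with the smallest positive `φ_q`.  Symmetrically `p = θ + φ_p` with the largest negative `φ_p`.
* `q < p + π`: otherwise the direction `z = ww (q - π/2)` is allowed (cosines `≤ 0`) and `⟪n, z⟫ = sin φ_q > 0`.
Now for `t ∈ Ioo p q`: `ww t` is a positive combination of `ww p` and `ww q` (`sin (q-t)/sin (q-p)`,
`sin (t-p)/sin (q-p)`); so `⟪ww t, z - x⟫ ≤ 0` on `P` with equality only if `z - x ∈ perp u v`: `x ∈ face P (ww t)`,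
`x` is in the ridge, and `ww t` is not a facet (`facet_not_level`).  For `t = p`: on `face P (ww p)`,
`⟪ww q, z - x⟫ ≤ 0` means `sin (q - p) ⟪ww' p, z - x⟫ ≤ 0`.
For `t ∈ Ico q (p + 2π)`: by `facet_not_level` there are `z_q ∈ face P (ww q)` with
`⟪ww' q, z_q - x⟫ > 0` (it is `≥ 0` because `⟪ww p, z_q - x⟫ ≤ 0`) and `z_p ∈ face P (ww p)` with `⟪ww' p, z_p - x⟫ < 0`.
`t = q`: `z_q` contradicts the maximality of `x` for `ww' q`.  `t ∈ Ioo q (q + π)`: `⟪ww t, z_q - x⟫ = c sin (t - q) > 0`.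
`t ∈ Ioo (p + π) (p + 2π)`: `⟪ww t, z_p - x⟫ = -c' sin (t - p) > 0`.  These cover `Ico q (p + 2π)` as `p < q`.
-/

namespace Pool.BS79

open Set Filter Topology MeasureTheory
open scoped RealInnerProductSpace ENNReal
open Pool.PT56
open Pool.Agent.H14Belt (beltRidges Gen flat mot)

variable {E : Type} [NormedAddCommGroup E] [InnerProductSpace ℝ E] [FiniteDimensional ℝ E]
  [MeasurableSpace E] [BorelSpace E]

theorem inner_ww_shift (u v : E) (s t : ℝ) (z : E) : ⟪ww u v t, z⟫ =
    Real.cos (t - s) * ⟪ww u v s, z⟫ + Real.sin (t - s) * ⟪ww' u v s, z⟫ := by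
  have h1 := ww_add u v s (t - s)
  rw [show s + (t - s) = t by ring] at h1
  rw [h1, inner_add_left, real_inner_smul_left, real_inner_smul_left]

/-- active facet normals at a generic point lie in the plane -/
theorem active_mem {P : Set E} (hP : Polytope P) {u v : E} {x : E} (hx : Gen u v P x) {w : E}
    (hwx : ⟪w, x⟫ = spt P w) : w ∈ Submodule.span ℝ {u, v} := by
  have hPc := hP.compact
  have h1 : ∀ l : perp u v, ⟪w, (l : E)⟫ = 0 := by
    intro l
    have hc : Tendsto (fun r : ℝ => r • l) (𝓝 0) (𝓝 0) := by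
      have : Continuous (fun r : ℝ => r • l) := by fun_prop
      simpa using this.tendsto 0
    have h2 : ∀ᶠ r : ℝ in 𝓝 0, x + ((r • l : perp u v) : E) ∈ P := hc.eventually hx
    obtain ⟨δ, hδ, hball⟩ := Metric.eventually_nhds_iff.mp h2
    have h3 := hball (y := δ / 2) (by
      rw [Real.dist_eq, sub_zero, abs_of_pos (by linarith)]; linarith)
    have h4 := hball (y := -(δ / 2)) (by
      rw [Real.dist_eq, sub_zero, abs_neg, abs_of_pos (by linarith)]; linarith)
    have h5 := spt_le hPc h3 w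
    have h6 := spt_le hPc h4 w
    rw [Submodule.coe_smul, inner_add_right, inner_smul_right, hwx] at h5 h6
    nlinarith
  have h7 : w ∈ ((Submodule.span ℝ {u, v})ᗮ)ᗮ := by
    rw [Submodule.mem_orthogonal']
    intro l hl
    exact h1 ⟨l, hl⟩
  rwa [Submodule.orthogonal_orthogonal] at h7

/-- a direction on the good side of all active facet normals is feasible -/
theorem feasible {P : Set E} (hP : Polytope P) {x : E} (hxP : x ∈ P) {z : E}
    (hz : ∀ w, Facet P w → ⟪w, x⟫ = spt P w → ⟪w, z⟫ ≤ 0) : ∃ ε : ℝ, 0 < ε ∧ x + ε • z ∈ P := by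
  obtain ⟨U, hUf, hU⟩ := hrepF hP
  have hPc := hP.compact
  have h1 : ∀ᶠ r : ℝ in 𝓝[>] 0, ∀ w ∈ U, ⟪w, x + r • z⟫ ≤ spt P w := by
    rw [Filter.eventually_all_finset]
    intro w hw
    rcases eq_or_lt_of_le (spt_le hPc hxP w) with heq | hlt
    · filter_upwards [self_mem_nhdsWithin] with r hr
      rw [inner_add_right, inner_smul_right, heq]
      have h2 := hz w ((hUf w).mp hw) heq
      have hr' : 0 < r := hr
      nlinarith
    · have hc : Tendsto (fun r : ℝ => ⟪w, x + r • z⟫) (𝓝 0) (𝓝 ⟪w, x + (0:ℝ) • z⟫) := by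
        have : Continuous (fun r : ℝ => ⟪w, x + r • z⟫) := by fun_prop
        exact this.tendsto 0
      rw [zero_smul, add_zero] at hc
      have h3 : ∀ᶠ r : ℝ in 𝓝[>] 0, ⟪w, x + r • z⟫ < spt P w :=
        (hc.eventually_lt_const hlt).filter_mono nhdsWithin_le_nhds
      filter_upwards [h3] with r hr using hr.le
  obtain ⟨r, hr, hr0⟩ := (h1.and self_mem_nhdsWithin).exists
  exact ⟨r, hr0, (hU _).mpr hr⟩

/-- the normal of a belt point can be taken on the unit circle of the plane -/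
theorem belt_angle {P : Set E} (hP : Polytope P) {u v : E} (h : ON u v) {x : E} (hxP : x ∈ P)
    (hb : x ∈ beltRidges P u v) : ∃ θ : ℝ, (∀ y ∈ P, ⟪ww u v θ, y - x⟫ < 0 ∨
      (⟪u, y - x⟫ = 0 ∧ ⟪v, y - x⟫ = 0)) := by
  have hPc := hP.compact
  obtain ⟨-, a, b, hab⟩ := hb
  obtain ⟨z0, hz0⟩ := hP.2
  have hu0 : u ≠ 0 := by
    intro h1; have := h.nu; rw [h1] at this; simp at this
  have hn : a • u + b • v ≠ 0 := by
    intro h0
    obtain ⟨y, hy, hys⟩ := exists_spt hPc ⟨x, hxP⟩ u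
    have h1 := lt_spt hPc hz0 hu0
    have h2 : ∀ y ∈ P, ⟪u, y⟫ = ⟪u, x⟫ := by
      intro y hy
      rcases hab y hy with h3 | h3
      · rw [h0, inner_zero_left] at h3; exact absurd h3 (lt_irrefl _)
      · have := h3.1; rw [inner_sub_right] at this; linarith
    rw [← hys, h2 y hy, h2 z0 (interior_subset hz0)] at h1
    exact lt_irrefl _ h1
  have hnp : 0 < ‖a • u + b • v‖ := norm_pos_iff.mpr hn
  have hunit : ‖(‖a • u + b • v‖)⁻¹ • (a • u + b • v)‖ = 1 := by
    rw [norm_smul, norm_inv, norm_norm, inv_mul_cancel₀ hnp.ne']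
  have hspan : (‖a • u + b • v‖)⁻¹ • (a • u + b • v) ∈ Submodule.span ℝ {u, v} :=
    Submodule.smul_mem _ _ (Submodule.mem_span_pair.mpr ⟨a, b, rfl⟩)
  obtain ⟨θ, -, hθ⟩ := exists_angle h hunit hspan 0
  refine ⟨θ, fun y hy => ?_⟩
  rcases hab y hy with h3 | h3
  · left
    rw [← hθ, real_inner_smul_left]
    exact mul_neg_of_pos_of_neg (inv_pos.mpr hnp) h3
  · right; exact h3

theorem germ {P : Set E} (hP : Polytope P) {u v : E} (h : ON u v) {x : E} (hx : Gen u v P x)
    (hb : x ∈ beltRidges P u v) : ∃ p q : ℝ, p < q ∧ q < p + Real.pi ∧ Facet P (ww u v p) ∧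
      Facet P (ww u v q) ∧ (∀ t ∈ Ioo p q, ¬ Facet P (ww u v t)) ∧
      (∀ t ∈ Ico p q, x ∈ ridge P (ww u v t) (ww' u v t)) ∧
      ∀ t ∈ Ico q (p + 2 * Real.pi), x ∉ ridge P (ww u v t) (ww' u v t) := by
  classical
  have hPc := hP.compact
  have hxP : x ∈ P := hx.mem
  have hpi := Real.pi_pos
  obtain ⟨θ, hθ⟩ := belt_angle hP h hxP hb
  have hww0 : ∀ t, ww u v t ≠ 0 := by
    intro t h1; have := norm_ww h.nu h.nv h.uv t; rw [h1] at this; simp at this
  have hww0' : ∀ t, ww' u v t ≠ 0 := by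
    intro t h1; have := norm_ww' h.nu h.nv h.uv t; rw [h1] at this; simp at this
  have hwwi : ∀ t, ⟪ww u v t, ww' u v t⟫ = 0 := inner_ww h.nu h.nv h.uv
  -- both coordinates vanish
  have hboth : ∀ t z, ⟪u, z⟫ = 0 ∧ ⟪v, z⟫ = 0 → ⟪ww u v t, z⟫ = 0 ∧ ⟪ww' u v t, z⟫ = 0 :=
    fun t z hz => (plane_zero h t).mpr hz
  -- interior point
  obtain ⟨z0, hz0⟩ := hP.2
  have hz0P := interior_subset hz0
  have hneg0 : ⟪ww u v θ, z0 - x⟫ < 0 := by
    rcases hθ z0 hz0P with h1 | h1
    · exact h1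
    · exfalso
      have h2 := (hboth θ _ h1).1
      obtain ⟨y, hy, hys⟩ := exists_spt hPc ⟨x, hxP⟩ (ww u v θ)
      have h3 := lt_spt hPc hz0 (hww0 θ)
      rw [← hys] at h3
      rw [inner_sub_right] at h2
      rcases hθ y hy with h4 | h4
      · rw [inner_sub_right] at h4; linarith
      · have h5 := (hboth θ _ h4).1
        rw [inner_sub_right] at h5; linarith
  -- a feasible direction in the plane is strictly on the good side
  have hdir : ∀ s : ℝ, (∀ w, Facet P w → ⟪w, x⟫ = spt P w → ⟪w, ww u v s⟫ ≤ 0) →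
      ⟪ww u v θ, ww u v s⟫ < 0 := by
    intro s hs
    obtain ⟨ε, hε, hmem⟩ := feasible hP hxP hs
    rcases hθ _ hmem with h1 | h1
    · rw [add_sub_cancel_left, inner_smul_right] at h1
      by_contra hcon
      push Not at hcon
      nlinarith
    · exfalso
      rw [add_sub_cancel_left] at h1
      have h2 := (hboth s _ h1).1
      rw [inner_smul_right, real_inner_self_eq_norm_sq, norm_ww h.nu h.nv h.uv] at h2
      simp at h2
      linarith
  -- the active angles
  let A : Set ℝ := {φ | φ ∈ Ico (-Real.pi) Real.pi ∧ Facet P (ww u v (θ + φ)) ∧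
    ⟪ww u v (θ + φ), x⟫ = spt P (ww u v (θ + φ))}
  have hAfin : A.Finite := by
    obtain ⟨U, hUf, -⟩ := hrepF hP
    refine Set.Finite.of_finite_image (f := fun φ => ww u v (θ + φ))
      (U.finite_toSet.subset ?_) ?_
    · rintro _ ⟨φ, hφ, rfl⟩
      exact (hUf _).mpr hφ.2.1
    · intro φ hφ ψ hψ hEq
      have h1 := hφ.1.1
      have h2 := hφ.1.2
      have h3 := hψ.1.1
      have h4 := hψ.1.2
      have h5 := eq_of_ww_eq h (s := θ + φ) (t := θ + ψ) hEq (by linarith) (by linarith)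
      linarith
  have hAall : ∀ w, Facet P w → ⟪w, x⟫ = spt P w → ∃ φ ∈ A, w = ww u v (θ + φ) := by
    intro w hw hwx
    obtain ⟨t, ht, rfl⟩ := exists_angle h hw.1 (active_mem hP hx hwx) (θ - Real.pi)
    refine ⟨t - θ, ⟨⟨by linarith [ht.1], by linarith [ht.2]⟩, ?_, ?_⟩, ?_⟩
    · rw [show θ + (t - θ) = t by ring]; exact hw
    · rw [show θ + (t - θ) = t by ring]; exact hwx
    · rw [show θ + (t - θ) = t by ring]
  have hA1 : ∀ φ ∈ A, φ ≠ -Real.pi := by
    rintro φ ⟨-, -, hφ⟩ rfl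
    have h1 := spt_le hPc hz0P (ww u v (θ + -Real.pi))
    rw [← hφ] at h1
    have h2 : ww u v (θ + -Real.pi) = -ww u v θ := by
      have := ww_pi (u := u) (v := v) (θ + -Real.pi)
      rw [show θ + -Real.pi + Real.pi = θ by ring] at this
      rw [this, neg_neg]
    rw [h2, inner_neg_left, inner_neg_left] at h1
    rw [inner_sub_right] at hneg0
    linarith
  have hA0 : ∀ φ ∈ A, φ ≠ 0 := by
    rintro φ ⟨-, hF, -⟩ rfl
    rw [add_zero] at hF
    obtain ⟨z, hz, hzn⟩ := facet_not_level hPc hF (hww0' θ) (hwwi θ) ⟪ww' u v θ, x⟫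
    rcases hθ z hz.1 with h1 | h1
    · have h2 := hz.2 x hxP
      rw [inner_sub_right] at h1
      linarith
    · have h2 := (hboth θ _ h1).2
      rw [inner_sub_right] at h2
      exact hzn (by linarith)
  have hinn : ∀ φ s, ⟪ww u v (θ + φ), ww u v s⟫ = Real.cos (s - θ - φ) := by
    intro φ s
    rw [inner_ww_ww h, show s - (θ + φ) = s - θ - φ by ring]
  -- positive and negative active angles
  have hpos : ∃ φ ∈ A, 0 < φ := by
    by_contra hcon
    push Not at hcon
    have h1 := hdir (θ + Real.pi / 2) (by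
      intro w hw hwx
      obtain ⟨φ, hφ, rfl⟩ := hAall w hw hwx
      rw [hinn, show θ + Real.pi / 2 - θ - φ = Real.pi / 2 - φ by ring, Real.cos_pi_div_two_sub]
      exact Real.sin_nonpos_of_nonpos_of_neg_pi_le (hcon φ hφ) hφ.1.1)
    rw [inner_ww_ww h, show θ + Real.pi / 2 - θ = Real.pi / 2 by ring, Real.cos_pi_div_two] at h1
    exact lt_irrefl _ h1
  have hnegA : ∃ φ ∈ A, φ < 0 := by
    by_contra hcon
    push Not at hcon
    have h1 := hdir (θ - Real.pi / 2) (by
      intro w hw hwx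
      obtain ⟨φ, hφ, rfl⟩ := hAall w hw hwx
      rw [hinn, show θ - Real.pi / 2 - θ - φ = -(φ + Real.pi / 2) by ring, Real.cos_neg,
        Real.cos_add_pi_div_two]
      have := Real.sin_nonneg_of_nonneg_of_le_pi (hcon φ hφ) hφ.1.2.le
      linarith)
    rw [inner_ww_ww h, show θ - Real.pi / 2 - θ = -(Real.pi / 2) by ring, Real.cos_neg,
      Real.cos_pi_div_two] at h1
    exact lt_irrefl _ h1
  -- the smallest positive
  obtain ⟨q', ⟨hq'A, hq'0⟩, hq'min⟩ : ∃ q' ∈ {φ | φ ∈ A ∧ 0 < φ}, ∀ φ ∈ {φ | φ ∈ A ∧ 0 < φ}, q' ≤ φ := by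
    have hf : {φ | φ ∈ A ∧ 0 < φ}.Finite := hAfin.subset fun φ hφ => hφ.1
    obtain ⟨φ, hφ, hφ0⟩ := hpos
    exact Set.exists_min_image _ (fun φ => φ) hf ⟨φ, hφ, hφ0⟩
  obtain ⟨p', ⟨hp'A, hp'0⟩, hp'max⟩ : ∃ p' ∈ {φ | φ ∈ A ∧ φ < 0}, ∀ φ ∈ {φ | φ ∈ A ∧ φ < 0}, φ ≤ p' := by
    have hf : {φ | φ ∈ A ∧ φ < 0}.Finite := hAfin.subset fun φ hφ => hφ.1
    obtain ⟨φ, hφ, hφ0⟩ := hnegA
    exact Set.exists_max_image _ (fun φ => φ) hf ⟨φ, hφ, hφ0⟩
  have hq'pi : q' < Real.pi := hq'A.1.2
  have hp'pi : -Real.pi < p' := lt_of_le_of_ne hp'A.1.1 (fun h1 => hA1 p' hp'A h1.symm)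
  have hqp : q' < p' + Real.pi := by
    by_contra hcon
    push Not at hcon
    have h1 := hdir (θ + q' - Real.pi / 2) (by
      intro w hw hwx
      obtain ⟨φ, hφ, rfl⟩ := hAall w hw hwx
      rw [hinn, show θ + q' - Real.pi / 2 - θ - φ = -(Real.pi / 2 - (q' - φ)) by ring,
        Real.cos_neg, Real.cos_pi_div_two_sub]
      rcases lt_or_gt_of_ne (hA0 φ hφ) with h2 | h2
      · have h3 := hp'max φ ⟨hφ, h2⟩
        have h4 : -Real.pi < φ := lt_of_le_of_ne hφ.1.1 (fun h1 => hA1 φ hφ h1.symm)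
        have h5 : Real.sin (q' - φ) = -Real.sin (q' - φ - Real.pi) := by
          rw [Real.sin_sub_pi, neg_neg]
        rw [h5]
        have h6 := Real.sin_nonneg_of_nonneg_of_le_pi (x := q' - φ - Real.pi) (by linarith)
          (by linarith)
        linarith
      · have h3 := hq'min φ ⟨hφ, h2⟩
        have h4 := hφ.1.2
        exact Real.sin_nonpos_of_nonpos_of_neg_pi_le (by linarith) (by linarith))
    rw [inner_ww_ww h, show θ + q' - Real.pi / 2 - θ = -(Real.pi / 2 - q') by ring, Real.cos_neg,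
      Real.cos_pi_div_two_sub] at h1
    have h2 := Real.sin_pos_of_pos_of_lt_pi hq'0 hq'pi
    linarith
  -- the data
  obtain ⟨p, hp⟩ : ∃ p, p = θ + p' := ⟨_, rfl⟩
  obtain ⟨q, hq⟩ : ∃ q, q = θ + q' := ⟨_, rfl⟩
  have hpF : Facet P (ww u v p) := by rw [hp]; exact hp'A.2.1
  have hqF : Facet P (ww u v q) := by rw [hq]; exact hq'A.2.1
  have hpx : ⟪ww u v p, x⟫ = spt P (ww u v p) := by rw [hp]; exact hp'A.2.2
  have hqx : ⟪ww u v q, x⟫ = spt P (ww u v q) := by rw [hq]; exact hq'A.2.2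
  have hpq : p < q := by linarith
  have hqp' : q < p + Real.pi := by linarith
  have hsqp : 0 < Real.sin (q - p) := Real.sin_pos_of_pos_of_lt_pi (by linarith) (by linarith)
  have hAp : ∀ y ∈ P, ⟪ww u v p, y - x⟫ ≤ 0 := by
    intro y hy
    have := spt_le hPc hy (ww u v p)
    rw [inner_sub_right]; linarith
  have hAq : ∀ y ∈ P, ⟪ww u v q, y - x⟫ ≤ 0 := by
    intro y hy
    have := spt_le hPc hy (ww u v q)
    rw [inner_sub_right]; linarith
  -- the combination
  have hcomb : ∀ t z, Real.sin (q - p) * ⟪ww u v t, z⟫ =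
      Real.sin (q - t) * ⟪ww u v p, z⟫ + Real.sin (t - p) * ⟪ww u v q, z⟫ := by
    intro t z
    rw [inner_ww_shift u v p t z, inner_ww_shift u v p q z]
    have h1 : Real.sin (q - t) = Real.sin (q - p) * Real.cos (t - p) -
        Real.cos (q - p) * Real.sin (t - p) := by
      rw [← Real.sin_sub]; congr 1; ring
    rw [h1]; ring
  have hstrict : ∀ t ∈ Ioo p q, ∀ y ∈ P, ⟪ww u v t, y - x⟫ ≤ 0 ∧ (⟪ww u v t, y - x⟫ = 0 →
      ⟪ww' u v t, y - x⟫ = 0) := by
    intro t ht y hy
    have h1 := hcomb t (y - x)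
    have h2 := hAp y hy
    have h3 := hAq y hy
    have h4 : 0 < Real.sin (q - t) :=
      Real.sin_pos_of_pos_of_lt_pi (by linarith [ht.2]) (by linarith [ht.1])
    have h5 : 0 < Real.sin (t - p) :=
      Real.sin_pos_of_pos_of_lt_pi (by linarith [ht.1]) (by linarith [ht.2])
    have h6 : Real.sin (q - t) * ⟪ww u v p, y - x⟫ ≤ 0 := mul_nonpos_of_nonneg_of_nonpos h4.le h2
    have h7 : Real.sin (t - p) * ⟪ww u v q, y - x⟫ ≤ 0 := mul_nonpos_of_nonneg_of_nonpos h5.le h3
    constructor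
    · by_contra hcon
      push Not at hcon
      have := mul_pos hsqp hcon
      linarith
    · intro h8
      rw [h8, mul_zero] at h1
      have h9 : ⟪ww u v p, y - x⟫ = 0 := by
        have : Real.sin (q - t) * ⟪ww u v p, y - x⟫ = 0 := by linarith
        rcases mul_eq_zero.mp this with h10 | h10
        · exact absurd h10 h4.ne'
        · exact h10
      have h10 := inner_ww_shift u v t p (y - x)
      rw [h9, h8, mul_zero, zero_add] at h10
      have h11 : Real.sin (p - t) ≠ 0 := by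
        have : Real.sin (p - t) = -Real.sin (t - p) := by
          rw [← Real.sin_neg]; congr 1; ring
        rw [this]; linarith [h5, neg_ne_zero.mpr h5.ne']
      rcases mul_eq_zero.mp h10.symm with h12 | h12
      · exact absurd h12 h11
      · exact h12
  refine ⟨p, q, hpq, hqp', hpF, hqF, ?_, ?_, ?_⟩
  · intro t ht hF
    obtain ⟨y, hy, hyn⟩ := facet_not_level hPc hF (hww0' t) (hwwi t) ⟪ww' u v t, x⟫
    obtain ⟨h1, h2⟩ := hstrict t ht y hy.1
    have h3 := hy.2 x hxP
    have h4 : ⟪ww u v t, y - x⟫ = 0 := by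
      apply le_antisymm h1
      rw [inner_sub_right]; linarith
    have h5 := h2 h4
    rw [inner_sub_right] at h5
    exact hyn (by linarith)
  · intro t ht
    rcases eq_or_lt_of_le ht.1 with rfl | hlt
    · refine ⟨(mem_face_iff hPc).mpr ⟨hxP, hpx⟩, fun y hy => ?_⟩
      have h1 : ⟪ww u v p, y - x⟫ = 0 := by
        rw [inner_sub_right, hpx, ((mem_face_iff hPc).mp hy).2, sub_self]
      have h2 := hAq y hy.1
      rw [inner_ww_shift u v p q, h1, mul_zero, zero_add] at h2
      have h3 : ⟪ww' u v p, y - x⟫ ≤ 0 := by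
        by_contra hcon
        push Not at hcon
        have := mul_pos hsqp hcon
        linarith
      rw [inner_sub_right] at h3
      linarith
    · have htI : t ∈ Ioo p q := ⟨hlt, ht.2⟩
      refine ⟨⟨hxP, fun y hy => ?_⟩, fun y hy => ?_⟩
      · have h1 := (hstrict t htI y hy).1
        rw [inner_sub_right] at h1
        linarith
      · obtain ⟨h1, h2⟩ := hstrict t htI y hy.1
        have h3 := hy.2 x hxP
        have h4 : ⟪ww u v t, y - x⟫ = 0 := by
          apply le_antisymm h1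
          rw [inner_sub_right]; linarith
        have h5 := h2 h4
        rw [inner_sub_right] at h5
        linarith
  · -- outside
    obtain ⟨zq, hzq, hzqn⟩ := facet_not_level hPc hqF (hww0' q) (hwwi q) ⟪ww' u v q, x⟫
    obtain ⟨zp, hzp, hzpn⟩ := facet_not_level hPc hpF (hww0' p) (hwwi p) ⟪ww' u v p, x⟫
    have hq1 : ⟪ww u v q, zq - x⟫ = 0 := by
      rw [inner_sub_right, hqx, ((mem_face_iff hPc).mp hzq).2, sub_self]
    have hp1 : ⟪ww u v p, zp - x⟫ = 0 := by
      rw [inner_sub_right, hpx, ((mem_face_iff hPc).mp hzp).2, sub_self]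
    have hq2 : 0 < ⟪ww' u v q, zq - x⟫ := by
      have h1 := hAp zq hzq.1
      rw [inner_ww_shift u v q p, hq1, mul_zero, zero_add] at h1
      have h2 : Real.sin (p - q) = -Real.sin (q - p) := by
        rw [← Real.sin_neg]; congr 1; ring
      rw [h2] at h1
      have h3 : ⟪ww' u v q, zq - x⟫ ≠ 0 := by
        intro h4; rw [inner_sub_right] at h4; exact hzqn (by linarith)
      rcases lt_or_gt_of_ne h3 with h4 | h4
      · have := mul_pos_of_neg_of_neg (neg_lt_zero.mpr hsqp) h4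
        linarith
      · exact h4
    have hp2 : ⟪ww' u v p, zp - x⟫ < 0 := by
      have h1 := hAq zp hzp.1
      rw [inner_ww_shift u v p q, hp1, mul_zero, zero_add] at h1
      have h3 : ⟪ww' u v p, zp - x⟫ ≠ 0 := by
        intro h4; rw [inner_sub_right] at h4; exact hzpn (by linarith)
      rcases lt_or_gt_of_ne h3 with h4 | h4
      · exact h4
      · have := mul_pos hsqp h4
        linarith
    rintro t ⟨ht1, ht2⟩ hr
    rcases eq_or_lt_of_le ht1 with rfl | hlt
    · have h1 := hr.2 zq hzq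
      rw [inner_sub_right] at hq2
      linarith
    · rcases lt_or_ge t (q + Real.pi) with h1 | h1
      · have h2 := hr.1.2 zq hzq.1
        have h3 : ⟪ww u v t, zq - x⟫ = Real.sin (t - q) * ⟪ww' u v q, zq - x⟫ := by
          rw [inner_ww_shift u v q t, hq1, mul_zero, zero_add]
        have h4 : 0 < Real.sin (t - q) :=
          Real.sin_pos_of_pos_of_lt_pi (by linarith) (by linarith)
        have h5 := mul_pos h4 hq2
        rw [← h3, inner_sub_right] at h5
        linarith
      · have h2 := hr.1.2 zp hzp.1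
        have h3 : ⟪ww u v t, zp - x⟫ = Real.sin (t - p) * ⟪ww' u v p, zp - x⟫ := by
          rw [inner_ww_shift u v p t, hp1, mul_zero, zero_add]
        have h4 : Real.sin (t - p) < 0 := by
          have h5 : Real.sin (t - p) = -Real.sin (t - p - Real.pi) := by
            rw [Real.sin_sub_pi, neg_neg]
          rw [h5]
          have := Real.sin_pos_of_pos_of_lt_pi (x := t - p - Real.pi) (by linarith) (by linarith)
          linarith
        have h5 := mul_pos_of_neg_of_neg h4 hp2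
        rw [← h3, inner_sub_right] at h5
        linarith

end Pool.BS79
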