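import Pool.Agent.BS79.Germ

set_option autoImplicit false
set_option linter.unusedSectionVars false

/-!
# BS79/Low: the lower bound for the total measure of the belt

`ridge_sub`: by `face_rot` (PT56/FacC) the ridge is the face in direction `cos e w + sin e w'` for small `e > 0`.
`ridge_null`: for `w₁ ≠ w₂` in `BW P u v` the ridges of `w₁, rot w₁` and of `w₂, rot w₂` have an intersection of measure
zero: a generic point (`Gen u v P x`) of the intersection is in `beltRidges` (`ridge_sub`), and `germ` gives `p, q`; take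
the angles `t₁, t₂` of `w₁, w₂` in `Ico p (p + 2π)` (`exists_angle`): they are in `Ico p q`, and being facets they are
not in `Ioo p q`: both are `p`.  The non generic points: the ridge lies in one flat, `H14Belt.null_bad`.
`low`: `measure_biUnion_finset₀` (a.e. disjoint, closed sets: `H14Belt.ridge_closed`) and `ridge_sub`.
-/

namespace Pool.BS79

open Set Filter Topology MeasureTheory
open scoped RealInnerProductSpace ENNReal
open Pool.PT56
open Pool.Agent.H14Belt (beltRidges Gen flat mot)

variable {E : Type} [NormedAddCommGroup E] [InnerProductSpace ℝ E] [FiniteDimensional ℝ E]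
  [MeasurableSpace E] [BorelSpace E]

theorem ridge_sub {P : Set E} (hP : Polytope P) {u v : E} (h : ON u v) (t : ℝ) :
    ridge P (ww u v t) (ww' u v t) ⊆ beltRidges P u v := by
  intro x hx
  rw [← belt_ww h t]
  obtain ⟨e, he⟩ := (face_rot hP (ww u v t) (ww' u v t)).exists
  have hx' : x ∈ face P (Real.cos e • ww u v t + Real.sin e • ww' u v t) := by
    rw [he]; exact hx
  refine ⟨hx.1.1, Real.cos e, Real.sin e, fun y hy => ?_⟩
  rcases lt_or_eq_of_le (hx'.2 y hy) with h1 | h1
  · left
    rw [inner_sub_right]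
    linarith
  · right
    have hy' : y ∈ face P (Real.cos e • ww u v t + Real.sin e • ww' u v t) := by
      refine ⟨hy, fun z hz => ?_⟩
      rw [h1]
      exact hx'.2 z hz
    rw [he] at hy'
    have h2 := Pool.Agent.H14Belt.inner_eq_of_face hy'.1 hx.1
    have h3 := Pool.Agent.H14Belt.inner_eq_of_face hy' hx
    rw [inner_sub_right, inner_sub_right, h2, h3, sub_self, sub_self]
    exact ⟨rfl, rfl⟩

theorem ridge_null {P : Set E} (hP : Polytope P) {u v : E} (h : ON u v) {w₁ w₂ : E}
    (h1 : w₁ ∈ BW P u v) (h2 : w₂ ∈ BW P u v) (hne : w₁ ≠ w₂) :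
    μHE[Module.finrank ℝ E - 2] (ridge P w₁ (rot u v w₁) ∩ ridge P w₂ (rot u v w₂)) = 0 := by
  have hr : Module.finrank ℝ (perp u v) = Module.finrank ℝ E - 2 := by
    have := Pool.Agent.H14Belt.finrank_perp h.nu h.nv h.uv
    omega
  obtain ⟨s₁, -, hs₁⟩ := exists_angle h h1.1.1 h1.2 0
  rw [Measure.euclideanHausdorffMeasure_def, Measure.smul_apply, ← hr]
  obtain ⟨x₀, hx₀⟩ := Pool.Agent.H14Belt.ridge_flat (u := w₁) (v := rot u v w₁) P
    (one_ne_zero) (one_ne_zero)
  rw [one_smul, one_smul] at hx₀
  have hperp : perp w₁ (rot u v w₁) = perp u v := by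
    rw [hs₁, rot_ww h, perp_ww h]
  have hnull : (Measure.hausdorffMeasure (Module.finrank ℝ (perp u v) : ℝ) : Measure E)
      (ridge P w₁ (rot u v w₁) ∩ ridge P w₂ (rot u v w₂)) = 0 := by
    refine measure_mono_null ?_ (Pool.Agent.H14Belt.null_bad (u := u) (v := v) x₀ hP.conv)
    rintro x ⟨hx1, hx2⟩
    refine ⟨?_, hx1.1.1, fun hgen => hne ?_⟩
    · have := hx₀ hx1
      rw [flat, mem_ofPred_eq, hperp] at this
      exact this
    · have hb : x ∈ beltRidges P u v := by
        apply ridge_sub hP h s₁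
        rw [← rot_ww h, ← hs₁]
        exact hx1
      obtain ⟨p, q, hpq, hqp, -, -, hnf, -, hout⟩ := germ hP h hgen hb
      have key : ∀ w, w ∈ BW P u v → x ∈ ridge P w (rot u v w) → w = ww u v p := by
        intro w hw hxw
        obtain ⟨t, ht, hwt⟩ := exists_angle h hw.1.1 hw.2 p
        rw [hwt, rot_ww h] at hxw
        rcases lt_or_ge t q with h3 | h3
        · rcases eq_or_lt_of_le ht.1 with h4 | h4
          · rw [hwt, h4]
          · exact absurd (hwt ▸ hw.1) (hnf t ⟨h4, h3⟩)
        · exact absurd hxw (hout t ⟨h3, ht.2⟩)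
      rw [key w₁ h1 hx1, key w₂ h2 hx2]
  rw [hnull, smul_zero]

theorem low {P : Set E} (hP : Polytope P) {u v : E} (h : ON u v) (W : Finset E)
    (hW : ∀ w ∈ W, w ∈ BW P u v) : ∑ w ∈ W, gp P u v w ≤ TT P u v := by
  have h1 : μHE[Module.finrank ℝ E - 2] (⋃ w ∈ W, ridge P w (rot u v w)) =
      ∑ w ∈ W, gp P u v w := by
    rw [measure_biUnion_finset₀]
    · rfl
    · intro a ha b hb hab
      exact ridge_null hP h (hW a ha) (hW b hb) hab
    · intro w _
      exact (Pool.Agent.H14Belt.ridge_closed hP.compact.isClosed _ _).measurableSet.nullMeasurableSet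
  rw [← h1]
  unfold TT
  apply measure_mono
  intro x hx
  simp only [mem_iUnion, exists_prop] at hx
  obtain ⟨w, hw, hxw⟩ := hx
  obtain ⟨t, -, ht⟩ := exists_angle h (hW w hw).1.1 (hW w hw).2 0
  apply ridge_sub hP h t
  rw [← rot_ww h, ← ht]
  exact hxw

end Pool.BS79
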