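import Pool.Agent.BS79.LConst

set_option autoImplicit false
set_option linter.unusedSectionVars false

/-!
# BS79/Par: a belt plane with a pair of parallel facets has such a pair in the belt

Suppose not: for every pair `w, -w` of facet normals of the plane one of them, say `-w`, has
`gp (-w) = gm (-w) = 0`; by the invariance of `L` (`lconst`; for `gm`: `gv_law` gives `gm w + gm (-w) = gp w + gp (-w) = L`)
`gp w = gm w = L`.  So `gv P (ww t) (-ww' t) = gv P (ww t) (ww' t)` holds for ALL `t`: for pairs by this remark, and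
otherwise by `gv_symm_of_not_facet` / `gv_symm_of_single` (as in `circle_all`, PT74/Circ).  Hence, exactly as in
`circle_all`, the function `t ↦ gv P (ww t) (ww' t)` is locally constant, so constant, and `gp (-w) = gp w` for every unit
vector of the plane.  For the given pair this contradicts `{gp w, gp (-w)} = {L, 0}`, `L ≠ 0`.
-/

namespace Pool.BS79

open Set Filter Topology MeasureTheory
open scoped RealInnerProductSpace ENNReal
open Pool.PT56

variable {E : Type} [NormedAddCommGroup E] [InnerProductSpace ℝ E] [FiniteDimensional ℝ E]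
  [MeasurableSpace E] [BorelSpace E]

theorem gm_sum {P : Set E} (hP : Polytope P) (hT : Tiles P) {u v : E} (h : ON u v) {w : E} (hw : ‖w‖ = 1)
    (hs : w ∈ Submodule.span ℝ {u, v}) : gm P u v w + gm P u v (-w) = LL P u v := by
  obtain ⟨h1, h2, -⟩ := rot_norm h hw hs
  have h3 := gv_law hP.compact hP.conv hP.2 hT hw h1 h2
  rw [← lconst hP hT h hw hs]
  unfold gm gp
  rw [rot_neg, neg_neg, h3]

/-- the circle argument for a plane with symmetric ridge measures -/
private theorem par_circle {P : Set E} (hP : Polytope P) {u v : E}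
    (hsymm : ∀ t, gv P (ww u v t) (-ww' u v t) = gv P (ww u v t) (ww' u v t)) (t : ℝ) :
    gv P (ww u v t) (ww' u v t) = gv P u v := by
  have hloc : IsLocallyConstant (fun t : ℝ => gv P (ww u v t) (ww' u v t)) := by
    rw [IsLocallyConstant.iff_eventually_eq]
    intro t
    have hr := gv_rot hP (ww u v t) (ww' u v t)
    have hl := gv_rot hP (ww u v t) (-ww' u v t)
    obtain ⟨δ1, hδ1, h1⟩ := mem_nhdsGT_iff_exists_Ioo_subset.mp hr
    obtain ⟨δ2, hδ2, h2⟩ := mem_nhdsGT_iff_exists_Ioo_subset.mp hl
    have hδ1' : (0:ℝ) < δ1 := hδ1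
    have hδ2' : (0:ℝ) < δ2 := hδ2
    rw [Metric.eventually_nhds_iff]
    refine ⟨min δ1 δ2, lt_min hδ1' hδ2', fun y hy => ?_⟩
    rw [Real.dist_eq] at hy
    show gv P (ww u v y) (ww' u v y) = gv P (ww u v t) (ww' u v t)
    rcases lt_trichotomy y t with hyt | hyt | hyt
    · have hmem : t - y ∈ Ioo (0:ℝ) δ2 := by
        refine ⟨by linarith, ?_⟩
        rw [abs_of_neg (by linarith)] at hy
        linarith [min_le_right δ1 δ2]
      have h3 := h2 hmem
      have h3' : gv P (Real.cos (t - y) • ww u v t + Real.sin (t - y) • (-ww' u v t))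
        (-Real.sin (t - y) • ww u v t + Real.cos (t - y) • (-ww' u v t)) =
        gv P (ww u v t) (-ww' u v t) := h3
      have h4 : y = t - (t - y) := by ring
      have h5 := hsymm y
      have h6 : ww u v y = Real.cos (t - y) • ww u v t + Real.sin (t - y) • (-ww' u v t) := by
        conv_lhs => rw [h4]
        exact ww_sub u v t (t - y)
      have h7 : -ww' u v y = (-Real.sin (t - y) • ww u v t + Real.cos (t - y) • (-ww' u v t)) := by
        conv_lhs => rw [h4]
        rw [ww'_sub u v t (t - y), neg_neg]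
      rw [← h5, h6, h7, h3', hsymm t]
    · rw [hyt]
    · have hmem : y - t ∈ Ioo (0:ℝ) δ1 := by
        refine ⟨by linarith, ?_⟩
        rw [abs_of_pos (by linarith)] at hy
        linarith [min_le_left δ1 δ2]
      have h3 := h1 hmem
      have h3' : gv P (Real.cos (y - t) • ww u v t + Real.sin (y - t) • (ww' u v t))
        (-Real.sin (y - t) • ww u v t + Real.cos (y - t) • (ww' u v t)) =
        gv P (ww u v t) (ww' u v t) := h3
      have h4 : y = t + (y - t) := by ring
      have h6 : ww u v y = Real.cos (y - t) • ww u v t + Real.sin (y - t) • (ww' u v t) := by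
        conv_lhs => rw [h4]
        exact ww_add u v t (y - t)
      have h7 : ww' u v y = (-Real.sin (y - t) • ww u v t + Real.cos (y - t) • (ww' u v t)) := by
        conv_lhs => rw [h4]
        exact ww'_add u v t (y - t)
      rw [h6, h7, h3']
  have hfin := hloc.apply_eq_of_preconnectedSpace t 0
  have e3 : ww u v 0 = u := by unfold ww; simp
  have e4 : ww' u v 0 = v := by unfold ww'; simp
  simp only [e3, e4] at hfin
  exact hfin

theorem pair_in_belt {P : Set E} (hP : Polytope P) (hT : Tiles P) {u v : E} (h : ON u v)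
    (hL : LL P u v ≠ 0) {w₀ : E} (hw : w₀ ∈ BW P u v) (hw' : -w₀ ∈ BW P u v) :
    ∃ w, w ∈ BW P u v ∧ -w ∈ BW P u v ∧ (gp P u v w ≠ 0 ∨ gm P u v w ≠ 0) ∧
      (gp P u v (-w) ≠ 0 ∨ gm P u v (-w) ≠ 0) := by
  by_contra hcon
  have hno : ∀ w, w ∈ BW P u v → -w ∈ BW P u v →
      (gp P u v w = 0 ∧ gm P u v w = 0) ∨ (gp P u v (-w) = 0 ∧ gm P u v (-w) = 0) := by
    intro w h1 h2
    by_contra h3
    rw [not_or, not_and_or, not_and_or] at h3
    exact hcon ⟨w, h1, h2, h3.1, h3.2⟩
  have hsymm : ∀ t, gv P (ww u v t) (-ww' u v t) = gv P (ww u v t) (ww' u v t) := by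
    intro t
    have h1 := norm_ww h.nu h.nv h.uv t
    have h2 := norm_ww' h.nu h.nv h.uv t
    have h3 := inner_ww h.nu h.nv h.uv t
    by_cases h5 : Facet P (ww u v t)
    · by_cases h4 : Facet P (-ww u v t)
      · have hgp : gp P u v (ww u v t) = gv P (ww u v t) (ww' u v t) := by
          unfold gp; rw [rot_ww h]
        have hgm : gm P u v (ww u v t) = gv P (ww u v t) (-ww' u v t) := by
          unfold gm; rw [rot_ww h]
        rw [← hgp, ← hgm]
        rcases hno _ ⟨h5, ww_mem t⟩ ⟨h4, Submodule.neg_mem _ (ww_mem t)⟩ with ⟨e1, e2⟩ | ⟨e1, e2⟩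
        · rw [e1, e2]
        · have e3 := gm_sum hP hT h h1 (ww_mem t)
          have e4 := lconst hP hT h h1 (ww_mem t)
          rw [e2, add_zero] at e3
          rw [e1, add_zero] at e4
          rw [e3, e4]
      · exact (gv_symm_of_single hP.compact hP.conv hP.2 hT h1 h2 h3 h4).symm
    · exact (gv_symm_of_not_facet hP.compact hP.conv h1 h2 h3 h5).symm
  obtain ⟨t, -, rfl⟩ := exists_angle h hw.1.1 hw.2 0
  have e1 : gp P u v (ww u v t) = gv P u v := by
    unfold gp; rw [rot_ww h]; exact par_circle hP hsymm t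
  have e2 : gp P u v (-ww u v t) = gv P u v := by
    unfold gp; rw [← ww_pi, rot_ww h]; exact par_circle hP hsymm _
  have e3 := lconst hP hT h hw.1.1 hw.2
  rw [e1, e2] at e3
  have e4 : gv P u v = 0 := by
    rcases hno _ hw hw' with ⟨e5, -⟩ | ⟨e5, -⟩
    · rw [← e1]; exact e5
    · rw [← e2]; exact e5
  rw [e4, add_zero] at e3
  exact hL e3.symm

end Pool.BS79
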