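import Pool.Agent.BS79.CfgB

set_option autoImplicit false
set_option linter.unusedSectionVars false

/-!
# BS79/Up: the upper bounds for the total measure of the belt

`up3`: `H14Belt.total` (finite vertex set as a Finset; `tiles_iff`), converted to `μHE` as in the proof of `gv_law`
(PT56/FacA).
`up`: copy the proof of `H14Belt.total` (H14Belt/Main) with
`F i = mot (t i) (s i) '' (beltRidges P u v \ ⋃ c ∈ C, ridge P c (rot u v c))`, `G i = ∅`, `F' i = ridge (T i) u v`,
`G' i = ridge (T i) (-u) (-v)` and `c = 2`.  Measurability: `beltRidges_closed`, `ridge_closed` (closed sets), `mot` is a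
homeomorphism (or: the image of a difference is the difference of the images as `mot` is injective).  Flats as in
`total`.
Pointwise: `s = I.filter (x ∈ T i)`, `H14Belt.localTiling`, `loc_count`, `card_filter_ridge`, `beltRidges_iff_pointed`.
In the first case `#{x ∈ F i} ≤ #{x ∈ beltRidges (T i) u v} = #Pointed ≤ 2k`.  In the second case `k = 1` (`loc_one`) and `cfg`
gives `c` with `Iso P u v c`, so `c ∈ C`, and a tile `j ∈ I` with `x ∈ T j`, `x ∉ F j`; so
`#{x ∈ F i} ≤ 3 - 1 = 2k`.
Result: `μ (F) ≤ 2 L` and `TT ≤ μ (F) + ∑ c ∈ C, μ (ridge P c (rot u v c))` (subadditivity).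
-/

namespace Pool.BS79

open Set Filter Topology MeasureTheory
open scoped RealInnerProductSpace ENNReal
open Pool.PT56
open Pool.Agent.H14Belt (beltRidges Gen flat mot)

variable {E : Type} [NormedAddCommGroup E] [InnerProductSpace ℝ E] [FiniteDimensional ℝ E]
  [MeasurableSpace E] [BorelSpace E]

private theorem toE {k : ℝ≥0∞} {n : ℕ} {A B C : Set E}
    (h : (Measure.hausdorffMeasure (n : ℝ) : Measure E) A ≤
      k * ((Measure.hausdorffMeasure (n : ℝ) : Measure E) B +
        (Measure.hausdorffMeasure (n : ℝ) : Measure E) C)) :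
    (μHE[n] : Measure E) A ≤ k * ((μHE[n] : Measure E) B + (μHE[n] : Measure E) C) := by
  simp only [Measure.euclideanHausdorffMeasure_def, Measure.smul_apply, ENNReal.smul_def,
    smul_eq_mul]
  rw [← mul_add, mul_left_comm]
  gcongr

private theorem hr {u v : E} (h : ON u v) :
    Module.finrank ℝ (perp u v) = Module.finrank ℝ E - 2 := by
  have := Pool.Agent.H14Belt.finrank_perp h.nu h.nv h.uv
  omega

theorem up3 {P : Set E} (hP : Polytope P) (hT : Tiles P) {u v : E} (h : ON u v) :
    TT P u v ≤ 3 * LL P u v := by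
  obtain ⟨⟨S, hS, rfl⟩, hint⟩ := hP
  obtain ⟨ι, t, s, hti⟩ := tiles_iff.1 hT
  have hb := Pool.Agent.H14Belt.total h.nu h.nv h.uv hS.toFinset (by rwa [hS.coe_toFinset])
    (T := fun i => tile (convexHull ℝ S) (t i) (s i))
    (fun i => ⟨t i, s i, hti.sgn i, by rw [hS.coe_toFinset]; rfl⟩)
    (fun i j hij => hti.dis i j hij) (by
      apply eq_univ_of_forall
      intro x
      obtain ⟨i, hi⟩ := hti.cov x
      exact mem_iUnion.mpr ⟨i, hi⟩)
  rw [hS.coe_toFinset, hr h] at hb
  exact toE hb

theorem up {P : Set E} (hP : Polytope P) (hT : Tiles P) {u v : E} (h : ON u v) (hn : ¬ ThreePairs P u v)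
    (C : Finset E) (hC : ∀ c, Iso P u v c → c ∈ C) :
    TT P u v ≤ 2 * LL P u v + ∑ c ∈ C, gp P u v c := by
  classical
  have hP' := hP
  obtain ⟨⟨S, hS, hPS⟩, hint⟩ := hP
  obtain ⟨ι, t, s, hti⟩ := tiles_iff.1 hT
  have hPS' : P = convexHull ℝ ((hS.toFinset : Finset E) : Set E) := by rw [hS.coe_toFinset]; exact hPS
  have hc : IsCompact P := hP'.compact
  have hconv : Convex ℝ P := hP'.conv
  set T : ι → Set E := fun i => mot (t i) (s i) '' P with hTdef
  have hTm : ∀ i, ∃ t s, (s = 1 ∨ s = -1) ∧ T i = mot t s '' P := fun i => ⟨t i, s i, hti.sgn i, rfl⟩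
  have hdis : ∀ i j, i ≠ j → Disjoint (interior (T i)) (interior (T j)) := fun i j hij => hti.dis i j hij
  have hcov : (⋃ i, T i) = univ := by
    apply eq_univ_of_forall
    intro x
    obtain ⟨i, hi⟩ := hti.cov x
    exact mem_iUnion.mpr ⟨i, hi⟩
  have hB := Pool.Agent.H14Belt.boundedTiling hc hconv hint hTm hdis hcov
  have hcl : ∀ i, IsClosed (T i) := hB.closed
  have hsum : ∀ (i : ι) (a b : E),
      (Measure.hausdorffMeasure (Module.finrank ℝ (perp u v) : ℝ) : Measure E) (ridge (T i) a b) +
      (Measure.hausdorffMeasure (Module.finrank ℝ (perp u v) : ℝ) : Measure E) (ridge (T i) (-a) (-b)) =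
      (Measure.hausdorffMeasure (Module.finrank ℝ (perp u v) : ℝ) : Measure E) (ridge P a b) +
      (Measure.hausdorffMeasure (Module.finrank ℝ (perp u v) : ℝ) : Measure E) (ridge P (-a) (-b)) := by
    intro i a b
    have hs := hti.sgn i
    rw [hTdef]
    simp only
    rw [Pool.Agent.H14Belt.ridge_mot, Pool.Agent.H14Belt.ridge_mot,
      Pool.Agent.H14Belt.hausdorff_mot (t i) hs (by positivity),
      Pool.Agent.H14Belt.hausdorff_mot (t i) hs (by positivity)]
    rcases hs with hs | hs
    · rw [hs]; simp
    · rw [hs]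
      simp only [neg_smul, one_smul, neg_neg]
      rw [add_comm]
  have hm : ∀ i (a b : E), MeasurableSet (ridge (T i) a b) := fun i a b =>
    (Pool.Agent.H14Belt.ridge_closed (hcl i) a b).measurableSet
  set B : Set E := beltRidges P u v with hBdef
  set R : Set E := ⋃ c ∈ C, ridge P c (rot u v c) with hRdef
  have hBcl : IsClosed B := by
    rw [hBdef, hPS']
    exact Pool.Agent.H14Belt.beltRidges_closed _
  have hBc : IsCompact B := hc.of_isClosed_subset hBcl (fun x hx => hx.1)
  have hRP : R ⊆ P := by
    rw [hRdef]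
    exact iUnion₂_subset fun c _ => Pool.Agent.H14Belt.ridge_subset _ _ _
  have hRcl : IsClosed R := by
    rw [hRdef]
    exact C.finite_toSet.isClosed_biUnion fun c _ => Pool.Agent.H14Belt.ridge_closed hc.isClosed _ _
  have hRc : IsCompact R := hc.of_isClosed_subset hRcl hRP
  have hinj : ∀ i, Function.Injective (mot (t i) (s i) : E → E) := fun i =>
    (Pool.Agent.H14Belt.mot_isometry (t i) (hti.sgn i)).injective
  have hcont : ∀ i, Continuous (mot (t i) (s i) : E → E) := fun i =>
    (Pool.Agent.H14Belt.mot_isometry (t i) (hti.sgn i)).continuous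
  set F : ι → Set E := fun i => mot (t i) (s i) '' (B \ R) with hFdef
  have hFm : ∀ i, MeasurableSet (F i) := by
    intro i
    rw [hFdef]
    simp only
    rw [image_sdiff (hinj i)]
    exact (hBc.image (hcont i)).isClosed.measurableSet.diff (hRc.image (hcont i)).isClosed.measurableSet
  have hFB : ∀ i, F i ⊆ beltRidges (T i) u v := by
    intro i
    rw [hTdef]
    simp only
    rw [Pool.Agent.H14Belt.beltRidges_mot P (t i) (hti.sgn i)]
    exact image_mono sdiff_subset
  have hbm : ∀ i, (Measure.hausdorffMeasure (Module.finrank ℝ (perp u v) : ℝ) : Measure E) (F i) +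
      (Measure.hausdorffMeasure (Module.finrank ℝ (perp u v) : ℝ) : Measure E) ((fun _ : ι => (∅ : Set E)) i) =
      (Measure.hausdorffMeasure (Module.finrank ℝ (perp u v) : ℝ) : Measure E) (B \ R) := by
    intro i
    rw [hFdef]
    simp only
    rw [Pool.Agent.H14Belt.hausdorff_mot (t i) (hti.sgn i) (by positivity)]
    simp
  have key := hB.main (u := u) (v := v) (F := F) (G := fun _ => (∅ : Set E))
    (F' := fun i => ridge (T i) u v) (G' := fun i => ridge (T i) (-u) (-v))
    (fun i x hx => (hFB i hx).1) (fun i => empty_subset _) hFm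
    (fun i => MeasurableSet.empty) (fun i => hm _ _ _) (fun i => hm _ _ _) ?_ 2 _ _ hbm
    (fun i => hsum i u v) ?_
  · rw [hr h] at key
    have key' := toE (by exact_mod_cast key)
    have hun : (μHE[Module.finrank ℝ E - 2] : Measure E) R ≤ ∑ c ∈ C, gp P u v c := by
      rw [hRdef]
      exact measure_biUnion_finset_le _ _
    calc TT P u v = (μHE[Module.finrank ℝ E - 2] : Measure E) B := rfl
      _ ≤ (μHE[Module.finrank ℝ E - 2] : Measure E) ((B \ R) ∪ R) := by
          apply measure_mono
          intro x hx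
          by_cases hxR : x ∈ R
          · exact Or.inr hxR
          · exact Or.inl ⟨hx, hxR⟩
      _ ≤ (μHE[Module.finrank ℝ E - 2] : Measure E) (B \ R) +
          (μHE[Module.finrank ℝ E - 2] : Measure E) R := measure_union_le _ _
      _ ≤ 2 * LL P u v + ∑ c ∈ C, gp P u v c := by
          refine add_le_add ?_ hun
          exact key'
  · intro i
    obtain ⟨x1, h1⟩ := Pool.Agent.H14Belt.ridge_flat (u := u) (v := v) (T i) (σ := 1) (τ := 1) one_ne_zero one_ne_zero
    obtain ⟨x2, h2⟩ := Pool.Agent.H14Belt.ridge_flat (u := u) (v := v) (T i) (σ := -1) (τ := -1) (by norm_num) (by norm_num)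
    simp only [one_smul, neg_smul] at h1 h2
    refine ⟨insert x1 (insert x2 (hS.toFinset.image (mot (t i) (s i)))), ?_⟩
    intro x hx
    simp only [Finset.mem_insert, mem_iUnion, exists_prop, exists_eq_or_imp]
    rcases hx with ((hx | hx) | hx) | hx
    · right; right
      obtain ⟨y, hy, rfl⟩ := hx
      have hy1 : y ∈ beltRidges (convexHull ℝ ((hS.toFinset : Finset E) : Set E)) u v := by
        rw [← hPS']; exact hy.1
      have := Pool.Agent.H14Belt.beltRidges_flats hS.toFinset hy1
      simp only [mem_iUnion, exists_prop] at this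
      obtain ⟨w, hw, hyw⟩ := this
      exact ⟨mot (t i) (s i) w, Finset.mem_image_of_mem _ hw, Pool.Agent.H14Belt.flat_image (t i) (s i) w ⟨y, hyw, rfl⟩⟩
    · exact absurd hx (notMem_empty x)
    · exact Or.inl (h1 hx)
    · exact Or.inr (Or.inl (h2 hx))
  · intro I x hcovx hgen
    have loc := Pool.Agent.H14Belt.localTiling h.nu h.nv h.uv hB.conv hcl hB.int_ne hdis hcovx hgen
    have e1 := Pool.Agent.H14Belt.card_filter_ridge (σ := 1) (τ := 1) h.nu h.nv h.uv hB.conv hgen (Or.inl rfl)
    have e2 := Pool.Agent.H14Belt.card_filter_ridge (σ := -1) (τ := -1) h.nu h.nv h.uv hB.conv hgen (Or.inr rfl)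
    simp only [one_smul, neg_smul] at e1 e2
    have e3 : (I.filter fun i => x ∈ beltRidges (T i) u v).card =
        ((I.filter fun i => x ∈ T i).filter fun i =>
          Pool.Agent.H14Belt.Pointed (Pool.Agent.H14Belt.slice u v (T i) x)).card := by
      rw [Finset.filter_filter]
      congr 1
      apply Finset.filter_congr
      intro i hi
      constructor
      · intro h5
        have hx : x ∈ T i := h5.1
        exact ⟨hx, (Pool.Agent.H14Belt.beltRidges_iff_pointed h.nu h.nv h.uv (hB.conv i) (hgen i hi hx)).1 h5⟩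
      · rintro ⟨hx, h5⟩
        exact (Pool.Agent.H14Belt.beltRidges_iff_pointed h.nu h.nv h.uv (hB.conv i) (hgen i hi hx)).2 h5
    have e4 : (I.filter fun i => x ∈ F i).card ≤ (I.filter fun i => x ∈ beltRidges (T i) u v).card := by
      apply Finset.card_le_card
      intro i hi
      rw [Finset.mem_filter] at hi ⊢
      exact ⟨hi.1, hFB i hi.2⟩
    suffices hfin : (I.filter fun i => x ∈ F i).card ≤
        2 * ((I.filter fun i => x ∈ ridge (T i) u v).card +
          (I.filter fun i => x ∈ ridge (T i) (-u) (-v)).card) by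
      simpa using hfin
    rcases loc_count loc with h6 | ⟨h6, h7⟩
    · rw [e1, e2]
      rw [← e3] at h6
      exact e4.trans h6
    · have h8 := loc_one loc h6 h7
      rw [e1, e2, h8, mul_one]
      have hall : ∀ i ∈ I, x ∈ T i → x ∈ beltRidges (T i) u v := by
        intro i hi hx
        exact (Pool.Agent.H14Belt.beltRidges_iff_pointed h.nu h.nv h.uv (hB.conv i) (hgen i hi hx)).2
          (h7 i (Finset.mem_filter.2 ⟨hi, hx⟩))
      rcases cfg hP' h (t := t) (s := s) hti.sgn hdis hcovx hgen h6 hall with h9 | ⟨c, hcI, j, hj, hxj⟩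
      · exact absurd h9 hn
      · have hcC := hC c hcI
        have hxT : x ∈ T j := by
          obtain ⟨y, hy, rfl⟩ := hxj
          exact ⟨y, Pool.Agent.H14Belt.ridge_subset _ _ _ hy, rfl⟩
        have hxF : x ∉ F j := by
          rintro ⟨y, hy, hyx⟩
          obtain ⟨y', hy', hyx'⟩ := hxj
          have : y = y' := hinj j (by rw [hyx, hyx'])
          apply hy.2
          rw [hRdef, this]
          exact mem_biUnion hcC hy'
        have hsub : (I.filter fun i => x ∈ F i) ⊆ (I.filter fun i => x ∈ T i).erase j := by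
          intro i hi
          rw [Finset.mem_filter] at hi
          rw [Finset.mem_erase, Finset.mem_filter]
          refine ⟨?_, hi.1, (hFB i hi.2).1⟩
          rintro rfl
          exact hxF hi.2
        have h10 := Finset.card_le_card hsub
        have h11 : j ∈ I.filter fun i => x ∈ T i := Finset.mem_filter.2 ⟨hj, hxT⟩
        rw [Finset.card_erase_of_mem h11, h6] at h10
        exact h10

end Pool.BS79
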