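import Pool.Agent.BS79.LConst
import Pool.Agent.BS79.ArcC
import Pool.Agent.BS79.Low
import Pool.Agent.BS79.Up
import Pool.Agent.BS79.Fin3
import Pool.Agent.BS79.Fin2
import Pool.Agent.BS79.Fin1
import Pool.Agent.BS79.Par
import Pool.Agent.BS79.Dim

set_option autoImplicit false
set_option linter.unusedSectionVars false

/-!
# BS79/Main: the belt theorem
-/

namespace Pool.BS79

open Set Filter Topology MeasureTheory
open scoped RealInnerProductSpace ENNReal
open Pool.PT56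

section fin

variable {E : Type} [NormedAddCommGroup E] [InnerProductSpace ℝ E]

open Classical in
theorem fin_all {W : Finset E} {J : E → E} {g : E → ℝ≥0∞} {L T : ℝ≥0∞} (h : FD W J g L T) :
    (W.filter fun w => -w ∈ W ∨ g w ≠ 0).card ≤ 6 := by
  by_cases h3 : Three W
  · exact fin3 h h3
  by_cases h0 : ∀ w ∈ W, -w ∉ W
  · exact (Finset.card_filter_le _ _).trans ((fin0 h h0).trans (by norm_num))
  push Not at h0
  obtain ⟨w₀, hw₀, hw₀'⟩ := h0
  by_cases h1 : ∀ w ∈ W, -w ∈ W → w = w₀ ∨ w = -w₀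
  · exact fin1 h hw₀ hw₀' h1
  push Not at h1
  obtain ⟨w₁, hw₁, hw₁', hne, hne'⟩ := h1
  refine fin2 h hw₀ hw₀' hw₁ hw₁' hne hne' ?_
  intro w hw hw'
  by_contra hcon
  push Not at hcon
  obtain ⟨a1, a2, a3, a4⟩ := hcon
  apply h3
  refine ⟨![w₀, w₁, w], ?_, ?_⟩
  · intro i
    fin_cases i
    · exact ⟨hw₀, hw₀'⟩
    · exact ⟨hw₁, hw₁'⟩
    · exact ⟨hw, hw'⟩
  · have b : ∀ x y : E, x ≠ -y → y ≠ -x := by
      intro x y hxy hyx
      exact hxy (by rw [hyx, neg_neg])
    intro i j hij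
    fin_cases i <;> fin_cases j
    · exact absurd rfl hij
    · exact ⟨hne.symm, b _ _ hne'⟩
    · exact ⟨a1.symm, b _ _ a2⟩
    · exact ⟨hne, hne'⟩
    · exact absurd rfl hij
    · exact ⟨a3.symm, b _ _ a4⟩
    · exact ⟨a1, a2⟩
    · exact ⟨a3, a4⟩
    · exact absurd rfl hij

end fin

variable {E : Type} [NormedAddCommGroup E] [InnerProductSpace ℝ E] [FiniteDimensional ℝ E]
  [MeasurableSpace E] [BorelSpace E]

theorem ne_neg_of_norm {w : E} (hw : ‖w‖ = 1) : w ≠ -w := by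
  intro h
  have h5 : (2 : ℝ) • w = 0 := by
    rw [two_smul]
    nth_rewrite 2 [h]
    rw [add_neg_cancel]
  have h6 : w = 0 := by simpa using h5
  rw [h6] at hw
  simp at hw

theorem side_ne {u v : E} (h : ON u v) {w₀ w : E} (hw₀ : ‖w₀‖ = 1)
    (hs₀ : w₀ ∈ Submodule.span ℝ {u, v}) (hw : ‖w‖ = 1) (hs : w ∈ Submodule.span ℝ {u, v})
    (h1 : w ≠ w₀) (h2 : w ≠ -w₀) : ⟪rot u v w₀, w⟫ ≠ 0 := by
  obtain ⟨a, -, rfl⟩ := exists_angle h hw₀ hs₀ 0
  obtain ⟨t, ht, rfl⟩ := exists_angle h hw hs (a - Real.pi)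
  rw [rot_ww h, inner_ww'_ww h]
  intro h0
  rcases lt_or_ge (t - a) Real.pi with h3 | h3
  · rcases eq_or_lt_of_le ht.1 with h4 | h4
    · apply h2
      rw [← ww_pi, ← ww_int (a + Real.pi) (-1), ← h4]
      congr 1
      push_cast
      ring
    · have h5 := (Real.sin_eq_zero_iff_of_lt_of_lt (x := t - a) (by linarith) h3).mp h0
      apply h1
      rw [show t = a by linarith]
  · have := ht.2
    linarith

theorem three_iff {P : Set E} (hP : Polytope P) {u v : E} :
    Three (bw_finite hP u v).toFinset ↔ ThreePairs P u v := by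
  unfold Three ThreePairs
  simp only [Set.Finite.mem_toFinset]

theorem fd {P : Set E} (hP : Polytope P) (hT : Tiles P) {u v : E} (h : ON u v) (hL : LL P u v ≠ 0) :
    FD (bw_finite hP u v).toFinset (rot u v) (gp P u v) (LL P u v) (TT P u v) := by
  classical
  have hc := hP.compact
  have hnu' : ‖-u‖ = 1 := by rw [norm_neg, h.nu]
  have hnv' : ‖-v‖ = 1 := by rw [norm_neg, h.nv]
  have hfil : ∀ w₀ : E, ((bw_finite hP u v).toFinset.filter fun w => 0 < ⟪rot u v w₀, w⟫).card =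
      {w | w ∈ BW P u v ∧ 0 < ⟪rot u v w₀, w⟫}.ncard := by
    intro w₀
    rw [← Set.ncard_coe_finset]
    congr 1
    ext w
    simp
  refine
    { L0 := hL
      Lf := ?_
      ne := ?_
      Jneg := fun w => rot_neg w
      Jself := ?_
      side := ?_
      sum := ?_
      low := ?_
      up3 := up3 hP hT h
      up2 := ?_
      arc := ?_
      zero := ?_
      next := ?_ }
  · unfold LL
    exact (ENNReal.add_lt_top.mpr ⟨gv_lt_top hc h.nu h.nv h.uv,
      gv_lt_top hc hnu' hnv' (by rw [inner_neg_left, inner_neg_right, neg_neg]; exact h.uv)⟩).ne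
  · intro w hw
    exact ne_neg_of_norm ((bw_finite hP u v).mem_toFinset.mp hw).1.1
  · intro w hw
    have hw' := (bw_finite hP u v).mem_toFinset.mp hw
    rw [real_inner_comm]
    exact (rot_norm h hw'.1.1 hw'.2).2.1
  · intro w₀ hw₀ w hw h1 h2
    have a := (bw_finite hP u v).mem_toFinset.mp hw₀
    have b := (bw_finite hP u v).mem_toFinset.mp hw
    exact side_ne h a.1.1 a.2 b.1.1 b.2 h1 h2
  · intro w hw
    have b := (bw_finite hP u v).mem_toFinset.mp hw
    exact lconst hP hT h b.1.1 b.2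
  · exact low hP h _ (fun w hw => (bw_finite hP u v).mem_toFinset.mp hw)
  · intro hn
    refine up hP hT h (fun h3 => hn ((three_iff hP).mpr h3)) _ ?_
    rintro c ⟨hc1, hc2, w₀, hw₀, hw₀', h0, h1⟩
    rw [Finset.mem_filter]
    refine ⟨(bw_finite hP u v).mem_toFinset.mpr hc1, ?_, w₀, (bw_finite hP u v).mem_toFinset.mpr hw₀,
      (bw_finite hP u v).mem_toFinset.mpr hw₀', h0, ?_⟩
    · rw [(bw_finite hP u v).mem_toFinset]
      exact hc2
    · rw [← h1, ← hfil w₀]
  · intro w₀ hw₀ hno c hc hc0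
    have a := (bw_finite hP u v).mem_toFinset.mp hw₀
    have b := (bw_finite hP u v).mem_toFinset.mp hc
    refine half_const hP hT h a.1.1 a.2 ?_ b.1.1 b.2 hc0
    intro w hw hw0 hw'
    exact hno w ((bw_finite hP u v).mem_toFinset.mpr hw) hw0 ((bw_finite hP u v).mem_toFinset.mpr hw')
  · intro hno w hw
    have b := (bw_finite hP u v).mem_toFinset.mp hw
    have hr := rot_norm h b.1.1 b.2
    have hsp : Submodule.span ℝ {w, rot u v w} ≤ Submodule.span ℝ {u, v} := by
      rw [Submodule.span_le]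
      intro z hz
      rcases hz with hz | hz
      · rw [hz]; exact b.2
      · rw [mem_singleton_iff] at hz
        rw [hz]; exact hr.2.2
    unfold gp
    rw [rot_neg]
    refine facC_circle hP hT b.1.1 hr.1 hr.2.1 ?_
    rintro z hz ⟨h1, h2⟩
    have hz' := hsp hz
    exact hno z ((bw_finite hP u v).mem_toFinset.mpr ⟨h1, hz'⟩)
      ((bw_finite hP u v).mem_toFinset.mpr ⟨h2, (Submodule.span ℝ {u, v}).neg_mem hz'⟩)
  · intro w₀ hw₀ hg
    obtain ⟨w, hw, hw0⟩ := next_facet hP h ((bw_finite hP u v).mem_toFinset.mp hw₀) hg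
    exact ⟨w, (bw_finite hP u v).mem_toFinset.mpr hw, hw0⟩

/-- the belt of the plane of `u`, `v`, as a set of facet normals -/
def BB (P : Set E) (u v : E) : Set E := {w | w ∈ BW P u v ∧ (gp P u v w ≠ 0 ∨ gm P u v w ≠ 0)}

theorem bb_empty {P : Set E} (hP : Polytope P) (hT : Tiles P) {u v : E} (h : ON u v)
    (hL : LL P u v = 0) : BB P u v = ∅ := by
  ext w
  simp only [mem_empty_iff_false, iff_false]
  rintro ⟨hw, hg⟩
  have h1 := lconst hP hT h hw.1.1 hw.2
  have h2 := gm_sum hP hT h hw.1.1 hw.2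
  rw [hL, add_eq_zero] at h1 h2
  rcases hg with hg | hg
  · exact hg h1.1
  · exact hg h2.1

theorem bb_six {P : Set E} (hP : Polytope P) (hT : Tiles P) {u v : E} (h : ON u v) :
    (BB P u v).ncard ≤ 6 := by
  classical
  by_cases hL : LL P u v = 0
  · rw [bb_empty hP hT h hL]; simp
  refine le_trans ?_ (fin_all (fd hP hT h hL))
  rw [← Set.ncard_coe_finset]
  apply Set.ncard_le_ncard _ (Finset.finite_toSet _)
  rintro w ⟨hw, hg⟩
  rw [Finset.coe_filter]
  refine ⟨(bw_finite hP u v).mem_toFinset.mpr hw, ?_⟩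
  by_cases hw' : -w ∈ BW P u v
  · exact Or.inl ((bw_finite hP u v).mem_toFinset.mpr hw')
  · right
    rw [single_gm hP hT h hw hw', or_self] at hg
    exact hg

theorem bb_four {P : Set E} (hP : Polytope P) (hT : Tiles P) {u v : E} (h : ON u v)
    (hno : ∀ w ∈ BB P u v, -w ∉ BB P u v) : (BB P u v).ncard ≤ 4 := by
  classical
  by_cases hL : LL P u v = 0
  · rw [bb_empty hP hT h hL]; simp
  have hno' : ∀ w ∈ (bw_finite hP u v).toFinset, -w ∉ (bw_finite hP u v).toFinset := by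
    intro w hw hw'
    obtain ⟨z, h1, h2, h3, h4⟩ := pair_in_belt hP hT h hL ((bw_finite hP u v).mem_toFinset.mp hw)
      ((bw_finite hP u v).mem_toFinset.mp hw')
    exact hno z ⟨h1, h3⟩ ⟨h2, h4⟩
  refine le_trans ?_ (fin0 (fd hP hT h hL) hno')
  rw [← Set.ncard_coe_finset]
  apply Set.ncard_le_ncard _ (Finset.finite_toSet _)
  rintro w ⟨hw, hg⟩
  exact (bw_finite hP u v).mem_toFinset.mpr hw

theorem belt_eq {P : Set E} (hP : Polytope P) {u v : E} (h : ON u v) {G : Set E}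
    (hG : vectorSpan ℝ G = perp u v) : Belt P G = face P '' BB P u v := by
  ext F
  constructor
  · rintro ⟨hF, G', hG', hsub, hd⟩
    rw [facets_eq hP] at hF
    obtain ⟨w, hw, rfl⟩ := hF
    exact ⟨w, belt_normal hP h hw hG' hsub (hd.trans hG), rfl⟩
  · rintro ⟨w, ⟨hw, hg⟩, rfl⟩
    obtain ⟨G', hG', hsub, hd⟩ := normal_belt hP h hw hg
    refine ⟨?_, G', hG', hsub, hd.trans hG.symm⟩
    rw [facets_eq hP]
    exact ⟨w, hw.1, rfl⟩

theorem belt_six {P : Set E} (hP : Polytope P) (hT : Tiles P) {G : Set E} (hG : G ∈ Ridges P) :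
    (Belt P G).Finite ∧ (Belt P G).ncard ≤ 6 ∧
      ((∀ F ∈ Belt P G, ∀ F' ∈ Belt P G, vectorSpan ℝ F = vectorSpan ℝ F' → F = F') →
        (Belt P G).ncard ≤ 4) := by
  obtain ⟨u, v, h, hd⟩ := ridge_frame hG
  have hfin : (BB P u v).Finite := (bw_finite hP u v).subset fun w hw => hw.1
  rw [belt_eq hP h hd]
  refine ⟨hfin.image _, (Set.ncard_image_le hfin).trans (bb_six hP hT h), fun hpar => ?_⟩
  refine (Set.ncard_image_le hfin).trans (bb_four hP hT h ?_)
  intro w hw hw'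
  have h1 := hpar _ ⟨w, hw, rfl⟩ _ ⟨-w, hw', rfl⟩
    ((parallel_iff hP (u := w) (u' := -w) hw.1.1 hw'.1.1).mpr (Or.inr rfl))
  exact ne_neg_of_norm hw.1.1.1 (face_inj hP hw.1.1 hw'.1.1 h1)

theorem single_csym {P : Set E} (hP : Polytope P) (hT : Tiles P) {F : Set E} (hF : F ∈ Facets P)
    (hs : ∀ F' ∈ Facets P, vectorSpan ℝ F' = vectorSpan ℝ F → F' = F) : CSym F := by
  have hF' := hF
  rw [facets_eq hP] at hF'
  obtain ⟨w, hw, rfl⟩ := hF'
  refine csym_of_single hP hT hw ?_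
  intro hw'
  have h1 : face P (-w) = face P w := by
    refine hs _ ?_ ?_
    · rw [facets_eq hP]; exact ⟨-w, hw', rfl⟩
    · exact ((parallel_iff hP (u := w) (u' := -w) hw hw').mpr (Or.inr rfl)).symm
  exact ne_neg_of_norm hw.1 (face_inj hP hw hw' h1.symm)

end Pool.BS79
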