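import Pool.Agent.BS79.Main
import Pool.Agent.BS79.ArcD
import Pool.Agent.BS79.FinS3
import Pool.Agent.BS79.FinS2
import Pool.Agent.BS79.FinS1
import Pool.Agent.BS79.Csym

set_option autoImplicit false
set_option linter.unusedSectionVars false

/-!
# BS79/Main2: the refined belt theorem
-/

namespace Pool.BS79

open Set Filter Topology MeasureTheory
open scoped RealInnerProductSpace ENNReal
open Pool.PT56

section fin

variable {E : Type} [NormedAddCommGroup E] [InnerProductSpace ℝ E]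

theorem fin_good {W : Finset E} {J : E → E} {g gm : E → ℝ≥0∞} {L T : ℝ≥0∞} (h : FD W J g L T)
    (hm : FM W J g gm L) {z : E} (hz : z ∈ W) (hz' : -z ∈ W) (hb : InB g gm z) (hb' : InB g gm (-z)) :
    GoodPair W J g gm := by
  by_cases h3 : Three W
  · exact finS3 h hm h3 hz hz' hb hb'
  by_cases h1 : ∀ w ∈ W, -w ∈ W → w = z ∨ w = -z
  · exact finS1 h hm hz hz' h1 hz hz' hb hb'
  push Not at h1
  obtain ⟨w₁, hw₁, hw₁', hne, hne'⟩ := h1
  refine finS2 h hm hz hz' hw₁ hw₁' hne hne' ?_ hz hz' hb hb'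
  intro w hw hw'
  by_contra hcon
  push Not at hcon
  obtain ⟨a1, a2, a3, a4⟩ := hcon
  apply h3
  refine ⟨![z, w₁, w], ?_, ?_⟩
  · intro i
    fin_cases i
    · exact ⟨hz, hz'⟩
    · exact ⟨hw₁, hw₁'⟩
    · exact ⟨hw, hw'⟩
  · have b : ∀ x y : E, x ≠ -y → y ≠ -x := by
      intro x y hxy hyx
      exact hxy (by rw [hyx, neg_neg])
    intro i j hij
    fin_cases i <;> fin_cases j
    · exact absurd rfl hij
    · exact ⟨hne.symm, b _ _ hne'⟩
    · exact ⟨a1.symm, b _ _ a2⟩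
    · exact ⟨hne, hne'⟩
    · exact absurd rfl hij
    · exact ⟨a3.symm, b _ _ a4⟩
    · exact ⟨a1, a2⟩
    · exact ⟨a3, a4⟩
    · exact absurd rfl hij

end fin

variable {E : Type} [NormedAddCommGroup E] [InnerProductSpace ℝ E] [FiniteDimensional ℝ E]
  [MeasurableSpace E] [BorelSpace E]

theorem rot_anti {u v : E} (x y : E) : ⟪rot u v x, y⟫ = -⟪rot u v y, x⟫ := by
  unfold rot
  rw [inner_add_left, inner_add_left, real_inner_smul_left, real_inner_smul_left,
    real_inner_smul_left, real_inner_smul_left]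
  ring

theorem fm {P : Set E} (hP : Polytope P) (hT : Tiles P) {u v : E} (h : ON u v) :
    FM (bw_finite hP u v).toFinset (rot u v) (gp P u v) (gm P u v) (LL P u v) := by
  have hmem : ∀ w, w ∈ (bw_finite hP u v).toFinset ↔ w ∈ BW P u v := fun w =>
    (bw_finite hP u v).mem_toFinset
  constructor
  · intro w hw
    rw [hmem] at hw
    exact gm_sum hP hT h hw.1.1 hw.2
  · intro w hw hw'
    rw [hmem] at hw hw'
    exact single_gm hP hT h hw hw'
  · intro w₀ hw₀ c hc hc' h0 hno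
    rw [hmem] at hw₀ hc hc'
    refine arcp hP hT h hw₀ hc hc' h0 fun z hz hz' => ?_
    exact hno z ((hmem z).mpr hz) ((hmem _).mpr hz')
  · intro w₀ hw₀ c hc h0 hno
    rw [hmem] at hw₀ hc
    refine arcm hP hT h hw₀ hc h0 fun z hz hz' => ?_
    exact hno z ((hmem z).mpr hz) ((hmem _).mpr hz')
  · exact fun x y => rot_anti x y

theorem good_pair {P : Set E} (hP : Polytope P) (hT : Tiles P) {u v : E} (h : ON u v) {z : E}
    (hz : z ∈ BB P u v) (hz' : -z ∈ BB P u v) :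
    ∃ w₀, w₀ ∈ BB P u v ∧ -w₀ ∈ BB P u v ∧ {w | w ∈ BB P u v ∧ 0 < ⟪rot u v w₀, w⟫}.ncard ≤ 2 ∧
      {w | w ∈ BB P u v ∧ 0 < ⟪rot u v (-w₀), w⟫}.ncard ≤ 2 := by
  classical
  have hmem : ∀ w, w ∈ (bw_finite hP u v).toFinset ↔ w ∈ BW P u v := fun w =>
    (bw_finite hP u v).mem_toFinset
  have hL : LL P u v ≠ 0 := by
    intro hL
    rw [bb_empty hP hT h hL] at hz
    exact hz
  obtain ⟨w₀, h1, h2, h3, h4, h5, h6⟩ := fin_good (fd hP hT h hL) (fm hP hT h) ((hmem z).mpr hz.1)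
    ((hmem _).mpr hz'.1) hz.2 hz'.2
  have hset : ∀ x : E, {w | w ∈ BB P u v ∧ 0 < ⟪rot u v x, w⟫} =
      ((bw_finite hP u v).toFinset.filter fun w => InB (gp P u v) (gm P u v) w ∧
        0 < ⟪rot u v x, w⟫ : Finset E) := by
    intro x
    ext w
    simp only [mem_setOf_eq, Finset.coe_filter, hmem, BB, InB]
    tauto
  refine ⟨w₀, ⟨(hmem _).mp h1, h3⟩, ⟨(hmem _).mp h2, h4⟩, ?_, ?_⟩
  · rw [hset, Set.ncard_coe_finset]
    exact h5
  · rw [hset, Set.ncard_coe_finset]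
    exact h6

/-- the elements of the belt on the side of `ν` -/
def side (P : Set E) (G : Set E) (ν : E) : Set (Set E) :=
  {F | F ∈ Belt P G ∧ ∃ n : E, F = face P n ∧ 0 < ⟪ν, n⟫}

theorem normal_unique {P : Set E} (hP : Polytope P) {w n : E} (hw : Facet P w) (hn : n ≠ 0)
    (h : face P w = face P n) : ∃ c : ℝ, 0 < c ∧ n = c • w := by
  have hn' : 0 < ‖n‖ := norm_pos_iff.mpr hn
  have hu : ‖(‖n‖⁻¹ • n)‖ = 1 := by
    rw [norm_smul, norm_inv, norm_norm, inv_mul_cancel₀ hn'.ne']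
  have hf : face P (‖n‖⁻¹ • n) = face P n := face_smul P n (inv_pos.mpr hn')
  have hF : ‖n‖⁻¹ • n ∈ FN P := by
    rw [dim_iff hP hu, hf, ← h]
    exact (dim_iff hP hw.1).mp hw
  have he := face_inj hP hw hF (h.trans hf.symm)
  refine ⟨‖n‖, hn', ?_⟩
  rw [he, smul_smul, mul_inv_cancel₀ hn'.ne', one_smul]

theorem side_le {P : Set E} (hP : Polytope P) {u v : E} (h : ON u v) {G : Set E}
    (hG : vectorSpan ℝ G = perp u v) {w₀ : E} (hw₀ : w₀ ∈ BB P u v)
    (h1 : {w | w ∈ BB P u v ∧ 0 < ⟪rot u v w₀, w⟫}.ncard ≤ 2)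
    (h2 : {w | w ∈ BB P u v ∧ 0 < ⟪rot u v (-w₀), w⟫}.ncard ≤ 2) {ν : E}
    (hν : ν ∈ vectorSpan ℝ (face P w₀)) (hν' : ∀ g ∈ vectorSpan ℝ G, ⟪ν, g⟫ = 0) :
    (side P G ν).ncard ≤ 2 := by
  have hfin : (BB P u v).Finite := (bw_finite hP u v).subset fun w hw => hw.1
  have hr := rot_norm h hw₀.1.1.1 hw₀.1.2
  -- `ν` is a multiple of `rot w₀`
  obtain ⟨c, hc⟩ : ∃ c : ℝ, ν = c • rot u v w₀ := by
    have hs : ν ∈ Submodule.span ℝ {u, v} := by
      have hν2 : ν ∈ (perp u v)ᗮ := by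
        rw [Submodule.mem_orthogonal]
        intro g hg
        rw [real_inner_comm]
        exact hν' g (hG ▸ hg)
      unfold Pool.Agent.H14Belt.perp at hν2
      rwa [Submodule.orthogonal_orthogonal] at hν2
    obtain ⟨t, -, hwt⟩ := exists_angle h hw₀.1.1.1 hw₀.1.2 0
    rw [span_face hP (u := w₀) hw₀.1.1] at hν
    have h0 : ⟪w₀, ν⟫ = 0 := Submodule.mem_orthogonal_singleton_iff_inner_right.mp hν
    obtain ⟨x, y, hxy⟩ := Submodule.mem_span_pair.mp hs
    refine ⟨⟪rot u v w₀, ν⟫, ?_⟩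
    subst hwt
    rw [rot_ww h]
    have e1 : ⟪ww u v t, ν⟫ = Real.cos t * x + Real.sin t * y := by
      rw [← hxy]
      unfold ww
      simp only [inner_add_left, inner_add_right, real_inner_smul_left, inner_smul_right, h.uu, h.vv,
        h.uv, h.vu]
      ring
    have e2 : ⟪ww' u v t, ν⟫ = -Real.sin t * x + Real.cos t * y := by
      rw [← hxy]
      unfold ww'
      simp only [inner_add_left, inner_add_right, real_inner_smul_left, inner_smul_right, h.uu, h.vv,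
        h.uv, h.vu]
      ring
    rw [e1] at h0
    have hsc := Real.sin_sq_add_cos_sq t
    have ex : x = (-Real.sin t * x + Real.cos t * y) * (-Real.sin t) := by
      linear_combination (-x) * hsc + Real.cos t * h0
    have ey : y = (-Real.sin t * x + Real.cos t * y) * Real.cos t := by
      linear_combination (-y) * hsc + Real.sin t * h0
    rw [e2, ← hxy]
    unfold ww'
    rw [smul_add, smul_smul, smul_smul, ← ex, ← ey]
  have hsub : side P G ν ⊆ face P '' {w | w ∈ BB P u v ∧ 0 < ⟪ν, w⟫} := by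
    rintro F ⟨hF, n, hFn, hn0⟩
    rw [belt_eq hP h hG] at hF
    obtain ⟨w, hw, rfl⟩ := hF
    have hn : n ≠ 0 := by
      rintro rfl
      simp at hn0
    obtain ⟨c', hc', hnc⟩ := normal_unique hP hw.1.1 hn hFn
    refine ⟨w, ⟨hw, ?_⟩, rfl⟩
    rw [hnc, inner_smul_right] at hn0
    exact (mul_pos_iff_of_pos_left hc').mp hn0
  have hfin2 : ∀ x : E, {w | w ∈ BB P u v ∧ 0 < ⟪x, w⟫}.Finite := fun x =>
    hfin.subset fun w hw => hw.1
  have hle : {w | w ∈ BB P u v ∧ 0 < ⟪ν, w⟫}.ncard ≤ 2 := by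
    rcases lt_trichotomy c 0 with hc0 | hc0 | hc0
    · refine (Set.ncard_le_ncard ?_ (hfin2 _)).trans h2
      rintro w ⟨hw, hw0⟩
      refine ⟨hw, ?_⟩
      rw [hc, real_inner_smul_left] at hw0
      rw [rot_neg, inner_neg_left]
      nlinarith
    · have : {w | w ∈ BB P u v ∧ 0 < ⟪ν, w⟫} = ∅ := by
        ext w
        simp only [mem_setOf_eq, mem_empty_iff_false, iff_false]
        rintro ⟨-, hw0⟩
        rw [hc, hc0, zero_smul, inner_zero_left] at hw0
        exact lt_irrefl _ hw0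
      rw [this]; simp
    · refine (Set.ncard_le_ncard ?_ (hfin2 _)).trans h1
      rintro w ⟨hw, hw0⟩
      refine ⟨hw, ?_⟩
      rw [hc, real_inner_smul_left] at hw0
      exact (mul_pos_iff_of_pos_left hc0).mp hw0
  exact (Set.ncard_le_ncard hsub ((hfin2 ν).image _)).trans
    ((Set.ncard_image_le (hfin2 ν)).trans hle)

/-- the refined belt theorem -/
theorem belt_sides {P : Set E} (hP : Polytope P) (hT : Tiles P) {G : Set E} (hG : G ∈ Ridges P)
    {F F' : Set E} (hF : F ∈ Belt P G) (hF' : F' ∈ Belt P G) (hne : F ≠ F')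
    (hpar : vectorSpan ℝ F = vectorSpan ℝ F') :
    ∃ A ∈ Belt P G, ∃ A' ∈ Belt P G, A ≠ A' ∧ vectorSpan ℝ A = vectorSpan ℝ A' ∧
      ∀ ν ∈ vectorSpan ℝ A, (∀ g ∈ vectorSpan ℝ G, ⟪ν, g⟫ = 0) → (side P G ν).ncard ≤ 2 := by
  obtain ⟨u, v, h, hd⟩ := ridge_frame hG
  have hBE := belt_eq hP h hd
  have hF1 := hF
  have hF1' := hF'
  rw [hBE] at hF1 hF1'
  obtain ⟨z, hz, rfl⟩ := hF1
  obtain ⟨z', hz', rfl⟩ := hF1'
  have hzz : z' = -z := by
    rcases (parallel_iff hP (u := z) (u' := z') hz.1.1 hz'.1.1).mp hpar with h1 | h1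
    · exact absurd (by rw [h1]) hne
    · exact h1
  rw [hzz] at hz'
  obtain ⟨w₀, h1, h2, h3, h4⟩ := good_pair hP hT h hz hz'
  refine ⟨face P w₀, by rw [hBE]; exact ⟨w₀, h1, rfl⟩, face P (-w₀), by rw [hBE]; exact ⟨-w₀, h2, rfl⟩,
    ?_, ?_, ?_⟩
  · intro he
    exact ne_neg_of_norm h1.1.1.1 (face_inj hP h1.1.1 h2.1.1 he)
  · exact (parallel_iff hP (u := w₀) (u' := -w₀) h1.1.1 h2.1.1).mpr (Or.inr rfl)
  · intro ν hν hν'
    exact side_le hP h hd h1 h3 h4 hν hν'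

theorem csym_or {P : Set E} (hP : Polytope P) (hT : Tiles P) {F : Set E} (hF : F ∈ Facets P)
    (hs : ¬ CSym F) : ∃ F' ∈ Facets P, F' ≠ F ∧ vectorSpan ℝ F' = vectorSpan ℝ F ∧ ¬ CSym F' := by
  have hF' := hF
  rw [facets_eq hP] at hF'
  obtain ⟨w, hw, rfl⟩ := hF'
  have hw' : Facet P (-w) := by
    by_contra hcon
    exact hs (csym_of_single hP hT hw hcon)
  refine ⟨face P (-w), ?_, ?_, ?_, ?_⟩
  · rw [facets_eq hP]; exact ⟨-w, hw', rfl⟩
  · intro he
    exact ne_neg_of_norm hw.1 (face_inj hP hw hw' he.symm)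
  · exact ((parallel_iff hP (u := w) (u' := -w) hw hw').mpr (Or.inr rfl)).symm
  · intro hcs
    exact hs (csym_pair hP hT hw hcs)

end Pool.BS79
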